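import Mathlib

set_option autoImplicit false

/-! Function fields of the scalar products `u_[i,j]`: frames, vectors, flows. -/

namespace Pool.Agent.Lib.MP_4d1bc1_mp.Kv

open Finset Polynomial

universe u

/-- A locally finite family of commuting derivations (the partial derivatives). -/
structure Frame (I : Type) (F : Type u) [Field F] [Algebra ℝ F] where
  P : I → Derivation ℝ F F
  comm : ∀ a b f, P a (P b f) = P b (P a f)
  fin : ∀ f, {a | P a f ≠ 0}.Finite

variable {I : Type} {F : Type u} [Field F] [Algebra ℝ F]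

namespace Frame

variable (T : Frame I F)

theorem support_mul_subset (c : I → F) (f : F) :
    (Function.support fun a => c a * T.P a f) ⊆ {a | T.P a f ≠ 0} := by
  intro a ha
  simp only [Function.mem_support, ne_eq, mul_eq_zero, not_or] at ha
  exact ha.2

theorem finite_support_mul (c : I → F) (f : F) :
    (Function.support fun a => c a * T.P a f).Finite :=
  (T.fin f).subset (T.support_mul_subset c f)

/-- The vector field with coefficients `c`. -/
noncomputable def vf (c : I → F) : Derivation ℝ F F :=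
  Derivation.mk'
    { toFun := fun f => ∑ᶠ a, c a * T.P a f
      map_add' := by
        intro f g
        rw [← finsum_add_distrib (T.finite_support_mul c f) (T.finite_support_mul c g)]
        exact finsum_congr fun a => by rw [map_add, mul_add]
      map_smul' := by
        intro r f
        rw [RingHom.id_apply, smul_finsum' r (T.finite_support_mul c f)]
        exact finsum_congr fun a => by
          rw [Derivation.map_smul, mul_smul_comm] }
    (by
      intro f g
      change ∑ᶠ a, c a * T.P a (f * g) = f • ∑ᶠ a, c a * T.P a g + g • ∑ᶠ a, c a * T.P a f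
      rw [smul_finsum' f (T.finite_support_mul c g), smul_finsum' g (T.finite_support_mul c f),
        ← finsum_add_distrib]
      · exact finsum_congr fun a => by
          rw [Derivation.leibniz]; simp only [smul_eq_mul]; ring
      · exact (T.finite_support_mul c g).subset (by
          intro a ha
          simp only [Function.mem_support, ne_eq, smul_eq_mul, mul_eq_zero, not_or] at ha ⊢
          exact ha.2)
      · exact (T.finite_support_mul c f).subset (by
          intro a ha
          simp only [Function.mem_support, ne_eq, smul_eq_mul, mul_eq_zero, not_or] at ha ⊢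
          exact ha.2))

theorem vf_apply (c : I → F) (f : F) : T.vf c f = ∑ᶠ a, c a * T.P a f := rfl

theorem vf_eq_sum (c : I → F) (f : F) (s : Finset I) (hs : ∀ a, a ∉ s → T.P a f = 0) :
    T.vf c f = ∑ a ∈ s, c a * T.P a f := by
  rw [vf_apply]
  apply finsum_eq_sum_of_support_subset
  intro a ha
  by_contra h
  have := hs a (by simpa using h)
  simp [this] at ha

theorem P_notMem (f : F) (a : I) (ha : a ∉ (T.fin f).toFinset) : T.P a f = 0 := by
  by_contra h
  exact ha (by simpa using h)

theorem P_vf (b : I) (c : I → F) (f : F) :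
    T.P b (T.vf c f) = T.vf c (T.P b f) + T.vf (fun a => T.P b (c a)) f := by
  have h1 := T.vf_eq_sum c f _ (T.P_notMem f)
  have h2 := T.vf_eq_sum c (T.P b f) (T.fin f).toFinset (fun a ha => by
    rw [T.comm, T.P_notMem f a ha, map_zero])
  have h3 := T.vf_eq_sum (fun a => T.P b (c a)) f _ (T.P_notMem f)
  rw [h1, h2, h3, map_sum, ← sum_add_distrib]
  refine sum_congr rfl fun a _ => ?_
  rw [Derivation.leibniz, T.comm b a]
  simp only [smul_eq_mul]
  ring

theorem vf_comm (c d : I → F) (f : F) :
    T.vf c (T.vf d f) = T.vf d (T.vf c f) + T.vf (fun a => T.vf c (d a) - T.vf d (c a)) f := by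
  have key : ∀ (c d : I → F), T.vf c (T.vf d f) =
      T.vf (fun a => T.vf c (d a)) f
        + ∑ a ∈ (T.fin f).toFinset, ∑ b ∈ (T.fin f).toFinset,
          d a * (c b * T.P b (T.P a f)) := by
    intro c d
    have h1 := T.vf_eq_sum d f _ (T.P_notMem f)
    have h3 := T.vf_eq_sum (fun a => T.vf c (d a)) f _ (T.P_notMem f)
    rw [h1, h3, map_sum, ← sum_add_distrib]
    refine sum_congr rfl fun a _ => ?_
    have h2 := T.vf_eq_sum c (T.P a f) (T.fin f).toFinset (fun b hb => by
      rw [T.comm, T.P_notMem f b hb, map_zero])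
    rw [Derivation.leibniz, h2, ← mul_sum]
    simp only [smul_eq_mul]
    ring
  rw [key c d, key d c]
  have h4 : ∑ a ∈ (T.fin f).toFinset, ∑ b ∈ (T.fin f).toFinset,
        d a * (c b * T.P b (T.P a f))
      = ∑ a ∈ (T.fin f).toFinset, ∑ b ∈ (T.fin f).toFinset,
        c a * (d b * T.P b (T.P a f)) := by
    rw [sum_comm]
    refine sum_congr rfl fun a _ => sum_congr rfl fun b _ => ?_
    rw [T.comm a b]
    ring
  rw [h4]
  have h5 : T.vf (fun a => T.vf c (d a) - T.vf d (c a)) f
      = T.vf (fun a => T.vf c (d a)) f - T.vf (fun a => T.vf d (c a)) f := by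
    rw [T.vf_eq_sum _ f _ (T.P_notMem f), T.vf_eq_sum _ f _ (T.P_notMem f),
      T.vf_eq_sum _ f _ (T.P_notMem f), ← sum_sub_distrib]
    exact sum_congr rfl fun a _ => by ring
  rw [h5]
  ring

theorem vf_congr {c d : I → F} (h : ∀ a, c a = d a) (f : F) : T.vf c f = T.vf d f := by
  have : c = d := funext h
  rw [this]

/-- Two vector fields whose coefficients commute, commute. -/
theorem vf_comm_of (c d : I → F) (h : ∀ a, T.vf c (d a) = T.vf d (c a)) (f : F) :
    T.vf c (T.vf d f) = T.vf d (T.vf c f) := by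
  have h0 : T.vf (fun _ => (0 : F)) f = 0 := by
    rw [vf_apply]; simp
  have h1 : T.vf (fun a => T.vf c (d a) - T.vf d (c a)) f = 0 := by
    rw [← h0]
    exact T.vf_congr (fun a => by rw [h a, sub_self]) f
  rw [T.vf_comm c d f, h1, add_zero]

end Frame


namespace Frame

variable {I : Type} {F : Type u} [Field F] [Algebra ℝ F] (T : Frame I F)

theorem vf_zero (f : F) : T.vf (fun _ => 0) f = 0 := by
  rw [T.vf_apply]; simp

theorem vf_add (c d : I → F) (f : F) :
    T.vf (fun a => c a + d a) f = T.vf c f + T.vf d f := by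
  rw [T.vf_eq_sum _ f _ (T.P_notMem f), T.vf_eq_sum _ f _ (T.P_notMem f),
    T.vf_eq_sum _ f _ (T.P_notMem f), ← sum_add_distrib]
  exact sum_congr rfl fun a _ => by ring

theorem vf_mul (x : F) (c : I → F) (f : F) :
    T.vf (fun a => x * c a) f = x * T.vf c f := by
  rw [T.vf_eq_sum _ f _ (T.P_notMem f), T.vf_eq_sum _ f _ (T.P_notMem f), mul_sum]
  exact sum_congr rfl fun a _ => by ring

theorem vf_sub (c d : I → F) (f : F) :
    T.vf (fun a => c a - d a) f = T.vf c f - T.vf d f := by
  rw [T.vf_eq_sum _ f _ (T.P_notMem f), T.vf_eq_sum _ f _ (T.P_notMem f),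
    T.vf_eq_sum _ f _ (T.P_notMem f), ← sum_sub_distrib]
  exact sum_congr rfl fun a _ => by ring

theorem vf_single [DecidableEq I] (b : I) (x : F) (f : F) :
    T.vf (fun a => if a = b then x else 0) f = x * T.P b f := by
  rw [T.vf_eq_sum _ f (insert b (T.fin f).toFinset)
    (fun a ha => T.P_notMem f a (fun h => ha (mem_insert_of_mem h)))]
  rw [Finset.sum_eq_single b]
  · simp
  · intro a _ hab; simp [hab]
  · intro h; exact absurd (mem_insert_self _ _) h

end Frame

section

variable {F : Type u} [Field F] [Algebra ℝ F]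

@[simp] theorem der_ofNat (δ : Derivation ℝ F F) (n : ℕ) [n.AtLeastTwo] :
    δ (OfNat.ofNat n : F) = 0 := by
  rw [← Nat.cast_ofNat]; exact Derivation.map_natCast δ n

theorem der_inv_zero (δ : Derivation ℝ F F) {a : F} (ha : δ a = 0) : δ a⁻¹ = 0 := by
  rw [Derivation.leibniz_inv, ha]; simp

theorem der_mul_zero (δ : Derivation ℝ F F) {a b : F} (ha : δ a = 0) (hb : δ b = 0) :
    δ (a * b) = 0 := by
  rw [Derivation.leibniz, ha, hb]; simp

theorem der_div_zero (δ : Derivation ℝ F F) {a b : F} (ha : δ a = 0) (hb : δ b = 0) :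
    δ (a / b) = 0 := by
  rw [div_eq_mul_inv]; exact der_mul_zero δ ha (der_inv_zero δ hb)

theorem der_mul (δ : Derivation ℝ F F) (a b : F) : δ (a * b) = δ a * b + a * δ b := by
  rw [Derivation.leibniz]; simp only [smul_eq_mul]; ring

theorem der_pow (δ : Derivation ℝ F F) (a : F) (n : ℕ) :
    δ (a ^ (n + 1)) = (n + 1) * a ^ n * δ a := by
  rw [Derivation.leibniz_pow]; simp only [smul_eq_mul, nsmul_eq_mul, Nat.add_sub_cancel]
  push_cast; ring

theorem der_const_mul (δ : Derivation ℝ F F) {a : F} (ha : δ a = 0) (b : F) :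
    δ (a * b) = a * δ b := by
  rw [der_mul, ha]; ring


/-- a derivation acting on the coefficients of a polynomial -/
noncomputable def cmFun (δ : Derivation ℝ F F) (W : F[X]) : F[X] :=
  W.sum fun i a => monomial i (δ a)

theorem coeff_cmFun (δ : Derivation ℝ F F) (W : F[X]) (n : ℕ) :
    (cmFun δ W).coeff n = δ (W.coeff n) := by
  unfold cmFun
  rw [Polynomial.sum_def, finsetSum_coeff]
  simp only [coeff_monomial]
  rw [Finset.sum_ite_eq' W.support n (fun i => δ (W.coeff i))]
  split_ifs with h
  · rfl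
  · rw [notMem_support_iff.1 h, map_zero]

/-- a derivation acting on the coefficients of a polynomial, as a derivation -/
noncomputable def cm (δ : Derivation ℝ F F) : Derivation ℝ F[X] F[X] :=
  Derivation.mk'
    { toFun := cmFun δ
      map_add' := by
        intro U W
        ext n
        rw [coeff_add, coeff_cmFun, coeff_cmFun, coeff_cmFun, coeff_add, map_add]
      map_smul' := by
        intro r U
        ext n
        rw [RingHom.id_apply, coeff_smul, coeff_cmFun, coeff_cmFun, coeff_smul,
          Derivation.map_smul] }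
    (by
      intro U W
      change cmFun δ (U * W) = U • cmFun δ W + W • cmFun δ U
      ext n
      rw [coeff_cmFun, coeff_mul, map_sum, coeff_add, smul_eq_mul, smul_eq_mul, coeff_mul,
        mul_comm W, coeff_mul, ← sum_add_distrib]
      refine sum_congr rfl fun x _ => ?_
      rw [Derivation.leibniz, coeff_cmFun, coeff_cmFun]
      simp only [smul_eq_mul]
      ring)

theorem cm_apply (δ : Derivation ℝ F F) (W : F[X]) : cm δ W = cmFun δ W := rfl

@[simp] theorem coeff_cm (δ : Derivation ℝ F F) (W : F[X]) (n : ℕ) :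
    (cm δ W).coeff n = δ (W.coeff n) := coeff_cmFun δ W n

@[simp] theorem cm_C (δ : Derivation ℝ F F) (a : F) : cm δ (C a) = C (δ a) := by
  ext n
  rw [coeff_cm, coeff_C, coeff_C]
  split_ifs <;> simp

@[simp] theorem cm_X (δ : Derivation ℝ F F) : cm δ (X : F[X]) = 0 := by
  ext n
  rw [coeff_cm, coeff_X, coeff_zero]
  split_ifs <;> simp

theorem cm_mul (δ : Derivation ℝ F F) (U W : F[X]) :
    cm δ (U * W) = cm δ U * W + U * cm δ W := by
  rw [Derivation.leibniz]; simp only [smul_eq_mul]; ring

theorem cm_monomial (δ : Derivation ℝ F F) (n : ℕ) (a : F) :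
    cm δ (monomial n a) = monomial n (δ a) := by
  ext k
  rw [coeff_cm, coeff_monomial, coeff_monomial]
  split_ifs <;> simp

@[simp] theorem cm_X_pow (δ : Derivation ℝ F F) (n : ℕ) : cm δ ((X : F[X]) ^ n) = 0 := by
  rw [← monomial_one_right_eq_X_pow, cm_monomial]
  simp


end

/-- pairs `i ≤ j` -/
abbrev Idx2 : Type := {a : ℕ × ℕ // a.1 ≤ a.2}

/-- the ordered pair -/
def mk2 (i j : ℕ) : Idx2 := ⟨(min i j, max i j), by simp⟩

theorem mk2_comm (i j : ℕ) : mk2 i j = mk2 j i := by
  apply Subtype.ext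
  simp [mk2, min_comm, max_comm]

theorem mk2_of_le {i j : ℕ} (h : i ≤ j) : mk2 i j = ⟨(i, j), h⟩ := by
  apply Subtype.ext
  simp [mk2, h]

theorem mk2_val (a : Idx2) : mk2 a.1.1 a.1.2 = a := mk2_of_le a.2

theorem mk2_eq_iff (i j k l : ℕ) : mk2 i j = mk2 k l ↔ (i = k ∧ j = l) ∨ (i = l ∧ j = k) := by
  constructor
  · intro h
    have h1 : min i j = min k l := congrArg (fun a : Idx2 => a.1.1) h
    have h2 : max i j = max k l := congrArg (fun a : Idx2 => a.1.2) h
    omega
  · rintro (⟨rfl, rfl⟩ | ⟨rfl, rfl⟩)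
    · rfl
    · exact mk2_comm _ _

/-- A field of functions of the independent variables `U a`. -/
structure Jet (F : Type u) [Field F] [Algebra ℝ F] where
  T : Frame Idx2 F
  U : Idx2 → F
  P_U : ∀ a b, T.P a (U b) = if a = b then 1 else 0


/-- being a vector field -/
def Frame.IsVF {I : Type} (T : Frame I F) (δ : F → F) : Prop := ∃ c, ∀ f, δ f = T.vf c f

theorem Frame.isVF_vf {I : Type} (T : Frame I F) (c : I → F) : T.IsVF (T.vf c) := ⟨c, fun _ => rfl⟩

theorem Frame.isVF_P {I : Type} [DecidableEq I] (T : Frame I F) (b : I) : T.IsVF (T.P b) :=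
  ⟨fun a => if a = b then 1 else 0, fun f => by rw [T.vf_single, one_mul]⟩

theorem Frame.IsVF.add {I : Type} {T : Frame I F} {δ ε : F → F} (h1 : T.IsVF δ)
    (h2 : T.IsVF ε) : T.IsVF (fun f => δ f + ε f) := by
  obtain ⟨c, hc⟩ := h1
  obtain ⟨d, hd⟩ := h2
  exact ⟨fun a => c a + d a, fun f => by change δ f + ε f = _; rw [T.vf_add, hc, hd]⟩

theorem Frame.IsVF.sub {I : Type} {T : Frame I F} {δ ε : F → F} (h1 : T.IsVF δ)
    (h2 : T.IsVF ε) : T.IsVF (fun f => δ f - ε f) := by
  obtain ⟨c, hc⟩ := h1
  obtain ⟨d, hd⟩ := h2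
  exact ⟨fun a => c a - d a, fun f => by change δ f - ε f = _; rw [T.vf_sub, hc, hd]⟩

theorem Frame.IsVF.mul {I : Type} {T : Frame I F} {δ : F → F} (h1 : T.IsVF δ) (x : F) :
    T.IsVF (fun f => x * δ f) := by
  obtain ⟨c, hc⟩ := h1
  exact ⟨fun a => x * c a, fun f => by change x * δ f = _; rw [T.vf_mul, hc]⟩

theorem Frame.isVF_zero {I : Type} (T : Frame I F) : T.IsVF (fun _ => 0) :=
  ⟨fun _ => 0, fun f => by rw [T.vf_zero]⟩

theorem Frame.IsVF.sum {I ι : Type} {T : Frame I F} (s : Finset ι) {δ : ι → F → F}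
    (h : ∀ i ∈ s, T.IsVF (δ i)) : T.IsVF (fun f => ∑ i ∈ s, δ i f) := by
  classical
  induction s using Finset.induction_on with
  | empty => simpa using T.isVF_zero
  | insert a s ha ih =>
    have h1 := (h a (mem_insert_self _ _)).add (ih fun i hi => h i (mem_insert_of_mem hi))
    obtain ⟨c, hc⟩ := h1
    exact ⟨c, fun f => by rw [← hc]; change ∑ i ∈ insert a s, δ i f = _; rw [sum_insert ha]⟩

theorem Frame.IsVF.comm {I : Type} {T : Frame I F} {δ ε : F → F} (h1 : T.IsVF δ)
    (h2 : T.IsVF ε) : T.IsVF (fun f => δ (ε f) - ε (δ f)) := by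
  obtain ⟨c, hc⟩ := h1
  obtain ⟨d, hd⟩ := h2
  exact ⟨fun a => T.vf c (d a) - T.vf d (c a), fun f => by
    change δ (ε f) - ε (δ f) = _
    rw [hd f, hc f, hc, hd, T.vf_comm]; ring⟩

namespace Jet

variable (J : Jet F)

/-- the scalar product `u_[i,j]` -/
noncomputable def u (i j : ℕ) : F := J.U (mk2 i j)

theorem u_symm (i j : ℕ) : J.u i j = J.u j i := by rw [u, u, mk2_comm]

theorem vf_U (c : Idx2 → F) (b : Idx2) : J.T.vf c (J.U b) = c b := by
  rw [J.T.vf_eq_sum c (J.U b) {b}]
  · simp [J.P_U]
  · intro a ha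
    rw [J.P_U, if_neg]
    simpa using ha

theorem vf_ext {δ ε : F → F} (h1 : J.T.IsVF δ) (h2 : J.T.IsVF ε)
    (h : ∀ i j, δ (J.u i j) = ε (J.u i j)) (f : F) : δ f = ε f := by
  obtain ⟨c, hc⟩ := h1
  obtain ⟨d, hd⟩ := h2
  have : c = d := by
    funext b
    have h3 := h b.1.1 b.1.2
    rw [u, mk2_val, hc, hd, J.vf_U, J.vf_U] at h3
    exact h3
  rw [hc, hd, this]

/-- the field with `u_[i,j] ↦ e i j` -/
noncomputable def fld (e : ℕ → ℕ → F) : Derivation ℝ F F := J.T.vf (fun a => e a.1.1 a.1.2)

theorem isVF_fld (e : ℕ → ℕ → F) : J.T.IsVF (J.fld e) := J.T.isVF_vf _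

theorem fld_u (e : ℕ → ℕ → F) (he : ∀ i j, e i j = e j i) (i j : ℕ) :
    J.fld e (J.u i j) = e i j := by
  rw [fld, u, J.vf_U]
  change e (min i j) (max i j) = e i j
  rcases le_total i j with h | h
  · rw [min_eq_left h, max_eq_right h]
  · rw [min_eq_right h, max_eq_left h, he]

/-- doubled partial derivatives -/
noncomputable def Gu (i j : ℕ) : Derivation ℝ F F :=
  (if i = j then (2 : ℝ) else 1) • J.T.P (mk2 i j)

theorem Gu_apply (i j : ℕ) (f : F) :
    J.Gu i j f = (if i = j then (2 : F) else 1) * J.T.P (mk2 i j) f := by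
  have h : algebraMap ℝ F (if i = j then (2 : ℝ) else 1) = if i = j then 2 else 1 := by
    split_ifs
    · exact map_ofNat _ 2
    · exact map_one _
  rw [Gu, Derivation.smul_apply, Algebra.smul_def, h]

theorem Gu_symm (i j : ℕ) (f : F) : J.Gu i j f = J.Gu j i f := by
  rw [Gu_apply, Gu_apply, mk2_comm]
  simp only [eq_comm]

theorem Gu_u (j l a b : ℕ) : J.Gu j l (J.u a b)
    = (if j = a ∧ l = b then 1 else 0) + (if j = b ∧ l = a then 1 else 0) := by
  rw [Gu_apply, u, J.P_U]
  simp only [mk2_eq_iff]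
  by_cases hjl : j = l
  · subst hjl
    by_cases h1 : j = a ∧ j = b
    · obtain ⟨rfl, rfl⟩ := h1
      simp
      norm_num
    · have h2 : ¬ (j = b ∧ j = a) := fun h => h1 ⟨h.2, h.1⟩
      rw [if_neg h1, if_neg h2, if_neg (not_or.2 ⟨h1, h2⟩)]
      ring
  · rw [if_neg hjl, one_mul]
    by_cases h1 : j = a ∧ l = b
    · have h2 : ¬ (j = b ∧ l = a) := by omega
      rw [if_pos h1, if_neg h2, if_pos (Or.inl h1)]; ring
    · by_cases h2 : j = b ∧ l = a
      · rw [if_neg h1, if_pos h2, if_pos (Or.inr h2)]; ring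
      · rw [if_neg h1, if_neg h2, if_neg (not_or.2 ⟨h1, h2⟩)]; ring

theorem isVF_Gu (i j : ℕ) : J.T.IsVF (J.Gu i j) := by
  obtain ⟨c, hc⟩ := (J.T.isVF_P (mk2 i j)).mul (if i = j then (2 : F) else 1)
  exact ⟨c, fun f => by rw [Gu_apply]; exact hc f⟩

/-- the total derivative -/
noncomputable def D : Derivation ℝ F F := J.fld (fun i j => J.u (i + 1) j + J.u i (j + 1))

theorem D_u (i j : ℕ) : J.D (J.u i j) = J.u (i + 1) j + J.u i (j + 1) :=
  J.fld_u _ (fun i j => by rw [J.u_symm (i + 1) j, J.u_symm i (j + 1)]; ring) i j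

/-- shifted -/
noncomputable def Gum (j l : ℕ) (f : F) : F :=
  match j with
  | 0 => 0
  | j + 1 => J.Gu j l f

theorem isVF_Gum (j l : ℕ) : J.T.IsVF (J.Gum j l) := by
  cases j with
  | zero => exact J.T.isVF_zero
  | succ j => exact J.isVF_Gu j l

theorem Gum_u (j l a b : ℕ) : J.Gum j l (J.u a b)
    = (if j = a + 1 ∧ l = b then 1 else 0) + (if j = b + 1 ∧ l = a then 1 else 0) := by
  cases j with
  | zero => simp [Gum]
  | succ j =>
    change J.Gu j l (J.u a b) = _
    rw [Gu_u]
    simp only [Nat.add_right_cancel_iff]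

theorem der_ite (δ : Derivation ℝ F F) (P : Prop) [Decidable P] :
    δ (if P then (1 : F) else 0) = 0 := by
  split_ifs
  · exact Derivation.map_one_eq_zero _
  · exact map_zero _

theorem Gu_D (j l : ℕ) (f : F) :
    J.Gu j l (J.D f) = J.D (J.Gu j l f) + J.Gum j l f + J.Gum l j f := by
  have h1 : J.T.IsVF (fun f => J.Gu j l (J.D f) - J.D (J.Gu j l f)) :=
    (J.isVF_Gu j l).comm (J.isVF_fld _)
  have h2 := (J.isVF_Gum j l).add (J.isVF_Gum l j)
  have h3 := J.vf_ext h1 h2 (fun a b => by
    rw [D_u, map_add, Gu_u, Gu_u, Gu_u, map_add, der_ite, der_ite, Gum_u, Gum_u]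
    have e1 : (if j = a + 1 ∧ l = b then (1 : F) else 0) = if j = a + 1 ∧ l = b then 1 else 0 := rfl
    have e2 : (if j = b ∧ l = a + 1 then (1 : F) else 0)
        = if l = a + 1 ∧ j = b then 1 else 0 := by simp only [and_comm]
    have e3 : (if j = a ∧ l = b + 1 then (1 : F) else 0)
        = if l = b + 1 ∧ j = a then 1 else 0 := by simp only [and_comm]
    rw [e2, e3]
    ring) f
  have h4 : J.Gu j l (J.D f) - J.D (J.Gu j l f) = J.Gum j l f + J.Gum l j f := h3
  linear_combination h4

/-! ### vectors -/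

/-- total derivative of vectors -/
noncomputable def DM : F[X] →+ F[X] where
  toFun W := cm J.D W + X * W
  map_zero' := by simp
  map_add' U W := by rw [map_add]; ring

theorem DM_apply (W : F[X]) : J.DM W = cm J.D W + X * W := rfl

theorem coeff_DM_zero (W : F[X]) : (J.DM W).coeff 0 = J.D (W.coeff 0) := by
  rw [DM_apply, coeff_add, coeff_cm]; simp

theorem coeff_DM_succ (W : F[X]) (n : ℕ) :
    (J.DM W).coeff (n + 1) = J.D (W.coeff (n + 1)) + W.coeff n := by
  rw [DM_apply, coeff_add, coeff_cm, coeff_X_mul]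

theorem DM_C_mul (a : F) (W : F[X]) : J.DM (C a * W) = C (J.D a) * W + C a * J.DM W := by
  rw [DM_apply, DM_apply, cm_mul, cm_C]; ring

theorem DM_X_pow (n : ℕ) : J.DM (X ^ n) = X ^ (n + 1) := by
  rw [DM_apply, cm_X_pow]; ring

/-- scalar product of vectors -/
noncomputable def ipL : F[X] →ₗ[F] F[X] →ₗ[F] F :=
  Polynomial.lsum fun i => LinearMap.toSpanSingleton F _
    (Polynomial.lsum fun j => LinearMap.toSpanSingleton F F (J.u i j))

/-- scalar product of vectors -/
noncomputable def ip (U W : F[X]) : F := J.ipL U W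

theorem ip_monomial (i j : ℕ) (a b : F) :
    J.ip (monomial i a) (monomial j b) = a * b * J.u i j := by
  rw [ip, ipL, Polynomial.lsum_apply, Polynomial.sum_monomial_index _ _ (by simp)]
  rw [LinearMap.toSpanSingleton_apply, LinearMap.smul_apply, Polynomial.lsum_apply,
    Polynomial.sum_monomial_index _ _ (by simp), LinearMap.toSpanSingleton_apply]
  simp only [smul_eq_mul]
  ring

theorem ip_add_left (U V W : F[X]) : J.ip (U + V) W = J.ip U W + J.ip V W := by
  simp [ip]
theorem ip_add_right (U V W : F[X]) : J.ip U (V + W) = J.ip U V + J.ip U W := by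
  simp [ip]
theorem ip_sub_left (U V W : F[X]) : J.ip (U - V) W = J.ip U W - J.ip V W := by
  simp [ip]
theorem ip_sub_right (U V W : F[X]) : J.ip U (V - W) = J.ip U V - J.ip U W := by
  simp [ip]
@[simp] theorem ip_zero_left (W : F[X]) : J.ip 0 W = 0 := by simp [ip]
@[simp] theorem ip_zero_right (W : F[X]) : J.ip W 0 = 0 := by simp [ip]
theorem ip_C_mul_left (a : F) (U W : F[X]) : J.ip (C a * U) W = a * J.ip U W := by
  rw [ip, ip, ← smul_eq_C_mul, map_smul, LinearMap.smul_apply, smul_eq_mul]
theorem ip_C_mul_right (a : F) (U W : F[X]) : J.ip U (C a * W) = a * J.ip U W := by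
  rw [ip, ip, ← smul_eq_C_mul, map_smul, smul_eq_mul]

theorem ip_X_pow (i j : ℕ) : J.ip (X ^ i) (X ^ j) = J.u i j := by
  rw [← monomial_one_right_eq_X_pow, ← monomial_one_right_eq_X_pow, ip_monomial]; ring

theorem ip_symm (U W : F[X]) : J.ip U W = J.ip W U := by
  induction U using Polynomial.induction_on' with
  | add U V hU hV => rw [ip_add_left, ip_add_right, hU, hV]
  | monomial i a =>
    induction W using Polynomial.induction_on' with
    | add U V hU hV => rw [ip_add_left, ip_add_right, hU, hV]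
    | monomial j b => rw [ip_monomial, ip_monomial, J.u_symm]; ring

theorem ip_sum_left {ι : Type} (s : Finset ι) (f : ι → F[X]) (W : F[X]) :
    J.ip (∑ i ∈ s, f i) W = ∑ i ∈ s, J.ip (f i) W := by
  rw [ip, map_sum, LinearMap.sum_apply]; rfl

/-- compatibility of the scalar product and the total derivative -/
theorem D_ip (U W : F[X]) : J.D (J.ip U W) = J.ip (J.DM U) W + J.ip U (J.DM W) := by
  induction U using Polynomial.induction_on' with
  | add U V hU hV => rw [ip_add_left, map_add, hU, hV, map_add, ip_add_left, ip_add_left]; ring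
  | monomial i a =>
    induction W using Polynomial.induction_on' with
    | add U V hU hV => rw [ip_add_right, map_add, hU, hV, map_add, ip_add_right, ip_add_right]; ring
    | monomial j b =>
      rw [← C_mul_X_pow_eq_monomial, ← C_mul_X_pow_eq_monomial, DM_C_mul, DM_C_mul, DM_X_pow,
        DM_X_pow]
      simp only [ip_add_left, ip_add_right, ip_C_mul_left, ip_C_mul_right, ip_X_pow, der_mul,
        D_u]
      ring

/-- gradient with respect to `u_L` -/
noncomputable def grad (L : ℕ) (f : F) : F[X] :=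
  ∑ j ∈ range ((J.T.fin f).toFinset.sup (fun a => a.1.2) + 1), monomial j (J.Gu j L f)

@[simp] theorem coeff_grad (L : ℕ) (f : F) (j : ℕ) : (J.grad L f).coeff j = J.Gu j L f := by
  rw [grad, finsetSum_coeff]
  simp only [coeff_monomial]
  rw [Finset.sum_ite_eq' (range _) j (fun i => J.Gu i L f)]
  split_ifs with h
  · rfl
  · rw [Gu_apply, J.T.P_notMem f, mul_zero]
    intro hs
    have h1 : (mk2 j L).1.2 ≤ (J.T.fin f).toFinset.sup (fun a => a.1.2) :=
      Finset.le_sup (f := fun a : Idx2 => a.1.2) hs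
    have h2 : j ≤ (mk2 j L).1.2 := le_max_left j L
    rw [mem_range, not_lt] at h
    omega

theorem grad_add (L : ℕ) (f g : F) : J.grad L (f + g) = J.grad L f + J.grad L g := by
  refine Polynomial.ext fun j => ?_; simp
theorem grad_mul (L : ℕ) (f g : F) :
    J.grad L (f * g) = C f * J.grad L g + C g * J.grad L f := by
  refine Polynomial.ext fun j => ?_
  simp only [coeff_grad, Derivation.leibniz, smul_eq_mul, coeff_add, coeff_C_mul]

/-- shifted gradient -/
noncomputable def gradm (L : ℕ) (f : F) : F[X] :=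
  match L with
  | 0 => 0
  | L + 1 => J.grad L f

theorem grad_D' (L : ℕ) (f : F) : J.grad L (J.D f) = J.DM (J.grad L f) + J.gradm L f := by
  refine Polynomial.ext fun j => ?_
  rw [coeff_grad, J.Gu_D, coeff_add]
  congr 1
  · cases j with
    | zero => rw [coeff_DM_zero, coeff_grad]; simp [Gum]
    | succ j => rw [coeff_DM_succ, coeff_grad, coeff_grad]; simp [Gum]
  · cases L with
    | zero => simp [Gum, gradm]
    | succ L => simp [Gum, gradm, J.Gu_symm L j]

theorem grad_zero_D (f : F) : J.grad 0 (J.D f) = J.DM (J.grad 0 f) := by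
  rw [J.grad_D']; simp [gradm]

theorem grad_succ_D (L : ℕ) (f : F) :
    J.grad (L + 1) (J.D f) = J.DM (J.grad (L + 1) f) + J.grad L f := by
  rw [J.grad_D']; rfl

end Jet


namespace Jet

variable (J : Jet F)

/-- the evolution of scalars under `u_τ = G` -/
noncomputable def evo (G : F[X]) : Derivation ℝ F F :=
  J.fld (fun i j => J.ip (J.DM^[i] G) (X ^ j) + J.ip (X ^ i) (J.DM^[j] G))

theorem evo_u (G : F[X]) (i j : ℕ) : J.evo G (J.u i j)
    = J.ip (J.DM^[i] G) (X ^ j) + J.ip (X ^ i) (J.DM^[j] G) :=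
  J.fld_u _ (fun i j => by rw [J.ip_symm (J.DM^[i] G), J.ip_symm (X ^ i)]; ring) i j

theorem evo_D (G : F[X]) (f : F) : J.evo G (J.D f) = J.D (J.evo G f) := by
  have h1 : J.T.IsVF (fun f => J.evo G (J.D f) - J.D (J.evo G f)) :=
    Frame.IsVF.comm (J.isVF_fld _) (J.isVF_fld _)
  have h2 := J.vf_ext h1 J.T.isVF_zero (fun i j => by
    rw [D_u, map_add, evo_u, evo_u, evo_u, map_add, D_ip, D_ip, DM_X_pow, DM_X_pow,
      Function.iterate_succ_apply', Function.iterate_succ_apply']
    ring) f
  exact sub_eq_zero.1 h2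

/-- the evolution of vectors under `u_τ = G` -/
noncomputable def evoV (G : F[X]) : F[X] →+ F[X] where
  toFun W := cm (J.evo G) W + W.sum fun a c => C c * J.DM^[a] G
  map_zero' := by simp
  map_add' U V := by
    rw [map_add, Polynomial.sum_add_index _ _ _ (by simp) (by intro a b c; rw [C_add, add_mul])]
    ring

theorem evoV_apply (G W : F[X]) :
    J.evoV G W = cm (J.evo G) W + W.sum fun a c => C c * J.DM^[a] G := rfl

theorem evoV_C_mul (G : F[X]) (a : F) (W : F[X]) :
    J.evoV G (C a * W) = C (J.evo G a) * W + C a * J.evoV G W := by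
  rw [evoV_apply, evoV_apply, cm_mul, cm_C]
  have : ((C a * W).sum fun b c => C c * J.DM^[b] G)
      = C a * (W.sum fun b c => C c * J.DM^[b] G) := by
    rw [← smul_eq_C_mul, Polynomial.sum_smul_index _ _ _ (by simp), Polynomial.sum_def,
      Polynomial.sum_def, mul_sum]
    exact sum_congr rfl fun i _ => by rw [C_mul]; ring
  rw [this]
  ring

theorem evoV_X_pow (G : F[X]) (n : ℕ) : J.evoV G (X ^ n) = J.DM^[n] G := by
  rw [evoV_apply, cm_X_pow, ← monomial_one_right_eq_X_pow,
    Polynomial.sum_monomial_index _ _ (by simp)]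
  simp

theorem evoV_one (G : F[X]) : J.evoV G 1 = G := by
  have := J.evoV_X_pow G 0
  rw [pow_zero] at this
  exact this

theorem evoV_DM (G W : F[X]) : J.evoV G (J.DM W) = J.DM (J.evoV G W) := by
  induction W using Polynomial.induction_on' with
  | add U V hU hV => rw [map_add, map_add, hU, hV, map_add, map_add]
  | monomial n a =>
    rw [← C_mul_X_pow_eq_monomial, DM_C_mul, DM_X_pow, map_add, evoV_C_mul, evoV_C_mul,
      evoV_C_mul, evoV_X_pow, evoV_X_pow, map_add, DM_C_mul, DM_X_pow, DM_C_mul, evo_D,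
      Function.iterate_succ_apply']
    ring

theorem evo_ip (G U W : F[X]) :
    J.evo G (J.ip U W) = J.ip (J.evoV G U) W + J.ip U (J.evoV G W) := by
  induction U using Polynomial.induction_on' with
  | add U V hU hV => rw [ip_add_left, map_add, hU, hV, map_add, ip_add_left, ip_add_left]; ring
  | monomial i a =>
    induction W using Polynomial.induction_on' with
    | add U V hU hV => rw [ip_add_right, map_add, hU, hV, map_add, ip_add_right, ip_add_right]; ring
    | monomial j b =>
      rw [← C_mul_X_pow_eq_monomial, ← C_mul_X_pow_eq_monomial, evoV_C_mul, evoV_C_mul,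
        evoV_X_pow, evoV_X_pow]
      simp only [ip_add_left, ip_add_right, ip_C_mul_left, ip_C_mul_right, ip_X_pow, der_mul,
        evo_u]
      ring



theorem charZero (_J : Jet F) : CharZero F :=
  charZero_of_injective_algebraMap (algebraMap ℝ F).injective


theorem grad_u (J : Jet F) (L a b : ℕ) :
    J.grad L (J.u a b) = (if L = b then X ^ a else 0) + (if L = a then X ^ b else 0) := by
  refine Polynomial.ext fun j => ?_
  rw [coeff_grad, Gu_u, coeff_add]
  congr 1
  · by_cases h1 : L = b
    · rw [if_pos h1, coeff_X_pow]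
      simp [h1]
    · rw [if_neg h1, coeff_zero, if_neg (fun h => h1 h.2)]
  · by_cases h1 : L = a
    · rw [if_pos h1, coeff_X_pow]
      simp [h1]
    · rw [if_neg h1, coeff_zero, if_neg (fun h => h1 h.2)]


end Jet

end Pool.Agent.Lib.MP_4d1bc1_mp.Kv
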