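import Pool.Agent.Lib.MP_4d1bc1_mp.Kv.Dens

set_option autoImplicit false

/-! Calculation rules: partial derivatives, functions of few variables. -/

namespace Pool.Agent.Lib.MP_4d1bc1_mp.Kv

open Finset Polynomial

universe u

variable {F : Type u} [Field F] [Algebra ℝ F]

namespace Jet

variable (J : Jet F)

/-- the partial derivative with respect to `u_[i,j]` -/
noncomputable def pd (i j : ℕ) : Derivation ℝ F F := J.T.P (mk2 i j)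

/-- all partial derivatives vanish -/
def IsC (c : F) : Prop := ∀ a, J.T.P a c = 0

/-- function of `u_[0,0]` -/
def FX (g : F) : Prop := ∀ a, a ≠ mk2 0 0 → J.T.P a g = 0

/-- function of `u_[0,0], u_[0,1]` -/
def FXY (g : F) : Prop := ∀ a, a ≠ mk2 0 0 → a ≠ mk2 0 1 → J.T.P a g = 0

/-- function of `u_[0,0], u_[0,1], u_[1,1]` -/
def FXYZ (g : F) : Prop := ∀ a, a ≠ mk2 0 0 → a ≠ mk2 0 1 → a ≠ mk2 1 1 → J.T.P a g = 0

/-- function of the six variables `u_[i,j]`, `i ≤ j ≤ 2` -/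
def Six (g : F) : Prop := ∀ a : Idx2, 2 < a.1.2 → J.T.P a g = 0

theorem pd_symm (i j : ℕ) (g : F) : J.pd i j g = J.pd j i g := by
  rw [pd, pd, mk2_comm]

theorem pd_comm (i j k l : ℕ) (g : F) : J.pd i j (J.pd k l g) = J.pd k l (J.pd i j g) :=
  J.T.comm _ _ _

theorem pd_u (i j k l : ℕ) : J.pd i j (J.u k l)
    = if (i = k ∧ j = l) ∨ (i = l ∧ j = k) then 1 else 0 := by
  rw [pd, u, J.P_U]
  by_cases h : mk2 i j = mk2 k l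
  · rw [if_pos h, if_pos ((mk2_eq_iff _ _ _ _).1 h)]
  · rw [if_neg h, if_neg (fun h' => h ((mk2_eq_iff _ _ _ _).2 h'))]

theorem Gu_eq_pd {i j : ℕ} (h : i ≠ j) (g : F) : J.Gu i j g = J.pd i j g := by
  rw [Gu_apply, if_neg h, one_mul]; rfl

theorem Gu_eq_two (i : ℕ) (g : F) : J.Gu i i g = 2 * J.pd i i g := by
  rw [Gu_apply, if_pos rfl]; rfl

theorem pd_D_0_0 (g : F) : J.pd 0 0 (J.D g) = J.D (J.pd 0 0 g) := by
  have h := J.Gu_D 0 0 g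
  have := J.charZero
  have h2 : (2 : F) ≠ 0 := two_ne_zero
  simp only [Gum, Gu_eq_two, der_const_mul _ (der_ofNat J.D 2), add_zero] at h
  exact mul_left_cancel₀ h2 (by linear_combination h)

theorem pd_D_0_1 (g : F) : J.pd 0 1 (J.D g) = J.D (J.pd 0 1 g) + 2 * J.pd 0 0 g := by
  have h := J.Gu_D 0 1 g
  simp only [Gum, J.Gu_eq_pd (show (0 : ℕ) ≠ 1 by norm_num), Gu_eq_two] at h
  linear_combination h

theorem pd_D_0_2 (g : F) : J.pd 0 2 (J.D g) = J.D (J.pd 0 2 g) + J.pd 0 1 g := by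
  have h := J.Gu_D 0 2 g
  simp only [Gum, J.Gu_eq_pd (show (0 : ℕ) ≠ 2 by norm_num), J.Gu_eq_pd (show (1 : ℕ) ≠ 0 by norm_num)] at h
  rw [J.pd_symm 1 0] at h
  linear_combination h

theorem pd_D_0_3 (g : F) : J.pd 0 3 (J.D g) = J.D (J.pd 0 3 g) + J.pd 0 2 g := by
  have h := J.Gu_D 0 3 g
  simp only [Gum, J.Gu_eq_pd (show (0 : ℕ) ≠ 3 by norm_num), J.Gu_eq_pd (show (2 : ℕ) ≠ 0 by norm_num)] at h
  rw [J.pd_symm 2 0] at h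
  linear_combination h

theorem pd_D_0_4 (g : F) : J.pd 0 4 (J.D g) = J.D (J.pd 0 4 g) + J.pd 0 3 g := by
  have h := J.Gu_D 0 4 g
  simp only [Gum, J.Gu_eq_pd (show (0 : ℕ) ≠ 4 by norm_num), J.Gu_eq_pd (show (3 : ℕ) ≠ 0 by norm_num)] at h
  rw [J.pd_symm 3 0] at h
  linear_combination h

theorem pd_D_0_5 (g : F) : J.pd 0 5 (J.D g) = J.D (J.pd 0 5 g) + J.pd 0 4 g := by
  have h := J.Gu_D 0 5 g
  simp only [Gum, J.Gu_eq_pd (show (0 : ℕ) ≠ 5 by norm_num), J.Gu_eq_pd (show (4 : ℕ) ≠ 0 by norm_num)] at h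
  rw [J.pd_symm 4 0] at h
  linear_combination h

theorem pd_D_0_6 (g : F) : J.pd 0 6 (J.D g) = J.D (J.pd 0 6 g) + J.pd 0 5 g := by
  have h := J.Gu_D 0 6 g
  simp only [Gum, J.Gu_eq_pd (show (0 : ℕ) ≠ 6 by norm_num), J.Gu_eq_pd (show (5 : ℕ) ≠ 0 by norm_num)] at h
  rw [J.pd_symm 5 0] at h
  linear_combination h

theorem pd_D_0_7 (g : F) : J.pd 0 7 (J.D g) = J.D (J.pd 0 7 g) + J.pd 0 6 g := by
  have h := J.Gu_D 0 7 g
  simp only [Gum, J.Gu_eq_pd (show (0 : ℕ) ≠ 7 by norm_num), J.Gu_eq_pd (show (6 : ℕ) ≠ 0 by norm_num)] at h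
  rw [J.pd_symm 6 0] at h
  linear_combination h

theorem pd_D_1_1 (g : F) : J.pd 1 1 (J.D g) = J.D (J.pd 1 1 g) + J.pd 0 1 g := by
  have h := J.Gu_D 1 1 g
  have := J.charZero
  have h2 : (2 : F) ≠ 0 := two_ne_zero
  simp only [Gum, Gu_eq_two, der_const_mul _ (der_ofNat J.D 2), J.Gu_eq_pd (show (0 : ℕ) ≠ 1 by norm_num)] at h
  exact mul_left_cancel₀ h2 (by linear_combination h)

theorem pd_D_1_2 (g : F) : J.pd 1 2 (J.D g) = J.D (J.pd 1 2 g) + J.pd 0 2 g + 2 * J.pd 1 1 g := by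
  have h := J.Gu_D 1 2 g
  simp only [Gum, J.Gu_eq_pd (show (1 : ℕ) ≠ 2 by norm_num), J.Gu_eq_pd (show (0 : ℕ) ≠ 2 by norm_num), Gu_eq_two] at h
  linear_combination h

theorem pd_D_1_3 (g : F) : J.pd 1 3 (J.D g) = J.D (J.pd 1 3 g) + J.pd 0 3 g + J.pd 1 2 g := by
  have h := J.Gu_D 1 3 g
  simp only [Gum, J.Gu_eq_pd (show (1 : ℕ) ≠ 3 by norm_num), J.Gu_eq_pd (show (0 : ℕ) ≠ 3 by norm_num), J.Gu_eq_pd (show (2 : ℕ) ≠ 1 by norm_num)] at h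
  rw [J.pd_symm 2 1] at h
  linear_combination h

theorem pd_D_1_4 (g : F) : J.pd 1 4 (J.D g) = J.D (J.pd 1 4 g) + J.pd 0 4 g + J.pd 1 3 g := by
  have h := J.Gu_D 1 4 g
  simp only [Gum, J.Gu_eq_pd (show (1 : ℕ) ≠ 4 by norm_num), J.Gu_eq_pd (show (0 : ℕ) ≠ 4 by norm_num), J.Gu_eq_pd (show (3 : ℕ) ≠ 1 by norm_num)] at h
  rw [J.pd_symm 3 1] at h
  linear_combination h

theorem pd_D_1_5 (g : F) : J.pd 1 5 (J.D g) = J.D (J.pd 1 5 g) + J.pd 0 5 g + J.pd 1 4 g := by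
  have h := J.Gu_D 1 5 g
  simp only [Gum, J.Gu_eq_pd (show (1 : ℕ) ≠ 5 by norm_num), J.Gu_eq_pd (show (0 : ℕ) ≠ 5 by norm_num), J.Gu_eq_pd (show (4 : ℕ) ≠ 1 by norm_num)] at h
  rw [J.pd_symm 4 1] at h
  linear_combination h

theorem pd_D_1_6 (g : F) : J.pd 1 6 (J.D g) = J.D (J.pd 1 6 g) + J.pd 0 6 g + J.pd 1 5 g := by
  have h := J.Gu_D 1 6 g
  simp only [Gum, J.Gu_eq_pd (show (1 : ℕ) ≠ 6 by norm_num), J.Gu_eq_pd (show (0 : ℕ) ≠ 6 by norm_num), J.Gu_eq_pd (show (5 : ℕ) ≠ 1 by norm_num)] at h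
  rw [J.pd_symm 5 1] at h
  linear_combination h

theorem pd_D_1_7 (g : F) : J.pd 1 7 (J.D g) = J.D (J.pd 1 7 g) + J.pd 0 7 g + J.pd 1 6 g := by
  have h := J.Gu_D 1 7 g
  simp only [Gum, J.Gu_eq_pd (show (1 : ℕ) ≠ 7 by norm_num), J.Gu_eq_pd (show (0 : ℕ) ≠ 7 by norm_num), J.Gu_eq_pd (show (6 : ℕ) ≠ 1 by norm_num)] at h
  rw [J.pd_symm 6 1] at h
  linear_combination h

theorem pd_D_2_2 (g : F) : J.pd 2 2 (J.D g) = J.D (J.pd 2 2 g) + J.pd 1 2 g := by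
  have h := J.Gu_D 2 2 g
  have := J.charZero
  have h2 : (2 : F) ≠ 0 := two_ne_zero
  simp only [Gum, Gu_eq_two, der_const_mul _ (der_ofNat J.D 2), J.Gu_eq_pd (show (1 : ℕ) ≠ 2 by norm_num)] at h
  exact mul_left_cancel₀ h2 (by linear_combination h)

theorem pd_D_2_3 (g : F) : J.pd 2 3 (J.D g) = J.D (J.pd 2 3 g) + J.pd 1 3 g + 2 * J.pd 2 2 g := by
  have h := J.Gu_D 2 3 g
  simp only [Gum, J.Gu_eq_pd (show (2 : ℕ) ≠ 3 by norm_num), J.Gu_eq_pd (show (1 : ℕ) ≠ 3 by norm_num), Gu_eq_two] at h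
  linear_combination h

theorem pd_D_2_4 (g : F) : J.pd 2 4 (J.D g) = J.D (J.pd 2 4 g) + J.pd 1 4 g + J.pd 2 3 g := by
  have h := J.Gu_D 2 4 g
  simp only [Gum, J.Gu_eq_pd (show (2 : ℕ) ≠ 4 by norm_num), J.Gu_eq_pd (show (1 : ℕ) ≠ 4 by norm_num), J.Gu_eq_pd (show (3 : ℕ) ≠ 2 by norm_num)] at h
  rw [J.pd_symm 3 2] at h
  linear_combination h

theorem pd_D_2_5 (g : F) : J.pd 2 5 (J.D g) = J.D (J.pd 2 5 g) + J.pd 1 5 g + J.pd 2 4 g := by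
  have h := J.Gu_D 2 5 g
  simp only [Gum, J.Gu_eq_pd (show (2 : ℕ) ≠ 5 by norm_num), J.Gu_eq_pd (show (1 : ℕ) ≠ 5 by norm_num), J.Gu_eq_pd (show (4 : ℕ) ≠ 2 by norm_num)] at h
  rw [J.pd_symm 4 2] at h
  linear_combination h

theorem pd_D_2_6 (g : F) : J.pd 2 6 (J.D g) = J.D (J.pd 2 6 g) + J.pd 1 6 g + J.pd 2 5 g := by
  have h := J.Gu_D 2 6 g
  simp only [Gum, J.Gu_eq_pd (show (2 : ℕ) ≠ 6 by norm_num), J.Gu_eq_pd (show (1 : ℕ) ≠ 6 by norm_num), J.Gu_eq_pd (show (5 : ℕ) ≠ 2 by norm_num)] at h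
  rw [J.pd_symm 5 2] at h
  linear_combination h

theorem pd_D_2_7 (g : F) : J.pd 2 7 (J.D g) = J.D (J.pd 2 7 g) + J.pd 1 7 g + J.pd 2 6 g := by
  have h := J.Gu_D 2 7 g
  simp only [Gum, J.Gu_eq_pd (show (2 : ℕ) ≠ 7 by norm_num), J.Gu_eq_pd (show (1 : ℕ) ≠ 7 by norm_num), J.Gu_eq_pd (show (6 : ℕ) ≠ 2 by norm_num)] at h
  rw [J.pd_symm 6 2] at h
  linear_combination h

theorem pd_D_3_3 (g : F) : J.pd 3 3 (J.D g) = J.D (J.pd 3 3 g) + J.pd 2 3 g := by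
  have h := J.Gu_D 3 3 g
  have := J.charZero
  have h2 : (2 : F) ≠ 0 := two_ne_zero
  simp only [Gum, Gu_eq_two, der_const_mul _ (der_ofNat J.D 2), J.Gu_eq_pd (show (2 : ℕ) ≠ 3 by norm_num)] at h
  exact mul_left_cancel₀ h2 (by linear_combination h)

theorem pd_D_3_4 (g : F) : J.pd 3 4 (J.D g) = J.D (J.pd 3 4 g) + J.pd 2 4 g + 2 * J.pd 3 3 g := by
  have h := J.Gu_D 3 4 g
  simp only [Gum, J.Gu_eq_pd (show (3 : ℕ) ≠ 4 by norm_num), J.Gu_eq_pd (show (2 : ℕ) ≠ 4 by norm_num), Gu_eq_two] at h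
  linear_combination h

theorem pd_D_3_5 (g : F) : J.pd 3 5 (J.D g) = J.D (J.pd 3 5 g) + J.pd 2 5 g + J.pd 3 4 g := by
  have h := J.Gu_D 3 5 g
  simp only [Gum, J.Gu_eq_pd (show (3 : ℕ) ≠ 5 by norm_num), J.Gu_eq_pd (show (2 : ℕ) ≠ 5 by norm_num), J.Gu_eq_pd (show (4 : ℕ) ≠ 3 by norm_num)] at h
  rw [J.pd_symm 4 3] at h
  linear_combination h

theorem pd_D_3_6 (g : F) : J.pd 3 6 (J.D g) = J.D (J.pd 3 6 g) + J.pd 2 6 g + J.pd 3 5 g := by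
  have h := J.Gu_D 3 6 g
  simp only [Gum, J.Gu_eq_pd (show (3 : ℕ) ≠ 6 by norm_num), J.Gu_eq_pd (show (2 : ℕ) ≠ 6 by norm_num), J.Gu_eq_pd (show (5 : ℕ) ≠ 3 by norm_num)] at h
  rw [J.pd_symm 5 3] at h
  linear_combination h

theorem pd_D_3_7 (g : F) : J.pd 3 7 (J.D g) = J.D (J.pd 3 7 g) + J.pd 2 7 g + J.pd 3 6 g := by
  have h := J.Gu_D 3 7 g
  simp only [Gum, J.Gu_eq_pd (show (3 : ℕ) ≠ 7 by norm_num), J.Gu_eq_pd (show (2 : ℕ) ≠ 7 by norm_num), J.Gu_eq_pd (show (6 : ℕ) ≠ 3 by norm_num)] at h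
  rw [J.pd_symm 6 3] at h
  linear_combination h

theorem pd_D_4_4 (g : F) : J.pd 4 4 (J.D g) = J.D (J.pd 4 4 g) + J.pd 3 4 g := by
  have h := J.Gu_D 4 4 g
  have := J.charZero
  have h2 : (2 : F) ≠ 0 := two_ne_zero
  simp only [Gum, Gu_eq_two, der_const_mul _ (der_ofNat J.D 2), J.Gu_eq_pd (show (3 : ℕ) ≠ 4 by norm_num)] at h
  exact mul_left_cancel₀ h2 (by linear_combination h)

theorem pd_D_4_5 (g : F) : J.pd 4 5 (J.D g) = J.D (J.pd 4 5 g) + J.pd 3 5 g + 2 * J.pd 4 4 g := by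
  have h := J.Gu_D 4 5 g
  simp only [Gum, J.Gu_eq_pd (show (4 : ℕ) ≠ 5 by norm_num), J.Gu_eq_pd (show (3 : ℕ) ≠ 5 by norm_num), Gu_eq_two] at h
  linear_combination h

theorem pd_D_4_6 (g : F) : J.pd 4 6 (J.D g) = J.D (J.pd 4 6 g) + J.pd 3 6 g + J.pd 4 5 g := by
  have h := J.Gu_D 4 6 g
  simp only [Gum, J.Gu_eq_pd (show (4 : ℕ) ≠ 6 by norm_num), J.Gu_eq_pd (show (3 : ℕ) ≠ 6 by norm_num), J.Gu_eq_pd (show (5 : ℕ) ≠ 4 by norm_num)] at h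
  rw [J.pd_symm 5 4] at h
  linear_combination h

theorem pd_D_4_7 (g : F) : J.pd 4 7 (J.D g) = J.D (J.pd 4 7 g) + J.pd 3 7 g + J.pd 4 6 g := by
  have h := J.Gu_D 4 7 g
  simp only [Gum, J.Gu_eq_pd (show (4 : ℕ) ≠ 7 by norm_num), J.Gu_eq_pd (show (3 : ℕ) ≠ 7 by norm_num), J.Gu_eq_pd (show (6 : ℕ) ≠ 4 by norm_num)] at h
  rw [J.pd_symm 6 4] at h
  linear_combination h

theorem pd_D_5_5 (g : F) : J.pd 5 5 (J.D g) = J.D (J.pd 5 5 g) + J.pd 4 5 g := by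
  have h := J.Gu_D 5 5 g
  have := J.charZero
  have h2 : (2 : F) ≠ 0 := two_ne_zero
  simp only [Gum, Gu_eq_two, der_const_mul _ (der_ofNat J.D 2), J.Gu_eq_pd (show (4 : ℕ) ≠ 5 by norm_num)] at h
  exact mul_left_cancel₀ h2 (by linear_combination h)

theorem pd_D_5_6 (g : F) : J.pd 5 6 (J.D g) = J.D (J.pd 5 6 g) + J.pd 4 6 g + 2 * J.pd 5 5 g := by
  have h := J.Gu_D 5 6 g
  simp only [Gum, J.Gu_eq_pd (show (5 : ℕ) ≠ 6 by norm_num), J.Gu_eq_pd (show (4 : ℕ) ≠ 6 by norm_num), Gu_eq_two] at h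
  linear_combination h

theorem pd_D_5_7 (g : F) : J.pd 5 7 (J.D g) = J.D (J.pd 5 7 g) + J.pd 4 7 g + J.pd 5 6 g := by
  have h := J.Gu_D 5 7 g
  simp only [Gum, J.Gu_eq_pd (show (5 : ℕ) ≠ 7 by norm_num), J.Gu_eq_pd (show (4 : ℕ) ≠ 7 by norm_num), J.Gu_eq_pd (show (6 : ℕ) ≠ 5 by norm_num)] at h
  rw [J.pd_symm 6 5] at h
  linear_combination h

theorem pd_D_6_6 (g : F) : J.pd 6 6 (J.D g) = J.D (J.pd 6 6 g) + J.pd 5 6 g := by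
  have h := J.Gu_D 6 6 g
  have := J.charZero
  have h2 : (2 : F) ≠ 0 := two_ne_zero
  simp only [Gum, Gu_eq_two, der_const_mul _ (der_ofNat J.D 2), J.Gu_eq_pd (show (5 : ℕ) ≠ 6 by norm_num)] at h
  exact mul_left_cancel₀ h2 (by linear_combination h)

theorem pd_D_6_7 (g : F) : J.pd 6 7 (J.D g) = J.D (J.pd 6 7 g) + J.pd 5 7 g + 2 * J.pd 6 6 g := by
  have h := J.Gu_D 6 7 g
  simp only [Gum, J.Gu_eq_pd (show (6 : ℕ) ≠ 7 by norm_num), J.Gu_eq_pd (show (5 : ℕ) ≠ 7 by norm_num), Gu_eq_two] at h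
  linear_combination h

theorem pd_D_7_7 (g : F) : J.pd 7 7 (J.D g) = J.D (J.pd 7 7 g) + J.pd 6 7 g := by
  have h := J.Gu_D 7 7 g
  have := J.charZero
  have h2 : (2 : F) ≠ 0 := two_ne_zero
  simp only [Gum, Gu_eq_two, der_const_mul _ (der_ofNat J.D 2), J.Gu_eq_pd (show (6 : ℕ) ≠ 7 by norm_num)] at h
  exact mul_left_cancel₀ h2 (by linear_combination h)


end Jet

end Pool.Agent.Lib.MP_4d1bc1_mp.Kv
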