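import Pool.Agent.Lib.MP_4d1bc1_mp.Kv.Calc

set_option autoImplicit false

/-! Calculation rules: vector fields on functions of few variables, constants, coefficients of the
equation for the variational derivative. -/

namespace Pool.Agent.Lib.MP_4d1bc1_mp.Kv

open Finset Polynomial

universe u

variable {F : Type u} [Field F] [Algebra ℝ F]

theorem dnum (δ : Derivation ℝ F F) (n : ℕ) [n.AtLeastTwo] : δ (ofNat(n) : F) = 0 :=
  der_ofNat δ n

namespace Jet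

variable {J : Jet F}

theorem Six.bd {g : F} (hg : J.Six g) : J.Bd g 3 := by
  intro k hk
  refine Polynomial.ext fun j => ?_
  rw [coeff_grad, coeff_zero, Gu_apply, hg, mul_zero]
  have : k ≤ (mk2 j k).1.2 := le_max_right j k
  omega

theorem FXYZ.six {g : F} (hg : J.FXYZ g) : J.Six g := by
  intro a ha
  refine hg a ?_ ?_ ?_ <;> rintro rfl <;> simp [mk2] at ha

theorem FXY.xyz {g : F} (hg : J.FXY g) : J.FXYZ g := fun a h0 h1 _ => hg a h0 h1

theorem FX.xy {g : F} (hg : J.FX g) : J.FXY g := fun a h0 _ => hg a h0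

theorem IsC.x {g : F} (hg : J.IsC g) : J.FX g := fun a _ => hg a

theorem Six.P {g : F} (hg : J.Six g) (b : Idx2) : J.Six (J.T.P b g) := by
  intro a ha; rw [J.T.comm, hg a ha, map_zero]

theorem FXYZ.P {g : F} (hg : J.FXYZ g) (b : Idx2) : J.FXYZ (J.T.P b g) := by
  intro a h0 h1 h2; rw [J.T.comm, hg a h0 h1 h2, map_zero]

theorem FXY.P {g : F} (hg : J.FXY g) (b : Idx2) : J.FXY (J.T.P b g) := by
  intro a h0 h1; rw [J.T.comm, hg a h0 h1, map_zero]

theorem FX.P {g : F} (hg : J.FX g) (b : Idx2) : J.FX (J.T.P b g) := by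
  intro a h0; rw [J.T.comm, hg a h0, map_zero]

/-- a vector field on a function of the six variables -/
theorem Six.vf {g : F} (hg : J.Six g) {δ : F → F} (hδ : J.T.IsVF δ) :
    δ g = δ (J.u 0 0) * J.pd 0 0 g + δ (J.u 0 1) * J.pd 0 1 g + δ (J.u 1 1) * J.pd 1 1 g
      + δ (J.u 0 2) * J.pd 0 2 g + δ (J.u 1 2) * J.pd 1 2 g + δ (J.u 2 2) * J.pd 2 2 g := by
  obtain ⟨c, hc⟩ := hδ
  rw [hc g, J.T.vf_eq_sum c g {mk2 0 0, mk2 0 1, mk2 1 1, mk2 0 2, mk2 1 2, mk2 2 2}]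
  · rw [sum_insert (by decide), sum_insert (by decide), sum_insert (by decide),
      sum_insert (by decide), sum_insert (by decide), sum_singleton]
    rw [hc (J.u 0 0), hc (J.u 0 1), hc (J.u 1 1), hc (J.u 0 2), hc (J.u 1 2), hc (J.u 2 2)]
    simp only [u, vf_U, pd]
    ring
  · rintro ⟨⟨i, j⟩, hij⟩ ha
    apply hg
    by_contra hlt
    apply ha
    simp only [not_lt] at hlt hij
    have hi : i ≤ 2 := hij.trans hlt
    interval_cases j <;> interval_cases i <;> first | omega | simp [mk2]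

theorem FXYZ.vf {g : F} (hg : J.FXYZ g) {δ : F → F} (hδ : J.T.IsVF δ) :
    δ g = δ (J.u 0 0) * J.pd 0 0 g + δ (J.u 0 1) * J.pd 0 1 g + δ (J.u 1 1) * J.pd 1 1 g := by
  rw [hg.six.vf hδ]
  have h1 : J.pd 0 2 g = 0 := hg _ (by decide) (by decide) (by decide)
  have h2 : J.pd 1 2 g = 0 := hg _ (by decide) (by decide) (by decide)
  have h3 : J.pd 2 2 g = 0 := hg _ (by decide) (by decide) (by decide)
  rw [h1, h2, h3]; ring

theorem FXY.vf {g : F} (hg : J.FXY g) {δ : F → F} (hδ : J.T.IsVF δ) :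
    δ g = δ (J.u 0 0) * J.pd 0 0 g + δ (J.u 0 1) * J.pd 0 1 g := by
  rw [hg.xyz.vf hδ]
  have h1 : J.pd 1 1 g = 0 := hg _ (by decide) (by decide)
  rw [h1]; ring

theorem FX.vf {g : F} (hg : J.FX g) {δ : F → F} (hδ : J.T.IsVF δ) :
    δ g = δ (J.u 0 0) * J.pd 0 0 g := by
  rw [hg.xy.vf hδ]
  have h1 : J.pd 0 1 g = 0 := hg _ (by decide)
  rw [h1]; ring

theorem Six.D {g : F} (hg : J.Six g) : J.D g = 2 * J.u 0 1 * J.pd 0 0 g
    + (J.u 0 2 + J.u 1 1) * J.pd 0 1 g + 2 * J.u 1 2 * J.pd 1 1 g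
    + (J.u 0 3 + J.u 1 2) * J.pd 0 2 g + (J.u 1 3 + J.u 2 2) * J.pd 1 2 g
    + 2 * J.u 2 3 * J.pd 2 2 g := by
  rw [hg.vf (δ := J.D) (J.isVF_fld _)]
  simp only [D_u]
  rw [J.u_symm 1 0, J.u_symm 2 1, J.u_symm 3 2]
  ring

theorem FXYZ.D {g : F} (hg : J.FXYZ g) : J.D g = 2 * J.u 0 1 * J.pd 0 0 g
    + (J.u 0 2 + J.u 1 1) * J.pd 0 1 g + 2 * J.u 1 2 * J.pd 1 1 g := by
  rw [hg.vf (δ := J.D) (J.isVF_fld _)]
  simp only [D_u]
  rw [J.u_symm 1 0, J.u_symm 2 1]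
  ring

theorem FXY.D {g : F} (hg : J.FXY g) : J.D g = 2 * J.u 0 1 * J.pd 0 0 g
    + (J.u 0 2 + J.u 1 1) * J.pd 0 1 g := by
  rw [hg.xyz.D]
  have h1 : J.pd 1 1 g = 0 := hg _ (by decide) (by decide)
  rw [h1]; ring

theorem FX.D {g : F} (hg : J.FX g) : J.D g = 2 * J.u 0 1 * J.pd 0 0 g := by
  rw [hg.xy.D]
  have h1 : J.pd 0 1 g = 0 := hg _ (by decide)
  rw [h1]; ring

/-! ### constants -/

theorem isC_of_grad {g : F} (h : ∀ k, J.grad k g = 0) : J.IsC g := fun a =>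
  J.P_eq_zero_of_bd (N := 0) (a := a) (fun k _ => h k) (Nat.zero_le _)

theorem IsC.grad {c : F} (hc : J.IsC c) (k : ℕ) : J.grad k c = 0 := by
  refine Polynomial.ext fun j => ?_
  rw [coeff_grad, coeff_zero, Gu_apply, hc, mul_zero]

theorem IsC.pd {c : F} (hc : J.IsC c) (i j : ℕ) : J.pd i j c = 0 := hc _

theorem IsC.vf {c : F} (hc : J.IsC c) {δ : F → F} (hδ : J.T.IsVF δ) : δ c = 0 := by
  obtain ⟨d, hd⟩ := hδ
  rw [hd c, J.T.vf_apply]
  exact finsum_eq_zero_of_forall_eq_zero fun a => by rw [hc a, mul_zero]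

theorem IsC.D {c : F} (hc : J.IsC c) : J.D c = 0 := hc.vf (J.isVF_fld _)

theorem IsC.evo {c : F} (hc : J.IsC c) (W : F[X]) : J.evo W c = 0 := hc.vf (J.isVF_fld _)

/-- if `D g` is a constant, then `g` is a constant -/
theorem isC_of_D {g : F} (h : J.IsC (J.D g)) : J.IsC g := by
  obtain ⟨N, hN⟩ := J.exists_bd g
  have key : ∀ m k, N - k ≤ m → J.grad k g = 0 := by
    intro m
    induction m with
    | zero => intro k hk; exact hN k (by omega)
    | succ m ih =>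
      intro k hk
      have h1 := J.grad_succ_D k g
      rw [h.grad, ih (k + 1) (by omega), map_zero, zero_add] at h1
      exact h1.symm
  exact isC_of_grad fun k => key (N - k) k le_rfl

theorem D_eq_zero_of_isC {g : F} (h : J.IsC (J.D g)) : J.D g = 0 := (isC_of_D h).D

theorem isC_zero : J.IsC (0 : F) := fun _ => map_zero _

theorem isC_of_D_zero {g : F} (h : J.D g = 0) : J.IsC g := isC_of_D (by rw [h]; exact isC_zero)

theorem isC_ofNat (n : ℕ) [n.AtLeastTwo] : J.IsC (OfNat.ofNat n : F) := fun _ => der_ofNat _ _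

theorem isC_one : J.IsC (1 : F) := fun _ => Derivation.map_one_eq_zero _

theorem isC_natCast (n : ℕ) : J.IsC (n : F) := fun _ => Derivation.map_natCast _ _

theorem IsC.add {a b : F} (ha : J.IsC a) (hb : J.IsC b) : J.IsC (a + b) :=
  fun i => by rw [map_add, ha, hb, add_zero]

theorem IsC.sub {a b : F} (ha : J.IsC a) (hb : J.IsC b) : J.IsC (a - b) :=
  fun i => by rw [map_sub, ha, hb, sub_zero]

theorem IsC.neg {a : F} (ha : J.IsC a) : J.IsC (-a) := fun i => by rw [map_neg, ha, neg_zero]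

theorem IsC.mul {a b : F} (ha : J.IsC a) (hb : J.IsC b) : J.IsC (a * b) :=
  fun i => der_mul_zero _ (ha i) (hb i)

theorem IsC.inv {a : F} (ha : J.IsC a) : J.IsC a⁻¹ := fun i => der_inv_zero _ (ha i)

theorem IsC.div {a b : F} (ha : J.IsC a) (hb : J.IsC b) : J.IsC (a / b) :=
  fun i => der_div_zero _ (ha i) (hb i)

theorem IsC.pow {a : F} (ha : J.IsC a) (n : ℕ) : J.IsC (a ^ n) := by
  induction n with
  | zero => rw [pow_zero]; exact isC_one
  | succ n ih => rw [pow_succ]; exact ih.mul ha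

theorem IsC.const_mul {a : F} (ha : J.IsC a) {δ : Derivation ℝ F F} (hδ : J.T.IsVF δ) (g : F) :
    δ (a * g) = a * δ g := der_const_mul _ (ha.vf hδ) g

theorem IsC.D_mul {a : F} (ha : J.IsC a) (g : F) : J.D (a * g) = a * J.D g :=
  der_const_mul _ ha.D g

theorem IsC.pd_mul {a : F} (ha : J.IsC a) (i j : ℕ) (g : F) :
    J.pd i j (a * g) = a * J.pd i j g := der_const_mul _ (ha.pd i j) g

theorem IsC.evo_mul {a : F} (ha : J.IsC a) (W : F[X]) (g : F) :
    J.evo W (a * g) = a * J.evo W g := der_const_mul _ (ha.evo W) g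

/-! ### the powers of the flow -/

variable (J)

theorem DM_X : J.DM (X : F[X]) = X ^ 2 := by
  have h := J.DM_X_pow 1
  rw [pow_one] at h
  exact h

variable {J}

set_option linter.unusedSimpArgs false

theorem iter_K3_0 (f : F) : J.DM^[0] (K3 f) = X ^ 3 + C f * X := by
  rw [Function.iterate_zero, id_eq, K3]

theorem iter_K3_1 (f : F) : J.DM^[1] (K3 f) = X ^ 4 + C f * X ^ 2 + C (J.D f) * X := by
  rw [Function.iterate_succ_apply', iter_K3_0]
  simp only [map_add, DM_C_mul, DM_X_pow, J.DM_X]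
  ring

theorem iter_K3_2 (f : F) : J.DM^[2] (K3 f) = X ^ 5 + C f * X ^ 3 + C (2 * J.D f) * X ^ 2 + C (J.D (J.D f)) * X := by
  rw [Function.iterate_succ_apply', iter_K3_1]
  simp only [map_add, DM_C_mul, DM_X_pow, J.DM_X]
  simp only [der_mul, dnum, C_mul, C_add, C_0, map_ofNat C]
  ring

theorem iter_K3_3 (f : F) : J.DM^[3] (K3 f) = X ^ 6 + C f * X ^ 4 + C (3 * J.D f) * X ^ 3 + C (3 * J.D (J.D f)) * X ^ 2 + C (J.D (J.D (J.D f))) * X := by
  rw [Function.iterate_succ_apply', iter_K3_2]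
  simp only [map_add, DM_C_mul, DM_X_pow, J.DM_X]
  simp only [der_mul, dnum, C_mul, C_add, C_0, map_ofNat C]
  ring

theorem iter_K3_4 (f : F) : J.DM^[4] (K3 f) = X ^ 7 + C f * X ^ 5 + C (4 * J.D f) * X ^ 4 + C (6 * J.D (J.D f)) * X ^ 3 + C (4 * J.D (J.D (J.D f))) * X ^ 2 + C (J.D (J.D (J.D (J.D f)))) * X := by
  rw [Function.iterate_succ_apply', iter_K3_3]
  simp only [map_add, DM_C_mul, DM_X_pow, J.DM_X]
  simp only [der_mul, dnum, C_mul, C_add, C_0, map_ofNat C]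
  ring

theorem iter_K3_5 (f : F) : J.DM^[5] (K3 f) = X ^ 8 + C f * X ^ 6 + C (5 * J.D f) * X ^ 5 + C (10 * J.D (J.D f)) * X ^ 4 + C (10 * J.D (J.D (J.D f))) * X ^ 3 + C (5 * J.D (J.D (J.D (J.D f)))) * X ^ 2 + C (J.D (J.D (J.D (J.D (J.D f))))) * X := by
  rw [Function.iterate_succ_apply', iter_K3_4]
  simp only [map_add, DM_C_mul, DM_X_pow, J.DM_X]
  simp only [der_mul, dnum, C_mul, C_add, C_0, map_ofNat C]
  ring

theorem iter_K3_6 (f : F) : J.DM^[6] (K3 f) = X ^ 9 + C f * X ^ 7 + C (6 * J.D f) * X ^ 6 + C (15 * J.D (J.D f)) * X ^ 5 + C (20 * J.D (J.D (J.D f))) * X ^ 4 + C (15 * J.D (J.D (J.D (J.D f)))) * X ^ 3 + C (6 * J.D (J.D (J.D (J.D (J.D f))))) * X ^ 2 + C (J.D (J.D (J.D (J.D (J.D (J.D f)))))) * X := by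
  rw [Function.iterate_succ_apply', iter_K3_5]
  simp only [map_add, DM_C_mul, DM_X_pow, J.DM_X]
  simp only [der_mul, dnum, C_mul, C_add, C_0, map_ofNat C]
  ring

theorem iter_K3_7 (f : F) : J.DM^[7] (K3 f) = X ^ 10 + C f * X ^ 8 + C (7 * J.D f) * X ^ 7 + C (21 * J.D (J.D f)) * X ^ 6 + C (35 * J.D (J.D (J.D f))) * X ^ 5 + C (35 * J.D (J.D (J.D (J.D f)))) * X ^ 4 + C (21 * J.D (J.D (J.D (J.D (J.D f))))) * X ^ 3 + C (7 * J.D (J.D (J.D (J.D (J.D (J.D f)))))) * X ^ 2 + C (J.D (J.D (J.D (J.D (J.D (J.D (J.D f))))))) * X := by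
  rw [Function.iterate_succ_apply', iter_K3_6]
  simp only [map_add, DM_C_mul, DM_X_pow, J.DM_X]
  simp only [der_mul, dnum, C_mul, C_add, C_0, map_ofNat C]
  ring


end Jet

end Pool.Agent.Lib.MP_4d1bc1_mp.Kv
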