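import Pool.Agent.Lib.MP_4d1bc1_mp.Kv.Calc2

set_option autoImplicit false
set_option linter.unusedSimpArgs false

/-! Coefficients of the equation for the variational derivative, the flow on the first
variables. -/

namespace Pool.Agent.Lib.MP_4d1bc1_mp.Kv

open Finset Polynomial

universe u

variable {F : Type u} [Field F] [Algebra ℝ F]

namespace Jet

variable (J : Jet F)

theorem DM_C (a : F) : J.DM (C a) = C (J.D a) + C a * X := by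
  have h := J.DM_C_mul a 1
  have h1 : J.DM (1 : F[X]) = X := by simpa using J.DM_X_pow 0
  rw [h1] at h
  simpa using h

theorem evoV_C (G : F[X]) (a : F) : J.evoV G (C a) = C (J.evo G a) + C a * G := by
  have h := J.evoV_C_mul G a 1
  rw [evoV_one] at h
  simpa using h

theorem evoV_X (G : F[X]) : J.evoV G X = J.DM^[1] G := by
  have h := J.evoV_X_pow G 1
  rwa [pow_one] at h

theorem ip_X_left (W : F[X]) (a : F) : J.ip (C a * X) W = a * J.ip (X ^ 1) W := by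
  rw [ip_C_mul_left, pow_one]

theorem ip_X_right (W : F[X]) (a : F) : J.ip W (C a * X) = a * J.ip W (X ^ 1) := by
  rw [ip_C_mul_right, pow_one]

theorem cos_expand (f b0 b1 b2 b3 b4 b5 b6 : F) :
    J.evoV (K3 f) (C b0 + C b1 * X + C b2 * X ^ 2 + C b3 * X ^ 3 + C b4 * X ^ 4 + C b5 * X ^ 5 + C b6 * X ^ 6)
      - J.DM (J.DM (J.DM (C b0 + C b1 * X + C b2 * X ^ 2 + C b3 * X ^ 3 + C b4 * X ^ 4 + C b5 * X ^ 5 + C b6 * X ^ 6)))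
      - J.DM (C f * (C b0 + C b1 * X + C b2 * X ^ 2 + C b3 * X ^ 3 + C b4 * X ^ 4 + C b5 * X ^ 5 + C b6 * X ^ 6))
    = C (J.evo (K3 f) b0 - J.D (J.D (J.D b0)) - J.D (f * b0))
      + C (J.evo (K3 f) b1 - J.D (J.D (J.D b1)) - J.D (f * b1) - 3 * J.D (J.D b0) + 1 * (b1 * J.D f) + 1 * (b2 * J.D (J.D f)) + 1 * (b3 * J.D (J.D (J.D f))) + 1 * (b4 * J.D (J.D (J.D (J.D f)))) + 1 * (b5 * J.D (J.D (J.D (J.D (J.D f))))) + 1 * (b6 * J.D (J.D (J.D (J.D (J.D (J.D f))))))) * X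
      + C (J.evo (K3 f) b2 - J.D (J.D (J.D b2)) - J.D (f * b2) - 3 * J.D (J.D b1) - 3 * J.D b0 + 2 * (b2 * J.D f) + 3 * (b3 * J.D (J.D f)) + 4 * (b4 * J.D (J.D (J.D f))) + 5 * (b5 * J.D (J.D (J.D (J.D f)))) + 6 * (b6 * J.D (J.D (J.D (J.D (J.D f)))))) * X ^ 2
      + C (J.evo (K3 f) b3 - J.D (J.D (J.D b3)) - J.D (f * b3) - 3 * J.D (J.D b2) - 3 * J.D b1 + 3 * (b3 * J.D f) + 6 * (b4 * J.D (J.D f)) + 10 * (b5 * J.D (J.D (J.D f))) + 15 * (b6 * J.D (J.D (J.D (J.D f))))) * X ^ 3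
      + C (J.evo (K3 f) b4 - J.D (J.D (J.D b4)) - J.D (f * b4) - 3 * J.D (J.D b3) - 3 * J.D b2 + 4 * (b4 * J.D f) + 10 * (b5 * J.D (J.D f)) + 20 * (b6 * J.D (J.D (J.D f)))) * X ^ 4
      + C (J.evo (K3 f) b5 - J.D (J.D (J.D b5)) - J.D (f * b5) - 3 * J.D (J.D b4) - 3 * J.D b3 + 5 * (b5 * J.D f) + 15 * (b6 * J.D (J.D f))) * X ^ 5
      + C (J.evo (K3 f) b6 - J.D (J.D (J.D b6)) - J.D (f * b6) - 3 * J.D (J.D b5) - 3 * J.D b4 + 6 * (b6 * J.D f)) * X ^ 6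
      + C (-3 * J.D (J.D b6) - 3 * J.D b5) * X ^ 7
      + C (-3 * J.D b6) * X ^ 8 := by
  simp only [mul_add, map_add, evoV_C_mul, evoV_X_pow, evoV_C, evoV_X, iter_K3_1, iter_K3_2, iter_K3_3,
    iter_K3_4, iter_K3_5, iter_K3_6, DM_C_mul, DM_X_pow, DM_X, DM_C]
  generalize J.evo (K3 f) = T
  simp only [K3, C_1, der_mul, C_sub, C_neg, C_mul, C_add, map_ofNat C]
  ring

theorem u_1_0 : J.u 1 0 = J.u 0 1 := J.u_symm _ _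
theorem u_2_0 : J.u 2 0 = J.u 0 2 := J.u_symm _ _
theorem u_2_1 : J.u 2 1 = J.u 1 2 := J.u_symm _ _
theorem u_3_0 : J.u 3 0 = J.u 0 3 := J.u_symm _ _
theorem u_3_1 : J.u 3 1 = J.u 1 3 := J.u_symm _ _
theorem u_3_2 : J.u 3 2 = J.u 2 3 := J.u_symm _ _
theorem u_4_0 : J.u 4 0 = J.u 0 4 := J.u_symm _ _
theorem u_4_1 : J.u 4 1 = J.u 1 4 := J.u_symm _ _
theorem u_4_2 : J.u 4 2 = J.u 2 4 := J.u_symm _ _
theorem u_4_3 : J.u 4 3 = J.u 3 4 := J.u_symm _ _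
theorem u_5_0 : J.u 5 0 = J.u 0 5 := J.u_symm _ _
theorem u_5_1 : J.u 5 1 = J.u 1 5 := J.u_symm _ _
theorem u_5_2 : J.u 5 2 = J.u 2 5 := J.u_symm _ _
theorem u_5_3 : J.u 5 3 = J.u 3 5 := J.u_symm _ _
theorem u_5_4 : J.u 5 4 = J.u 4 5 := J.u_symm _ _
theorem u_6_0 : J.u 6 0 = J.u 0 6 := J.u_symm _ _
theorem u_6_1 : J.u 6 1 = J.u 1 6 := J.u_symm _ _
theorem u_6_2 : J.u 6 2 = J.u 2 6 := J.u_symm _ _
theorem u_6_3 : J.u 6 3 = J.u 3 6 := J.u_symm _ _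
theorem u_6_4 : J.u 6 4 = J.u 4 6 := J.u_symm _ _
theorem u_6_5 : J.u 6 5 = J.u 5 6 := J.u_symm _ _
theorem u_7_0 : J.u 7 0 = J.u 0 7 := J.u_symm _ _
theorem u_7_1 : J.u 7 1 = J.u 1 7 := J.u_symm _ _
theorem u_7_2 : J.u 7 2 = J.u 2 7 := J.u_symm _ _
theorem u_7_3 : J.u 7 3 = J.u 3 7 := J.u_symm _ _
theorem u_7_4 : J.u 7 4 = J.u 4 7 := J.u_symm _ _
theorem u_7_5 : J.u 7 5 = J.u 5 7 := J.u_symm _ _
theorem u_7_6 : J.u 7 6 = J.u 6 7 := J.u_symm _ _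
theorem u_8_0 : J.u 8 0 = J.u 0 8 := J.u_symm _ _
theorem u_8_1 : J.u 8 1 = J.u 1 8 := J.u_symm _ _
theorem u_8_2 : J.u 8 2 = J.u 2 8 := J.u_symm _ _
theorem u_8_3 : J.u 8 3 = J.u 3 8 := J.u_symm _ _
theorem u_8_4 : J.u 8 4 = J.u 4 8 := J.u_symm _ _
theorem u_8_5 : J.u 8 5 = J.u 5 8 := J.u_symm _ _
theorem u_8_6 : J.u 8 6 = J.u 6 8 := J.u_symm _ _
theorem u_8_7 : J.u 8 7 = J.u 7 8 := J.u_symm _ _
theorem u_9_0 : J.u 9 0 = J.u 0 9 := J.u_symm _ _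
theorem u_9_1 : J.u 9 1 = J.u 1 9 := J.u_symm _ _
theorem u_9_2 : J.u 9 2 = J.u 2 9 := J.u_symm _ _
theorem u_9_3 : J.u 9 3 = J.u 3 9 := J.u_symm _ _
theorem u_9_4 : J.u 9 4 = J.u 4 9 := J.u_symm _ _
theorem u_9_5 : J.u 9 5 = J.u 5 9 := J.u_symm _ _
theorem u_9_6 : J.u 9 6 = J.u 6 9 := J.u_symm _ _
theorem u_9_7 : J.u 9 7 = J.u 7 9 := J.u_symm _ _
theorem u_9_8 : J.u 9 8 = J.u 8 9 := J.u_symm _ _

theorem ip_X_X : J.ip (X : F[X]) X = J.u 1 1 := by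
  have h := J.ip_X_pow 1 1
  rwa [pow_one] at h

theorem ip_X_powX (n : ℕ) : J.ip (X : F[X]) (X ^ n) = J.u 1 n := by
  have h := J.ip_X_pow 1 n
  rwa [pow_one] at h

theorem ip_powX_X (n : ℕ) : J.ip (X ^ n : F[X]) X = J.u n 1 := by
  have h := J.ip_X_pow n 1
  rwa [pow_one] at h

theorem ip_1_1 : J.ip (1 : F[X]) 1 = J.u 0 0 := by
  have h := J.ip_X_pow 0 0
  rwa [pow_zero] at h

theorem ip_1_X : J.ip (1 : F[X]) X = J.u 0 1 := by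
  have h := J.ip_powX_X 0
  rwa [pow_zero] at h

theorem ip_X_1 : J.ip (X : F[X]) 1 = J.u 1 0 := by
  have h := J.ip_X_powX 0
  rwa [pow_zero] at h

theorem ip_1_powX (n : ℕ) : J.ip (1 : F[X]) (X ^ n) = J.u 0 n := by
  have h := J.ip_X_pow 0 n
  rwa [pow_zero] at h

theorem ip_powX_1 (n : ℕ) : J.ip (X ^ n : F[X]) 1 = J.u n 0 := by
  have h := J.ip_X_pow n 0
  rwa [pow_zero] at h

theorem ip_C_right (U : F[X]) (a : F) : J.ip U (C a) = a * J.ip U 1 := by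
  have h := J.ip_C_mul_right a U 1
  rwa [mul_one] at h

theorem ip_C_left (U : F[X]) (a : F) : J.ip (C a) U = a * J.ip 1 U := by
  have h := J.ip_C_mul_left a 1 U
  rwa [mul_one] at h

end Jet

namespace Jet

variable (J : Jet F)

/-- rules that evaluate scalar products of powers and put `u_[i,j]` in the form `i ≤ j` -/
theorem unr :
    (∀ U V W : F[X], J.ip (U + V) W = J.ip U W + J.ip V W) ∧
    (∀ U V W : F[X], J.ip U (V + W) = J.ip U V + J.ip U W) ∧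
    (∀ U V W : F[X], J.ip (U - V) W = J.ip U W - J.ip V W) ∧
    (∀ U V W : F[X], J.ip U (V - W) = J.ip U V - J.ip U W) ∧
    (∀ (a : F) (U W : F[X]), J.ip (C a * U) W = a * J.ip U W) ∧
    (∀ (a : F) (U W : F[X]), J.ip U (C a * W) = a * J.ip U W) ∧
    (∀ i j : ℕ, J.ip (X ^ i) (X ^ j) = J.u i j) ∧
    (J.ip (X : F[X]) X = J.u 1 1) ∧
    (∀ n : ℕ, J.ip (X : F[X]) (X ^ n) = J.u 1 n) ∧
    (∀ n : ℕ, J.ip (X ^ n : F[X]) X = J.u n 1) ∧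
    (J.ip (1 : F[X]) 1 = J.u 0 0) ∧
    (J.ip (1 : F[X]) X = J.u 0 1) ∧
    (J.ip (X : F[X]) 1 = J.u 1 0) ∧
    (∀ n : ℕ, J.ip (1 : F[X]) (X ^ n) = J.u 0 n) ∧
    (∀ n : ℕ, J.ip (X ^ n : F[X]) 1 = J.u n 0) ∧
    (∀ (U : F[X]) (a : F), J.ip U (C a) = a * J.ip U 1) ∧
    (∀ (U : F[X]) (a : F), J.ip (C a) U = a * J.ip 1 U) ∧
    (∀ W : F[X], J.ip 0 W = 0) ∧
    (∀ W : F[X], J.ip W 0 = 0) ∧
    (J.u 1 0 = J.u 0 1) ∧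
    (J.u 2 0 = J.u 0 2) ∧
    (J.u 2 1 = J.u 1 2) ∧
    (J.u 3 0 = J.u 0 3) ∧
    (J.u 3 1 = J.u 1 3) ∧
    (J.u 3 2 = J.u 2 3) ∧
    (J.u 4 0 = J.u 0 4) ∧
    (J.u 4 1 = J.u 1 4) ∧
    (J.u 4 2 = J.u 2 4) ∧
    (J.u 4 3 = J.u 3 4) ∧
    (J.u 5 0 = J.u 0 5) ∧
    (J.u 5 1 = J.u 1 5) ∧
    (J.u 5 2 = J.u 2 5) ∧
    (J.u 5 3 = J.u 3 5) ∧
    (J.u 5 4 = J.u 4 5) ∧
    (J.u 6 0 = J.u 0 6) ∧
    (J.u 6 1 = J.u 1 6) ∧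
    (J.u 6 2 = J.u 2 6) ∧
    (J.u 6 3 = J.u 3 6) ∧
    (J.u 6 4 = J.u 4 6) ∧
    (J.u 6 5 = J.u 5 6) ∧
    (J.u 7 0 = J.u 0 7) ∧
    (J.u 7 1 = J.u 1 7) ∧
    (J.u 7 2 = J.u 2 7) ∧
    (J.u 7 3 = J.u 3 7) ∧
    (J.u 7 4 = J.u 4 7) ∧
    (J.u 7 5 = J.u 5 7) ∧
    (J.u 7 6 = J.u 6 7) ∧
    (J.u 8 0 = J.u 0 8) ∧
    (J.u 8 1 = J.u 1 8) ∧
    (J.u 8 2 = J.u 2 8) ∧
    (J.u 8 3 = J.u 3 8) ∧
    (J.u 8 4 = J.u 4 8) ∧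
    (J.u 8 5 = J.u 5 8) ∧
    (J.u 8 6 = J.u 6 8) ∧
    (J.u 8 7 = J.u 7 8) ∧
    (J.u 9 0 = J.u 0 9) ∧
    (J.u 9 1 = J.u 1 9) ∧
    (J.u 9 2 = J.u 2 9) ∧
    (J.u 9 3 = J.u 3 9) ∧
    (J.u 9 4 = J.u 4 9) ∧
    (J.u 9 5 = J.u 5 9) ∧
    (J.u 9 6 = J.u 6 9) ∧
    (J.u 9 7 = J.u 7 9) ∧
    (J.u 9 8 = J.u 8 9) :=
  ⟨J.ip_add_left, J.ip_add_right, J.ip_sub_left, J.ip_sub_right, J.ip_C_mul_left, J.ip_C_mul_right, J.ip_X_pow, J.ip_X_X, J.ip_X_powX, J.ip_powX_X, J.ip_1_1, J.ip_1_X, J.ip_X_1, J.ip_1_powX, J.ip_powX_1, J.ip_C_right, J.ip_C_left, J.ip_zero_left, J.ip_zero_right, J.u_1_0, J.u_2_0, J.u_2_1, J.u_3_0, J.u_3_1, J.u_3_2, J.u_4_0, J.u_4_1, J.u_4_2, J.u_4_3, J.u_5_0, J.u_5_1, J.u_5_2, J.u_5_3, J.u_5_4, J.u_6_0, J.u_6_1, J.u_6_2, J.u_6_3, J.u_6_4, J.u_6_5, J.u_7_0, J.u_7_1, J.u_7_2, J.u_7_3, J.u_7_4, J.u_7_5,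 J.u_7_6, J.u_8_0, J.u_8_1, J.u_8_2, J.u_8_3, J.u_8_4, J.u_8_5, J.u_8_6, J.u_8_7, J.u_9_0, J.u_9_1, J.u_9_2, J.u_9_3, J.u_9_4, J.u_9_5, J.u_9_6, J.u_9_7, J.u_9_8⟩

end Jet

namespace Jet

variable (J : Jet F)

theorem evo_u_00 (f : F) : J.evo (K3 f) (J.u 0 0) = 2 * (J.u 0 3 + f * J.u 0 1) := by
  rw [evo_u]
  simp only [iter_K3_0, iter_K3_1, iter_K3_2, iter_K3_3, iter_K3_4]
  simp only [J.unr, pow_zero]
  ring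

theorem evo_u_01 (f : F) : J.evo (K3 f) (J.u 0 1) = J.u 1 3 + f * J.u 1 1 + J.u 0 4 + f * J.u 0 2 + J.D f * J.u 0 1 := by
  rw [evo_u]
  simp only [iter_K3_0, iter_K3_1, iter_K3_2, iter_K3_3, iter_K3_4]
  simp only [J.unr, pow_zero]
  ring

theorem evo_u_11 (f : F) : J.evo (K3 f) (J.u 1 1) = 2 * (J.u 1 4 + f * J.u 1 2 + J.D f * J.u 1 1) := by
  rw [evo_u]
  simp only [iter_K3_0, iter_K3_1, iter_K3_2, iter_K3_3, iter_K3_4]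
  simp only [J.unr, pow_zero]
  ring

theorem evo_u_02 (f : F) : J.evo (K3 f) (J.u 0 2) = J.u 2 3 + f * J.u 1 2 + J.u 0 5 + f * J.u 0 3 + 2 * J.D f * J.u 0 2 + J.D (J.D f) * J.u 0 1 := by
  rw [evo_u]
  simp only [iter_K3_0, iter_K3_1, iter_K3_2, iter_K3_3, iter_K3_4]
  simp only [J.unr, pow_zero]
  ring

theorem evo_u_12 (f : F) : J.evo (K3 f) (J.u 1 2) = J.u 2 4 + f * J.u 2 2 + J.D f * J.u 1 2 + J.u 1 5 + f * J.u 1 3 + 2 * J.D f * J.u 1 2 + J.D (J.D f) * J.u 1 1 := by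
  rw [evo_u]
  simp only [iter_K3_0, iter_K3_1, iter_K3_2, iter_K3_3, iter_K3_4]
  simp only [J.unr, pow_zero]
  ring

theorem evo_u_22 (f : F) : J.evo (K3 f) (J.u 2 2) = 2 * (J.u 2 5 + f * J.u 2 3 + 2 * J.D f * J.u 2 2 + J.D (J.D f) * J.u 1 2) := by
  rw [evo_u]
  simp only [iter_K3_0, iter_K3_1, iter_K3_2, iter_K3_3, iter_K3_4]
  simp only [J.unr, pow_zero]
  ring

theorem evo_u_03 (f : F) : J.evo (K3 f) (J.u 0 3) = J.u 3 3 + f * J.u 1 3 + J.u 0 6 + f * J.u 0 4 + 3 * J.D f * J.u 0 3 + 3 * J.D (J.D f) * J.u 0 2 + J.D (J.D (J.D f)) * J.u 0 1 := by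
  rw [evo_u]
  simp only [iter_K3_0, iter_K3_1, iter_K3_2, iter_K3_3, iter_K3_4]
  simp only [J.unr, pow_zero]
  ring

theorem evo_u_13 (f : F) : J.evo (K3 f) (J.u 1 3) = J.u 3 4 + f * J.u 2 3 + J.D f * J.u 1 3 + J.u 1 6 + f * J.u 1 4 + 3 * J.D f * J.u 1 3 + 3 * J.D (J.D f) * J.u 1 2 + J.D (J.D (J.D f)) * J.u 1 1 := by
  rw [evo_u]
  simp only [iter_K3_0, iter_K3_1, iter_K3_2, iter_K3_3, iter_K3_4]
  simp only [J.unr, pow_zero]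
  ring

theorem evo_u_23 (f : F) : J.evo (K3 f) (J.u 2 3) = J.u 3 5 + f * J.u 3 3 + 2 * J.D f * J.u 2 3 + J.D (J.D f) * J.u 1 3 + J.u 2 6 + f * J.u 2 4 + 3 * J.D f * J.u 2 3 + 3 * J.D (J.D f) * J.u 2 2 + J.D (J.D (J.D f)) * J.u 1 2 := by
  rw [evo_u]
  simp only [iter_K3_0, iter_K3_1, iter_K3_2, iter_K3_3, iter_K3_4]
  simp only [J.unr, pow_zero]
  ring

theorem evo_u_33 (f : F) : J.evo (K3 f) (J.u 3 3) = 2 * (J.u 3 6 + f * J.u 3 4 + 3 * J.D f * J.u 3 3 + 3 * J.D (J.D f) * J.u 2 3 + J.D (J.D (J.D f)) * J.u 1 3) := by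
  rw [evo_u]
  simp only [iter_K3_0, iter_K3_1, iter_K3_2, iter_K3_3, iter_K3_4]
  simp only [J.unr, pow_zero]
  ring

theorem evo_u_04 (f : F) : J.evo (K3 f) (J.u 0 4) = J.u 3 4 + f * J.u 1 4 + J.u 0 7 + f * J.u 0 5 + 4 * J.D f * J.u 0 4 + 6 * J.D (J.D f) * J.u 0 3 + 4 * J.D (J.D (J.D f)) * J.u 0 2 + J.D (J.D (J.D (J.D f))) * J.u 0 1 := by
  rw [evo_u]
  simp only [iter_K3_0, iter_K3_1, iter_K3_2, iter_K3_3, iter_K3_4]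
  simp only [J.unr, pow_zero]
  ring

theorem evo_u_14 (f : F) : J.evo (K3 f) (J.u 1 4) = J.u 4 4 + f * J.u 2 4 + J.D f * J.u 1 4 + J.u 1 7 + f * J.u 1 5 + 4 * J.D f * J.u 1 4 + 6 * J.D (J.D f) * J.u 1 3 + 4 * J.D (J.D (J.D f)) * J.u 1 2 + J.D (J.D (J.D (J.D f))) * J.u 1 1 := by
  rw [evo_u]
  simp only [iter_K3_0, iter_K3_1, iter_K3_2, iter_K3_3, iter_K3_4]
  simp only [J.unr, pow_zero]
  ring

end Jet

end Pool.Agent.Lib.MP_4d1bc1_mp.Kv
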