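import Pool.Agent.Lib.MP_4d1bc1_mp.Kv.Calc3

set_option autoImplicit false
set_option linter.unusedSimpArgs false

/-! Coefficients of the equation for the variational derivative. -/

namespace Pool.Agent.Lib.MP_4d1bc1_mp.Kv

open Finset Polynomial

universe u

variable {F : Type u} [Field F] [Algebra ℝ F]

omit [Algebra ℝ F] in
theorem coeff9_0 (c0 c1 c2 c3 c4 c5 c6 c7 c8 : F) :
    (C c0 + C c1 * X + C c2 * X ^ 2 + C c3 * X ^ 3 + C c4 * X ^ 4 + C c5 * X ^ 5 + C c6 * X ^ 6 + C c7 * X ^ 7 + C c8 * X ^ 8).coeff 0 = c0 := by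
  simp [coeff_X, coeff_C]

omit [Algebra ℝ F] in
theorem coeff9_1 (c0 c1 c2 c3 c4 c5 c6 c7 c8 : F) :
    (C c0 + C c1 * X + C c2 * X ^ 2 + C c3 * X ^ 3 + C c4 * X ^ 4 + C c5 * X ^ 5 + C c6 * X ^ 6 + C c7 * X ^ 7 + C c8 * X ^ 8).coeff 1 = c1 := by
  simp [coeff_X, coeff_C]

omit [Algebra ℝ F] in
theorem coeff9_2 (c0 c1 c2 c3 c4 c5 c6 c7 c8 : F) :
    (C c0 + C c1 * X + C c2 * X ^ 2 + C c3 * X ^ 3 + C c4 * X ^ 4 + C c5 * X ^ 5 + C c6 * X ^ 6 + C c7 * X ^ 7 + C c8 * X ^ 8).coeff 2 = c2 := by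
  simp [coeff_X, coeff_C]

omit [Algebra ℝ F] in
theorem coeff9_3 (c0 c1 c2 c3 c4 c5 c6 c7 c8 : F) :
    (C c0 + C c1 * X + C c2 * X ^ 2 + C c3 * X ^ 3 + C c4 * X ^ 4 + C c5 * X ^ 5 + C c6 * X ^ 6 + C c7 * X ^ 7 + C c8 * X ^ 8).coeff 3 = c3 := by
  simp [coeff_X, coeff_C]

omit [Algebra ℝ F] in
theorem coeff9_4 (c0 c1 c2 c3 c4 c5 c6 c7 c8 : F) :
    (C c0 + C c1 * X + C c2 * X ^ 2 + C c3 * X ^ 3 + C c4 * X ^ 4 + C c5 * X ^ 5 + C c6 * X ^ 6 + C c7 * X ^ 7 + C c8 * X ^ 8).coeff 4 = c4 := by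
  simp [coeff_X, coeff_C]

omit [Algebra ℝ F] in
theorem coeff9_5 (c0 c1 c2 c3 c4 c5 c6 c7 c8 : F) :
    (C c0 + C c1 * X + C c2 * X ^ 2 + C c3 * X ^ 3 + C c4 * X ^ 4 + C c5 * X ^ 5 + C c6 * X ^ 6 + C c7 * X ^ 7 + C c8 * X ^ 8).coeff 5 = c5 := by
  simp [coeff_X, coeff_C]

omit [Algebra ℝ F] in
theorem coeff9_6 (c0 c1 c2 c3 c4 c5 c6 c7 c8 : F) :
    (C c0 + C c1 * X + C c2 * X ^ 2 + C c3 * X ^ 3 + C c4 * X ^ 4 + C c5 * X ^ 5 + C c6 * X ^ 6 + C c7 * X ^ 7 + C c8 * X ^ 8).coeff 6 = c6 := by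
  simp [coeff_X, coeff_C]

omit [Algebra ℝ F] in
theorem coeff9_7 (c0 c1 c2 c3 c4 c5 c6 c7 c8 : F) :
    (C c0 + C c1 * X + C c2 * X ^ 2 + C c3 * X ^ 3 + C c4 * X ^ 4 + C c5 * X ^ 5 + C c6 * X ^ 6 + C c7 * X ^ 7 + C c8 * X ^ 8).coeff 7 = c7 := by
  simp [coeff_X, coeff_C]

omit [Algebra ℝ F] in
theorem coeff9_8 (c0 c1 c2 c3 c4 c5 c6 c7 c8 : F) :
    (C c0 + C c1 * X + C c2 * X ^ 2 + C c3 * X ^ 3 + C c4 * X ^ 4 + C c5 * X ^ 5 + C c6 * X ^ 6 + C c7 * X ^ 7 + C c8 * X ^ 8).coeff 8 = c8 := by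
  simp [coeff_X, coeff_C]

omit [Algebra ℝ F] in
theorem eq_expand {b : F[X]} (hb : ∀ i, 6 < i → b.coeff i = 0) : b = C (b.coeff 0) + C (b.coeff 1) * X + C (b.coeff 2) * X ^ 2 + C (b.coeff 3) * X ^ 3 + C (b.coeff 4) * X ^ 4 + C (b.coeff 5) * X ^ 5 + C (b.coeff 6) * X ^ 6 := by
  have h : b.natDegree < 7 := by
    rw [Nat.lt_succ_iff]
    exact natDegree_le_iff_coeff_eq_zero.2 hb
  conv_lhs => rw [b.as_sum_range_C_mul_X_pow' h]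
  simp only [sum_range_succ, sum_range_zero, pow_zero, pow_one, mul_one, zero_add]

namespace Jet

variable (J : Jet F)

theorem coeff_cosL_0 (f : F) {b : F[X]} (hb : ∀ i, 6 < i → b.coeff i = 0) :
    (J.cosL f b).coeff 0 = J.evo (K3 f) (b.coeff 0) - J.D (J.D (J.D ((b.coeff 0)))) - J.D (f * (b.coeff 0))
      + (J.Ef f (J.ip b X)).coeff 0 := by
  have h := J.cos_expand f (b.coeff 0) (b.coeff 1) (b.coeff 2) (b.coeff 3) (b.coeff 4)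
    (b.coeff 5) (b.coeff 6)
  rw [← eq_expand hb] at h
  rw [cosL, coeff_add, h, coeff9_0]

theorem coeff_cosL_1 (f : F) {b : F[X]} (hb : ∀ i, 6 < i → b.coeff i = 0) :
    (J.cosL f b).coeff 1 = J.evo (K3 f) (b.coeff 1) - J.D (J.D (J.D ((b.coeff 1)))) - J.D (f * (b.coeff 1)) - 3 * J.D (J.D ((b.coeff 0))) + 1 * ((b.coeff 1) * J.D f) + 1 * ((b.coeff 2) * J.D (J.D f)) + 1 * ((b.coeff 3) * J.D (J.D (J.D f))) + 1 * ((b.coeff 4) * J.D (J.D (J.D (J.D f)))) + 1 * ((b.coeff 5) * J.D (J.D (J.D (J.D (J.D f))))) + 1 * ((b.coeff 6) * J.D (J.D (J.D (J.D (J.D (J.D f))))))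
      + (J.Ef f (J.ip b X)).coeff 1 := by
  have h := J.cos_expand f (b.coeff 0) (b.coeff 1) (b.coeff 2) (b.coeff 3) (b.coeff 4)
    (b.coeff 5) (b.coeff 6)
  rw [← eq_expand hb] at h
  rw [cosL, coeff_add, h, coeff9_1]

theorem coeff_cosL_2 (f : F) {b : F[X]} (hb : ∀ i, 6 < i → b.coeff i = 0) :
    (J.cosL f b).coeff 2 = J.evo (K3 f) (b.coeff 2) - J.D (J.D (J.D ((b.coeff 2)))) - J.D (f * (b.coeff 2)) - 3 * J.D (J.D ((b.coeff 1))) - 3 * J.D ((b.coeff 0)) + 2 * ((b.coeff 2) * J.D f) + 3 * ((b.coeff 3) * J.D (J.D f)) + 4 * ((b.coeff 4) * J.D (J.D (J.D f))) + 5 * ((b.coeff 5) * J.D (J.D (J.D (J.D f)))) + 6 * ((b.coeff 6) * J.D (J.D (J.D (J.D (J.D f)))))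
      + (J.Ef f (J.ip b X)).coeff 2 := by
  have h := J.cos_expand f (b.coeff 0) (b.coeff 1) (b.coeff 2) (b.coeff 3) (b.coeff 4)
    (b.coeff 5) (b.coeff 6)
  rw [← eq_expand hb] at h
  rw [cosL, coeff_add, h, coeff9_2]

theorem coeff_cosL_3 (f : F) {b : F[X]} (hb : ∀ i, 6 < i → b.coeff i = 0) :
    (J.cosL f b).coeff 3 = J.evo (K3 f) (b.coeff 3) - J.D (J.D (J.D ((b.coeff 3)))) - J.D (f * (b.coeff 3)) - 3 * J.D (J.D ((b.coeff 2))) - 3 * J.D ((b.coeff 1)) + 3 * ((b.coeff 3) * J.D f) + 6 * ((b.coeff 4) * J.D (J.D f)) + 10 * ((b.coeff 5) * J.D (J.D (J.D f))) + 15 * ((b.coeff 6) * J.D (J.D (J.D (J.D f))))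
      + (J.Ef f (J.ip b X)).coeff 3 := by
  have h := J.cos_expand f (b.coeff 0) (b.coeff 1) (b.coeff 2) (b.coeff 3) (b.coeff 4)
    (b.coeff 5) (b.coeff 6)
  rw [← eq_expand hb] at h
  rw [cosL, coeff_add, h, coeff9_3]

theorem coeff_cosL_4 (f : F) {b : F[X]} (hb : ∀ i, 6 < i → b.coeff i = 0) :
    (J.cosL f b).coeff 4 = J.evo (K3 f) (b.coeff 4) - J.D (J.D (J.D ((b.coeff 4)))) - J.D (f * (b.coeff 4)) - 3 * J.D (J.D ((b.coeff 3))) - 3 * J.D ((b.coeff 2)) + 4 * ((b.coeff 4) * J.D f) + 10 * ((b.coeff 5) * J.D (J.D f)) + 20 * ((b.coeff 6) * J.D (J.D (J.D f)))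
      + (J.Ef f (J.ip b X)).coeff 4 := by
  have h := J.cos_expand f (b.coeff 0) (b.coeff 1) (b.coeff 2) (b.coeff 3) (b.coeff 4)
    (b.coeff 5) (b.coeff 6)
  rw [← eq_expand hb] at h
  rw [cosL, coeff_add, h, coeff9_4]

theorem coeff_cosL_5 (f : F) {b : F[X]} (hb : ∀ i, 6 < i → b.coeff i = 0) :
    (J.cosL f b).coeff 5 = J.evo (K3 f) (b.coeff 5) - J.D (J.D (J.D ((b.coeff 5)))) - J.D (f * (b.coeff 5)) - 3 * J.D (J.D ((b.coeff 4))) - 3 * J.D ((b.coeff 3)) + 5 * ((b.coeff 5) * J.D f) + 15 * ((b.coeff 6) * J.D (J.D f))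
      + (J.Ef f (J.ip b X)).coeff 5 := by
  have h := J.cos_expand f (b.coeff 0) (b.coeff 1) (b.coeff 2) (b.coeff 3) (b.coeff 4)
    (b.coeff 5) (b.coeff 6)
  rw [← eq_expand hb] at h
  rw [cosL, coeff_add, h, coeff9_5]

theorem coeff_cosL_6 (f : F) {b : F[X]} (hb : ∀ i, 6 < i → b.coeff i = 0) :
    (J.cosL f b).coeff 6 = J.evo (K3 f) (b.coeff 6) - J.D (J.D (J.D ((b.coeff 6)))) - J.D (f * (b.coeff 6)) - 3 * J.D (J.D ((b.coeff 5))) - 3 * J.D ((b.coeff 4)) + 6 * ((b.coeff 6) * J.D f)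
      + (J.Ef f (J.ip b X)).coeff 6 := by
  have h := J.cos_expand f (b.coeff 0) (b.coeff 1) (b.coeff 2) (b.coeff 3) (b.coeff 4)
    (b.coeff 5) (b.coeff 6)
  rw [← eq_expand hb] at h
  rw [cosL, coeff_add, h, coeff9_6]

theorem coeff_cosL_7 (f : F) {b : F[X]} (hb : ∀ i, 6 < i → b.coeff i = 0) :
    (J.cosL f b).coeff 7 = -3 * J.D (J.D ((b.coeff 6))) - 3 * J.D ((b.coeff 5))
      + (J.Ef f (J.ip b X)).coeff 7 := by
  have h := J.cos_expand f (b.coeff 0) (b.coeff 1) (b.coeff 2) (b.coeff 3) (b.coeff 4)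
    (b.coeff 5) (b.coeff 6)
  rw [← eq_expand hb] at h
  rw [cosL, coeff_add, h, coeff9_7]

theorem coeff_cosL_8 (f : F) {b : F[X]} (hb : ∀ i, 6 < i → b.coeff i = 0) :
    (J.cosL f b).coeff 8 = -3 * J.D ((b.coeff 6))
      + (J.Ef f (J.ip b X)).coeff 8 := by
  have h := J.cos_expand f (b.coeff 0) (b.coeff 1) (b.coeff 2) (b.coeff 3) (b.coeff 4)
    (b.coeff 5) (b.coeff 6)
  rw [← eq_expand hb] at h
  rw [cosL, coeff_add, h, coeff9_8]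

theorem coeff_Ef (f g : F) (k : ℕ) : (J.Ef f g).coeff k
    = g * (J.v0 f).coeff k + J.D g * (J.v1 f).coeff k + J.D (J.D g) * (J.v2 f).coeff k := by
  rw [Ef, coeff_add, coeff_add, coeff_C_mul, coeff_C_mul, coeff_C_mul]

end Jet

end Pool.Agent.Lib.MP_4d1bc1_mp.Kv
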