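import Pool.Agent.Lib.MP_4d1bc1_mp.Kv.DensF

set_option autoImplicit false
set_option linter.unusedSimpArgs false

/-! Coefficients of the variational derivative of the potential. -/

namespace Pool.Agent.Lib.MP_4d1bc1_mp.Kv

open Finset Polynomial

universe u

variable {F : Type u} [Field F] [Algebra ℝ F]

namespace Jet

variable (J : Jet F)

theorem coeff_DM_one (b : F[X]) : (J.DM b).coeff 1 = J.D (b.coeff 1) + b.coeff 0 :=
  J.coeff_DM_succ b 0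

theorem coeff_DM2_0 (b0 : F[X]) : (J.DM (J.DM b0)).coeff 0 = J.D (J.D ((b0.coeff 0))) := by
  rw [coeff_DM_zero, coeff_DM_zero]

theorem coeff_DM2_1 (b0 : F[X]) : (J.DM (J.DM b0)).coeff 1 = J.D (J.D ((b0.coeff 1))) + 2 * J.D ((b0.coeff 0)) := by
  rw [coeff_DM_succ, coeff_DM_succ, coeff_DM_zero, map_add]
  ring

theorem coeff_DM2_2 (b0 : F[X]) : (J.DM (J.DM b0)).coeff 2 = J.D (J.D ((b0.coeff 2))) + 2 * J.D ((b0.coeff 1)) + (b0.coeff 0) := by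
  rw [coeff_DM_succ, coeff_DM_succ, coeff_DM_succ, map_add]
  ring

theorem coeff_DM2_3 (b0 : F[X]) : (J.DM (J.DM b0)).coeff 3 = J.D (J.D ((b0.coeff 3))) + 2 * J.D ((b0.coeff 2)) + (b0.coeff 1) := by
  rw [coeff_DM_succ, coeff_DM_succ, coeff_DM_succ, map_add]
  ring

theorem coeff_DM2_4 (b0 : F[X]) : (J.DM (J.DM b0)).coeff 4 = J.D (J.D ((b0.coeff 4))) + 2 * J.D ((b0.coeff 3)) + (b0.coeff 2) := by
  rw [coeff_DM_succ, coeff_DM_succ, coeff_DM_succ, map_add]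
  ring

theorem coeff_DM2_5 (b0 : F[X]) : (J.DM (J.DM b0)).coeff 5 = J.D (J.D ((b0.coeff 5))) + 2 * J.D ((b0.coeff 4)) + (b0.coeff 3) := by
  rw [coeff_DM_succ, coeff_DM_succ, coeff_DM_succ, map_add]
  ring

theorem coeff_DM2_6 (b0 : F[X]) : (J.DM (J.DM b0)).coeff 6 = J.D (J.D ((b0.coeff 6))) + 2 * J.D ((b0.coeff 5)) + (b0.coeff 4) := by
  rw [coeff_DM_succ, coeff_DM_succ, coeff_DM_succ, map_add]
  ring

theorem coeff_DM2_7 (b0 : F[X]) : (J.DM (J.DM b0)).coeff 7 = J.D (J.D ((b0.coeff 7))) + 2 * J.D ((b0.coeff 6)) + (b0.coeff 5) := by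
  rw [coeff_DM_succ, coeff_DM_succ, coeff_DM_succ, map_add]
  ring

theorem coeff_DM2_8 (b0 : F[X]) : (J.DM (J.DM b0)).coeff 8 = J.D (J.D ((b0.coeff 8))) + 2 * J.D ((b0.coeff 7)) + (b0.coeff 6) := by
  rw [coeff_DM_succ, coeff_DM_succ, coeff_DM_succ, map_add]
  ring

theorem coeff_cosL1_0 (f : F) {b0 b1 : F[X]} (hb1 : ∀ i, 6 < i → b1.coeff i = 0) :
    (J.cosL1 f b0 b1).coeff 0 = J.evo (K3 f) (b1.coeff 0) - J.D (J.D (J.D ((b1.coeff 0)))) - J.D (f * (b1.coeff 0))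
      - 3 * (J.DM (J.DM b0)).coeff 0 - f * b0.coeff 0 + J.ip b1 X * (J.v0 f).coeff 0
      + (J.ip b0 X + J.D (J.ip b1 X)) * (J.v1 f).coeff 0
      + (2 * J.D (J.ip b0 X) + J.D (J.D (J.ip b1 X))) * (J.v2 f).coeff 0 := by
  have h := J.cos_expand f (b1.coeff 0) (b1.coeff 1) (b1.coeff 2) (b1.coeff 3) (b1.coeff 4)
    (b1.coeff 5) (b1.coeff 6)
  rw [← eq_expand hb1] at h
  have h2 := congrArg (fun U : F[X] => U.coeff 0) h
  simp only [coeff9_0, coeff_sub] at h2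
  have h3 : (3 * J.DM (J.DM b0)).coeff 0 = 3 * (J.DM (J.DM b0)).coeff 0 := by
    rw [← map_ofNat (C : F →+* F[X]) 3, coeff_C_mul]
  rw [cosL1, coeff_add, coeff_add, coeff_add, coeff_sub, coeff_sub, coeff_sub, coeff_sub,
    coeff_C_mul, coeff_C_mul, coeff_C_mul, coeff_C_mul, h3]
  linear_combination h2

theorem coeff_cosL1_1 (f : F) {b0 b1 : F[X]} (hb1 : ∀ i, 6 < i → b1.coeff i = 0) :
    (J.cosL1 f b0 b1).coeff 1 = J.evo (K3 f) (b1.coeff 1) - J.D (J.D (J.D ((b1.coeff 1)))) - J.D (f * (b1.coeff 1)) - 3 * J.D (J.D ((b1.coeff 0))) + 1 * ((b1.coeff 1) * J.D f) + 1 * ((b1.coeff 2) * J.D (J.D f)) + 1 * ((b1.coeff 3) * J.D (J.D (J.D f))) + 1 * ((b1.coeff 4) * J.D (J.D (J.D (J.D f)))) + 1 * ((b1.coeff 5) * J.D (J.D (J.D (J.D (J.D f))))) + 1 * ((b1.coeff 6) * J.D (J.D (J.D (J.D (J.D (J.D f))))))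
      - 3 * (J.DM (J.DM b0)).coeff 1 - f * b0.coeff 1 + J.ip b1 X * (J.v0 f).coeff 1
      + (J.ip b0 X + J.D (J.ip b1 X)) * (J.v1 f).coeff 1
      + (2 * J.D (J.ip b0 X) + J.D (J.D (J.ip b1 X))) * (J.v2 f).coeff 1 := by
  have h := J.cos_expand f (b1.coeff 0) (b1.coeff 1) (b1.coeff 2) (b1.coeff 3) (b1.coeff 4)
    (b1.coeff 5) (b1.coeff 6)
  rw [← eq_expand hb1] at h
  have h2 := congrArg (fun U : F[X] => U.coeff 1) h
  simp only [coeff9_1, coeff_sub] at h2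
  have h3 : (3 * J.DM (J.DM b0)).coeff 1 = 3 * (J.DM (J.DM b0)).coeff 1 := by
    rw [← map_ofNat (C : F →+* F[X]) 3, coeff_C_mul]
  rw [cosL1, coeff_add, coeff_add, coeff_add, coeff_sub, coeff_sub, coeff_sub, coeff_sub,
    coeff_C_mul, coeff_C_mul, coeff_C_mul, coeff_C_mul, h3]
  linear_combination h2

theorem coeff_cosL1_2 (f : F) {b0 b1 : F[X]} (hb1 : ∀ i, 6 < i → b1.coeff i = 0) :
    (J.cosL1 f b0 b1).coeff 2 = J.evo (K3 f) (b1.coeff 2) - J.D (J.D (J.D ((b1.coeff 2)))) - J.D (f * (b1.coeff 2)) - 3 * J.D (J.D ((b1.coeff 1))) - 3 * J.D ((b1.coeff 0)) + 2 * ((b1.coeff 2) * J.D f) + 3 * ((b1.coeff 3) * J.D (J.D f)) + 4 * ((b1.coeff 4) * J.D (J.D (J.D f))) + 5 * ((b1.coeff 5) * J.D (J.D (J.D (J.D f)))) + 6 * ((b1.coeff 6) * J.D (J.D (J.D (J.D (J.D f)))))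
      - 3 * (J.DM (J.DM b0)).coeff 2 - f * b0.coeff 2 + J.ip b1 X * (J.v0 f).coeff 2
      + (J.ip b0 X + J.D (J.ip b1 X)) * (J.v1 f).coeff 2
      + (2 * J.D (J.ip b0 X) + J.D (J.D (J.ip b1 X))) * (J.v2 f).coeff 2 := by
  have h := J.cos_expand f (b1.coeff 0) (b1.coeff 1) (b1.coeff 2) (b1.coeff 3) (b1.coeff 4)
    (b1.coeff 5) (b1.coeff 6)
  rw [← eq_expand hb1] at h
  have h2 := congrArg (fun U : F[X] => U.coeff 2) h
  simp only [coeff9_2, coeff_sub] at h2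
  have h3 : (3 * J.DM (J.DM b0)).coeff 2 = 3 * (J.DM (J.DM b0)).coeff 2 := by
    rw [← map_ofNat (C : F →+* F[X]) 3, coeff_C_mul]
  rw [cosL1, coeff_add, coeff_add, coeff_add, coeff_sub, coeff_sub, coeff_sub, coeff_sub,
    coeff_C_mul, coeff_C_mul, coeff_C_mul, coeff_C_mul, h3]
  linear_combination h2

theorem coeff_cosL1_3 (f : F) {b0 b1 : F[X]} (hb1 : ∀ i, 6 < i → b1.coeff i = 0) :
    (J.cosL1 f b0 b1).coeff 3 = J.evo (K3 f) (b1.coeff 3) - J.D (J.D (J.D ((b1.coeff 3)))) - J.D (f * (b1.coeff 3)) - 3 * J.D (J.D ((b1.coeff 2))) - 3 * J.D ((b1.coeff 1)) + 3 * ((b1.coeff 3) * J.D f) + 6 * ((b1.coeff 4) * J.D (J.D f)) + 10 * ((b1.coeff 5) * J.D (J.D (J.D f))) + 15 * ((b1.coeff 6) * J.D (J.D (J.D (J.D f))))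
      - 3 * (J.DM (J.DM b0)).coeff 3 - f * b0.coeff 3 + J.ip b1 X * (J.v0 f).coeff 3
      + (J.ip b0 X + J.D (J.ip b1 X)) * (J.v1 f).coeff 3
      + (2 * J.D (J.ip b0 X) + J.D (J.D (J.ip b1 X))) * (J.v2 f).coeff 3 := by
  have h := J.cos_expand f (b1.coeff 0) (b1.coeff 1) (b1.coeff 2) (b1.coeff 3) (b1.coeff 4)
    (b1.coeff 5) (b1.coeff 6)
  rw [← eq_expand hb1] at h
  have h2 := congrArg (fun U : F[X] => U.coeff 3) h
  simp only [coeff9_3, coeff_sub] at h2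
  have h3 : (3 * J.DM (J.DM b0)).coeff 3 = 3 * (J.DM (J.DM b0)).coeff 3 := by
    rw [← map_ofNat (C : F →+* F[X]) 3, coeff_C_mul]
  rw [cosL1, coeff_add, coeff_add, coeff_add, coeff_sub, coeff_sub, coeff_sub, coeff_sub,
    coeff_C_mul, coeff_C_mul, coeff_C_mul, coeff_C_mul, h3]
  linear_combination h2

theorem coeff_cosL1_4 (f : F) {b0 b1 : F[X]} (hb1 : ∀ i, 6 < i → b1.coeff i = 0) :
    (J.cosL1 f b0 b1).coeff 4 = J.evo (K3 f) (b1.coeff 4) - J.D (J.D (J.D ((b1.coeff 4)))) - J.D (f * (b1.coeff 4)) - 3 * J.D (J.D ((b1.coeff 3))) - 3 * J.D ((b1.coeff 2)) + 4 * ((b1.coeff 4) * J.D f) + 10 * ((b1.coeff 5) * J.D (J.D f)) + 20 * ((b1.coeff 6) * J.D (J.D (J.D f)))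
      - 3 * (J.DM (J.DM b0)).coeff 4 - f * b0.coeff 4 + J.ip b1 X * (J.v0 f).coeff 4
      + (J.ip b0 X + J.D (J.ip b1 X)) * (J.v1 f).coeff 4
      + (2 * J.D (J.ip b0 X) + J.D (J.D (J.ip b1 X))) * (J.v2 f).coeff 4 := by
  have h := J.cos_expand f (b1.coeff 0) (b1.coeff 1) (b1.coeff 2) (b1.coeff 3) (b1.coeff 4)
    (b1.coeff 5) (b1.coeff 6)
  rw [← eq_expand hb1] at h
  have h2 := congrArg (fun U : F[X] => U.coeff 4) h
  simp only [coeff9_4, coeff_sub] at h2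
  have h3 : (3 * J.DM (J.DM b0)).coeff 4 = 3 * (J.DM (J.DM b0)).coeff 4 := by
    rw [← map_ofNat (C : F →+* F[X]) 3, coeff_C_mul]
  rw [cosL1, coeff_add, coeff_add, coeff_add, coeff_sub, coeff_sub, coeff_sub, coeff_sub,
    coeff_C_mul, coeff_C_mul, coeff_C_mul, coeff_C_mul, h3]
  linear_combination h2

theorem coeff_cosL1_5 (f : F) {b0 b1 : F[X]} (hb1 : ∀ i, 6 < i → b1.coeff i = 0) :
    (J.cosL1 f b0 b1).coeff 5 = J.evo (K3 f) (b1.coeff 5) - J.D (J.D (J.D ((b1.coeff 5)))) - J.D (f * (b1.coeff 5)) - 3 * J.D (J.D ((b1.coeff 4))) - 3 * J.D ((b1.coeff 3)) + 5 * ((b1.coeff 5) * J.D f) + 15 * ((b1.coeff 6) * J.D (J.D f))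
      - 3 * (J.DM (J.DM b0)).coeff 5 - f * b0.coeff 5 + J.ip b1 X * (J.v0 f).coeff 5
      + (J.ip b0 X + J.D (J.ip b1 X)) * (J.v1 f).coeff 5
      + (2 * J.D (J.ip b0 X) + J.D (J.D (J.ip b1 X))) * (J.v2 f).coeff 5 := by
  have h := J.cos_expand f (b1.coeff 0) (b1.coeff 1) (b1.coeff 2) (b1.coeff 3) (b1.coeff 4)
    (b1.coeff 5) (b1.coeff 6)
  rw [← eq_expand hb1] at h
  have h2 := congrArg (fun U : F[X] => U.coeff 5) h
  simp only [coeff9_5, coeff_sub] at h2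
  have h3 : (3 * J.DM (J.DM b0)).coeff 5 = 3 * (J.DM (J.DM b0)).coeff 5 := by
    rw [← map_ofNat (C : F →+* F[X]) 3, coeff_C_mul]
  rw [cosL1, coeff_add, coeff_add, coeff_add, coeff_sub, coeff_sub, coeff_sub, coeff_sub,
    coeff_C_mul, coeff_C_mul, coeff_C_mul, coeff_C_mul, h3]
  linear_combination h2

theorem coeff_cosL1_6 (f : F) {b0 b1 : F[X]} (hb1 : ∀ i, 6 < i → b1.coeff i = 0) :
    (J.cosL1 f b0 b1).coeff 6 = J.evo (K3 f) (b1.coeff 6) - J.D (J.D (J.D ((b1.coeff 6)))) - J.D (f * (b1.coeff 6)) - 3 * J.D (J.D ((b1.coeff 5))) - 3 * J.D ((b1.coeff 4)) + 6 * ((b1.coeff 6) * J.D f)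
      - 3 * (J.DM (J.DM b0)).coeff 6 - f * b0.coeff 6 + J.ip b1 X * (J.v0 f).coeff 6
      + (J.ip b0 X + J.D (J.ip b1 X)) * (J.v1 f).coeff 6
      + (2 * J.D (J.ip b0 X) + J.D (J.D (J.ip b1 X))) * (J.v2 f).coeff 6 := by
  have h := J.cos_expand f (b1.coeff 0) (b1.coeff 1) (b1.coeff 2) (b1.coeff 3) (b1.coeff 4)
    (b1.coeff 5) (b1.coeff 6)
  rw [← eq_expand hb1] at h
  have h2 := congrArg (fun U : F[X] => U.coeff 6) h
  simp only [coeff9_6, coeff_sub] at h2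
  have h3 : (3 * J.DM (J.DM b0)).coeff 6 = 3 * (J.DM (J.DM b0)).coeff 6 := by
    rw [← map_ofNat (C : F →+* F[X]) 3, coeff_C_mul]
  rw [cosL1, coeff_add, coeff_add, coeff_add, coeff_sub, coeff_sub, coeff_sub, coeff_sub,
    coeff_C_mul, coeff_C_mul, coeff_C_mul, coeff_C_mul, h3]
  linear_combination h2

end Jet

end Pool.Agent.Lib.MP_4d1bc1_mp.Kv
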