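import Pool.Agent.Lib.MP_4d1bc1_mp.Kv.Main

set_option autoImplicit false
set_option linter.unusedSimpArgs false
set_option linter.unusedSectionVars false

/-! The list from one conservation law of high order. -/

namespace Pool.Agent.Lib.MP_4d1bc1_mp.Kv

open Finset Polynomial

universe u

variable {F : Type u} [Field F] [Algebra ℝ F] (J : Jet F)

open Jet (Dg)

/-- the coefficient of `X^(k+2)` -/
theorem coef_eq_hi {f : F} {G : F[X]} {k : ℕ}
    (h : (J.evoV (Jet.K3 f) G).coeff (k + 2)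
      = (J.DM (J.DM (J.DM G)) + C f * J.DM G).coeff (k + 2)) {m : ℕ}
    (hG : ∀ i, m < i → G.coeff i = 0) :
    J.evo (Jet.K3 f) (G.coeff (k + 2)) - J.D (J.D (J.D (G.coeff (k + 2))))
      - 3 * J.D (J.D (G.coeff (k + 1))) - 3 * J.D (G.coeff k) - f * J.D (G.coeff (k + 2))
      + ∑ i ∈ Ico (k + 2) (m + 1), ((i.choose (i - (k + 2) + 1) : ℕ) : F)
          * (G.coeff i * J.D^[i - (k + 2) + 1] f) = 0 := by
  rw [coef_evoV J hG k, coeff_add, coef_DM3, coeff_C_mul, show k + 2 = (k + 1) + 1 from rfl,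
    J.coeff_DM_succ] at h
  linear_combination h

/-- the relations counted from the top -/
theorem coef_top_hi {f : F} {G : F[X]}
    (h : ∀ k, 2 ≤ k → (J.evoV (Jet.K3 f) G).coeff (k + 2)
      = (J.DM (J.DM (J.DM G)) + C f * J.DM G).coeff (k + 2)) {m : ℕ}
    (hG : ∀ i, m < i → G.coeff i = 0) (hm : 10 ≤ m) :
    J.D (G.coeff m) = 0 ∧ J.D (G.coeff (m - 1)) + J.D (J.D (G.coeff m)) = 0 ∧
    ∀ s, s ≤ 6 → J.evo (Jet.K3 f) (G.coeff (m - s)) - J.D (J.D (J.D (G.coeff (m - s))))
      - 3 * J.D (J.D (G.coeff (m - (s + 1)))) - 3 * J.D (G.coeff (m - (s + 2)))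
      - f * J.D (G.coeff (m - s))
      + ∑ a ∈ range (s + 1), (((m - a).choose (s - a + 1) : ℕ) : F)
          * (G.coeff (m - a) * J.D^[s - a + 1] f) = 0 := by
  have hc := J.charZero
  refine ⟨?_, ?_, ?_⟩
  · have h1 := coef_eq_hi J (h m (by omega)) hG
    rw [hG (m + 2) (by omega), hG (m + 1) (by omega), Ico_eq_empty (by omega)] at h1
    simp only [map_zero, mul_zero, sum_empty, add_zero, sub_zero, zero_sub, neg_eq_zero,
      mul_eq_zero, OfNat.ofNat_ne_zero, false_or] at h1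
    exact h1
  · obtain ⟨n, rfl⟩ : ∃ n, m = n + 1 := ⟨m - 1, by omega⟩
    have h1 := coef_eq_hi J (h n (by omega)) hG
    rw [hG (n + 2) (by omega), Ico_eq_empty (by omega)] at h1
    simp only [map_zero, mul_zero, sum_empty, add_zero, sub_zero, zero_sub] at h1
    rw [Nat.add_sub_cancel]
    have h3 : (3 : F) ≠ 0 := by norm_num
    apply mul_left_cancel₀ h3
    linear_combination -h1
  · intro s hs
    obtain ⟨k, hk⟩ : ∃ k, m = k + 2 + s := ⟨m - s - 2, by omega⟩
    have h1 := coef_eq_hi J (h k (by omega)) hG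
    have e1 : m - s = k + 2 := by omega
    have e2 : m - (s + 1) = k + 1 := by omega
    have e3 : m - (s + 2) = k := by omega
    rw [e1, e2, e3]
    have e4 : ∑ a ∈ range (s + 1), (((m - a).choose (s - a + 1) : ℕ) : F)
          * (G.coeff (m - a) * J.D^[s - a + 1] f)
        = ∑ i ∈ Ico (k + 2) (m + 1), ((i.choose (i - (k + 2) + 1) : ℕ) : F)
          * (G.coeff i * J.D^[i - (k + 2) + 1] f) := by
      apply sum_bij' (fun a _ => m - a) (fun i _ => m - i)
      · intro a ha
        rw [mem_range] at ha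
        rw [mem_Ico]
        omega
      · intro i hi
        rw [mem_Ico] at hi
        rw [mem_range]
        omega
      · intro a ha
        rw [mem_range] at ha
        omega
      · intro i hi
        rw [mem_Ico] at hi
        omega
      · intro a ha
        rw [mem_range] at ha
        have e5 : m - a - (k + 2) = s - a := by omega
        rw [e5]
    rw [e4]
    exact h1

/-- the degree of a total derivative -/
theorem dg_of_DM {Y : F[X]} {n : ℕ} (h : Dg (J.DM Y) (n + 1)) : Dg Y n := by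
  intro i hi
  by_contra hne
  have h1 : i ≤ Y.natDegree := le_natDegree_of_ne_zero hne
  have h2 : Y.coeff Y.natDegree ≠ 0 := by
    intro h3
    have h4 : Y = 0 := leadingCoeff_eq_zero.1 h3
    rw [h4] at hne
    exact hne (coeff_zero i)
  have h5 := h (Y.natDegree + 1) (by omega)
  rw [J.coeff_DM_succ, coeff_eq_zero_of_natDegree_lt (Nat.lt_succ_self _), map_zero,
    zero_add] at h5
  exact h2 h5

theorem dg_DM {Y : F[X]} {n : ℕ} (h : Dg Y n) : Dg (J.DM Y) (n + 1) := (J.dg_iter h 1).1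

theorem dg_add {U V : F[X]} {n : ℕ} (hU : Dg U n) (hV : Dg V n) : Dg (U + V) n := by
  intro i hi
  rw [coeff_add, hU i hi, hV i hi, add_zero]

theorem dg_neg {U : F[X]} {n : ℕ} (hU : Dg U n) : Dg (-U) n := by
  intro i hi
  rw [coeff_neg, hU i hi, neg_zero]

theorem dg_C_mul {U : F[X]} {n : ℕ} (c : F) (hU : Dg U n) : Dg (C c * U) n := by
  intro i hi
  rw [coeff_C_mul, hU i hi, mul_zero]

theorem dg_C (c : F) (n : ℕ) : Dg (C c : F[X]) n := by
  intro i hi
  rw [coeff_C, if_neg (by omega)]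

/-- antiderivatives of vectors up to a multiple of `u` -/
theorem anti : ∀ (m : ℕ) (γ : F[X]), Dg γ (m + 1) →
    ∃ (G : F[X]) (r : F), γ = J.DM G + C r ∧ Dg G m ∧ G.coeff m = γ.coeff (m + 1) := by
  intro m
  induction m with
  | zero =>
    intro γ hγ
    refine ⟨C (γ.coeff 1), γ.coeff 0 - J.D (γ.coeff 1), ?_, dg_C _ _, ?_⟩
    · refine Polynomial.ext fun n => ?_
      rcases n with _ | _ | n
      · rw [coeff_add, J.coeff_DM_zero, coeff_C_zero, coeff_C_zero]; ring
      · rw [coeff_add, zero_add, J.coeff_DM_succ, coeff_C_zero, coeff_C, coeff_C]; simp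
      · rw [hγ _ (by omega), coeff_add, J.coeff_DM_succ, coeff_C, coeff_C, coeff_C]; simp
    · simp
  | succ m ih =>
    intro γ hγ
    obtain ⟨G, r, h1, h2, h3⟩ := ih (γ - J.DM (C (γ.coeff (m + 2)) * X ^ (m + 1))) (by
      intro i hi
      obtain ⟨j, rfl⟩ : ∃ j, i = j + 1 := ⟨i - 1, by omega⟩
      rw [coeff_sub, J.coeff_DM_succ, coeff_C_mul, coeff_C_mul, coeff_X_pow, coeff_X_pow,
        if_neg (by omega), mul_zero, map_zero, zero_add]
      by_cases h : j = m + 1
      · rw [if_pos h, h, mul_one, sub_self]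
      · rw [if_neg h, mul_zero, sub_zero]
        exact hγ _ (by omega))
    refine ⟨C (γ.coeff (m + 2)) * X ^ (m + 1) + G, r, ?_, ?_, ?_⟩
    · rw [map_add]
      linear_combination h1
    · intro i hi
      rw [coeff_add, coeff_C_mul, coeff_X_pow, if_neg (by omega), h2 i (by omega)]
      ring
    · rw [coeff_add, coeff_C_mul, coeff_X_pow, if_pos rfl, h2 (m + 1) (by omega)]
      ring

variable {J}

/-- the list from the canonical conserved densities -/
theorem list_of_can {f θ σ ψ : F} (hf : J.Six f)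
    (hT : J.evo (Jet.K3 f) f = J.D θ) (hS : J.evo (Jet.K3 f) θ = J.D σ)
    (hP : J.evo (Jet.K3 f) (σ + f * θ - f ^ 3 / 3 + J.D f ^ 2) = J.D ψ) : InList J f := by
  by_cases hr : J.pd 2 2 f = 0
  · exact Or.inl (zero_case hf hr hT hS hP)
  · exact Or.inr (nonzero_case hf hr hT hS)

theorem Six.dg_grad {f : F} (hf : J.Bd f 3) (k : ℕ) : Dg (J.grad k f) 2 := by
  intro i hi
  rw [J.coeff_grad]
  exact J.Gu_eq_zero_of_bd hf (Or.inl hi)

theorem dg_Ef {f : F} (hf : J.Bd f 3) (g : F) : Dg (J.Ef f g) 4 := by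
  have h0 := Six.dg_grad hf 0
  have h1 := Six.dg_grad hf 1
  have h2 := Six.dg_grad hf 2
  have h2' := dg_DM J h2
  have h2'' := dg_DM J h2'
  have h1' := dg_DM J h1
  intro i hi
  have e0 : (J.v0 f).coeff i = 0 := by
    rw [Jet.v0, coeff_add, coeff_sub, h0 i (by omega), h1' i (by omega), h2'' i (by omega)]
    ring
  have e1 : (J.v1 f).coeff i = 0 := by
    have : (2 : F[X]) = C 2 := (map_ofNat C 2).symm
    rw [Jet.v1, coeff_sub, this, coeff_C_mul, h2' i (by omega), h1 i (by omega)]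
    ring
  have e2 : (J.v2 f).coeff i = 0 := by
    rw [Jet.v2, h2 i (by omega)]
  rw [Jet.Ef, coeff_add, coeff_add, coeff_C_mul, coeff_C_mul, coeff_C_mul, e0, e1, e2]
  ring

/-- necessary condition: a cosymmetry of high order -/
theorem necessary_cosym {f : F} (hf : J.Six f) (hb : J.Bd f 3) {γ : F[X]} (h : J.cosL f γ = 0)
    {m : ℕ} (hm : 11 ≤ m) (hd : γ.natDegree = m) : InList J f := by
  obtain ⟨n, rfl⟩ : ∃ n, m = n + 1 := ⟨m - 1, by omega⟩
  have hlead : γ.coeff (n + 1) ≠ 0 := by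
    intro h1
    have h2 : γ = 0 := by
      rw [← hd] at h1
      exact leadingCoeff_eq_zero.1 h1
    rw [h2, natDegree_zero] at hd
    omega
  obtain ⟨G, r, hG, hdg, hGn⟩ := anti J n γ (fun i hi =>
    coeff_eq_zero_of_natDegree_lt (by rw [hd]; exact hi))
  have hR : J.DM (J.evoV (Jet.K3 f) G - J.DM (J.DM (J.DM G)) - C f * J.DM G)
      = -(J.evoV (Jet.K3 f) (C r) - J.DM (J.DM (J.DM (C r))) - J.DM (C f * C r)
        + J.Ef f (J.ip γ X)) := by
    rw [Jet.cosL, hG] at h
    rw [hG]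
    simp only [map_add, map_sub, mul_add, J.evoV_DM] at h ⊢
    linear_combination h
  have hdR : Dg (J.DM (J.evoV (Jet.K3 f) G - J.DM (J.DM (J.DM G)) - C f * J.DM G)) 4 := by
    rw [hR]
    apply dg_neg
    refine dg_add ?_ (dg_Ef hb _)
    have e1 : Dg (J.evoV (Jet.K3 f) (C r)) 4 := by
      have e2 := J.evoV_C_mul (Jet.K3 f) r 1
      rw [mul_one, J.evoV_one, mul_one] at e2
      rw [e2]
      refine dg_add (dg_C _ _) (dg_C_mul _ ?_)
      intro i hi
      rw [Jet.K3, coeff_add, coeff_X_pow, coeff_C_mul, coeff_X, if_neg (by omega),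
        if_neg (by omega)]
      ring
    have e3 : Dg (J.DM (J.DM (J.DM (C r)))) 4 :=
      Jet.dg_mono (dg_DM J (dg_DM J (dg_DM J (dg_C r 0)))) (by omega)
    have e4 : Dg (J.DM (C f * C r)) 4 :=
      Jet.dg_mono (dg_DM J (dg_C_mul f (dg_C r 0))) (by omega)
    rw [sub_eq_add_neg, sub_eq_add_neg]
    exact dg_add (dg_add e1 (dg_neg e3)) (dg_neg e4)
  have hY := dg_of_DM J hdR
  have hrel : ∀ k, 2 ≤ k → (J.evoV (Jet.K3 f) G).coeff (k + 2)
      = (J.DM (J.DM (J.DM G)) + C f * J.DM G).coeff (k + 2) := by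
    intro k hk
    have h1 := hY (k + 2) (by omega)
    rw [coeff_sub, coeff_sub] at h1
    rw [coeff_add]
    linear_combination h1
  have hbig : ∀ i, n < i → G.coeff i = 0 := hdg
  obtain ⟨e2, e1, he⟩ := coef_top_hi J hrel hbig (by omega)
  obtain ⟨θ, σ, ψ, hT, hS, hP⟩ := Nec.nec_alg J (c := fun s => G.coeff (n - s)) (m := n) (by omega)
    (by simpa [hGn] using hlead) (by simpa using e2) (by simpa using e1) (by simpa using he)
  exact list_of_can hf hT hS hP

/-- necessary condition: a conserved density of high order -/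
theorem necessary_cons {f h s : F} (hf : J.Six f) (hb : J.Bd f 3) {N : ℕ} (hN : J.Bd h N)
    (hs : J.evo (Jet.K3 f) h = J.D s) {m : ℕ} (hm : 11 ≤ m)
    (hd : (J.del 1 h N).natDegree = m) : InList J f := by
  obtain ⟨M, hM⟩ := J.exists_bd s
  exact necessary_cosym hf hb (J.cos_main hb hN hM hs).1 hm hd

end Pool.Agent.Lib.MP_4d1bc1_mp.Kv
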