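import Pool.Agent.Lib.MP_4d1bc1_mp.Kv.Euler

set_option autoImplicit false

/-! The equations for a conserved density, with all the jets of the multiplier. -/

namespace Pool.Agent.Lib.MP_4d1bc1_mp.Kv

open Finset Polynomial

universe u

variable {F : Type u} [Field F] [Algebra ℝ F]

namespace Jet

variable (J : Jet F)

/-- `Φ c = c a0 + c' a1 + c'' a2 + ...` -/
def Jt (Φ : F → F[X]) (a0 a1 : F[X]) : Prop :=
  ∃ (n : ℕ) (a : ℕ → F[X]), ∀ c, Φ c = C c * a0 + C (J.D c) * a1
    + ∑ j ∈ range n, C (J.D^[j + 2] c) * a j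

/-- prepend -/
def consSeq (v : F[X]) (a : ℕ → F[X]) : ℕ → F[X]
  | 0 => v
  | j + 1 => a j

variable {J}

theorem Jt.mono {n m : ℕ} (hnm : n ≤ m) (a : ℕ → F[X]) (c : F) :
    ∑ j ∈ range n, C (J.D^[j + 2] c) * a j
      = ∑ j ∈ range m, C (J.D^[j + 2] c) * (if j < n then a j else 0) := by
  have h1 : ∑ j ∈ range n, C (J.D^[j + 2] c) * a j
      = ∑ j ∈ range n, C (J.D^[j + 2] c) * (if j < n then a j else 0) :=
    sum_congr rfl fun j hj => by rw [if_pos (mem_range.1 hj)]
  rw [h1]
  apply sum_subset (range_subset_range.2 hnm)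
  intro j _ hj
  rw [if_neg (by simpa using hj), mul_zero]

theorem Jt.add {Φ Ψ : F → F[X]} {a0 a1 b0 b1 : F[X]} (h1 : J.Jt Φ a0 a1) (h2 : J.Jt Ψ b0 b1) :
    J.Jt (fun c => Φ c + Ψ c) (a0 + b0) (a1 + b1) := by
  obtain ⟨n, a, ha⟩ := h1
  obtain ⟨m, b, hb⟩ := h2
  refine ⟨max n m, fun j => (if j < n then a j else 0) + (if j < m then b j else 0), fun c => ?_⟩
  dsimp only
  rw [ha, hb, Jt.mono (le_max_left n m), Jt.mono (le_max_right n m)]
  simp only [mul_add, sum_add_distrib]
  ring

theorem Jt.mul_right {Φ : F → F[X]} {a0 a1 : F[X]} (h1 : J.Jt Φ a0 a1) (v : F[X]) :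
    J.Jt (fun c => Φ c * v) (a0 * v) (a1 * v) := by
  obtain ⟨n, a, ha⟩ := h1
  refine ⟨n, fun j => a j * v, fun c => ?_⟩
  dsimp only
  rw [ha, add_mul, add_mul, sum_mul]
  simp only [mul_assoc]

theorem Jt.C_mul {Φ : F → F[X]} {a0 a1 : F[X]} (h1 : J.Jt Φ a0 a1) (g : F) :
    J.Jt (fun c => C g * Φ c) (C g * a0) (C g * a1) := by
  have h := h1.mul_right (C g)
  simp only [mul_comm _ (C g)] at h
  exact h

theorem Jt.neg {Φ : F → F[X]} {a0 a1 : F[X]} (h1 : J.Jt Φ a0 a1) :
    J.Jt (fun c => -Φ c) (-a0) (-a1) := by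
  have h := h1.mul_right (-1)
  simp only [mul_neg, mul_one] at h
  exact h

theorem Jt.sub {Φ Ψ : F → F[X]} {a0 a1 b0 b1 : F[X]} (h1 : J.Jt Φ a0 a1) (h2 : J.Jt Ψ b0 b1) :
    J.Jt (fun c => Φ c - Ψ c) (a0 - b0) (a1 - b1) := by
  have h := h1.add h2.neg
  simp only [← sub_eq_add_neg] at h
  exact h

theorem Jt.base (v : F[X]) : J.Jt (fun c => C c * v) v 0 :=
  ⟨0, fun _ => 0, fun c => by simp⟩

theorem Jt.zero : J.Jt (fun _ => 0) 0 0 := ⟨0, fun _ => 0, fun c => by simp⟩

theorem Jt.congr {Φ : F → F[X]} {a0 a1 b0 b1 : F[X]} (h : J.Jt Φ a0 a1) (h0 : a0 = b0)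
    (h1 : a1 = b1) : J.Jt Φ b0 b1 := h0 ▸ h1 ▸ h

theorem Jt.sum {ι : Type} (s : Finset ι) {Φ : ι → F → F[X]} {a0 a1 : ι → F[X]}
    (h : ∀ i ∈ s, J.Jt (Φ i) (a0 i) (a1 i)) :
    J.Jt (fun c => ∑ i ∈ s, Φ i c) (∑ i ∈ s, a0 i) (∑ i ∈ s, a1 i) := by
  classical
  induction s using Finset.induction_on with
  | empty => simpa using Jt.zero
  | insert i s hi ih =>
    simp only [sum_insert hi]
    exact (h i (mem_insert_self _ _)).add (ih fun j hj => h j (mem_insert_of_mem hj))

theorem Jt.shift {Φ : F → F[X]} {a0 a1 : F[X]} (h1 : J.Jt Φ a0 a1) :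
    J.Jt (fun c => Φ (J.D c)) 0 a0 := by
  obtain ⟨n, a, ha⟩ := h1
  refine ⟨n + 1, consSeq a1 a, fun c => ?_⟩
  dsimp only
  rw [ha, sum_range_succ']
  simp only [Function.iterate_succ, Function.comp_apply, Function.iterate_zero, id_eq, mul_zero,
    zero_add, consSeq]
  ring

theorem Jt.cm {Φ : F → F[X]} {a0 a1 : F[X]} (h1 : J.Jt Φ a0 a1) :
    J.Jt (fun c => cm J.D (Φ c)) (cm J.D a0) (a0 + cm J.D a1) := by
  obtain ⟨n, a, ha⟩ := h1
  refine ⟨n + 1, fun j => (if j < n then Kv.cm J.D (a j) else 0) + consSeq a1 a j,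
    fun c => ?_⟩
  dsimp only
  rw [ha, map_add, map_add, map_sum, cm_mul, cm_mul, cm_C, cm_C]
  simp only [cm_mul, cm_C, mul_add, sum_add_distrib]
  rw [← Jt.mono (Nat.le_succ n) (fun j => Kv.cm J.D (a j)),
    sum_range_succ' (fun x => C (J.D^[x + 2] c) * consSeq a1 a x) n]
  simp only [Function.iterate_succ_apply', Function.iterate_zero, id_eq, consSeq]
  ring

theorem Jt.DM {Φ : F → F[X]} {a0 a1 : F[X]} (h1 : J.Jt Φ a0 a1) :
    J.Jt (fun c => J.DM (Φ c)) (J.DM a0) (a0 + J.DM a1) := by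
  have h := h1.cm.add (h1.mul_right X)
  have e : (fun c => J.DM (Φ c)) = fun c => Kv.cm J.D (Φ c) + Φ c * X := by
    funext c; rw [DM_apply]; ring
  rw [e]
  refine h.congr ?_ ?_
  · rw [DM_apply]; ring
  · rw [DM_apply]; ring

theorem Jt.ip {Φ : F → F[X]} {a0 a1 : F[X]} (h1 : J.Jt Φ a0 a1) (W : F[X]) :
    J.Jt (fun c => C (J.ip (Φ c) W)) (C (J.ip a0 W)) (C (J.ip a1 W)) := by
  obtain ⟨n, a, ha⟩ := h1
  refine ⟨n, fun j => C (J.ip (a j) W), fun c => ?_⟩
  dsimp only
  rw [ha, ip_add_left, ip_add_left, ip_C_mul_left, ip_C_mul_left, ip_sum_left, C_add, C_add,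
    Polynomial.C_mul, Polynomial.C_mul, map_sum]
  congr 1
  exact sum_congr rfl fun j _ => by rw [ip_C_mul_left, Polynomial.C_mul]

theorem Jt.evo {Φ : F → F[X]} {a0 a1 : F[X]} (h1 : J.Jt Φ a0 a1) (G : F[X]) :
    J.Jt (fun c => J.evoV G (Φ c) - Φ (J.evo G c)) (J.evoV G a0) (J.evoV G a1) := by
  obtain ⟨n, a, ha⟩ := h1
  refine ⟨n, fun j => J.evoV G (a j), fun c => ?_⟩
  dsimp only
  have hit : ∀ (k : ℕ) (c : F), J.evo G (J.D^[k] c) = J.D^[k] (J.evo G c) := by
    intro k
    induction k with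
    | zero => intro c; rfl
    | succ k ih => intro c; rw [Function.iterate_succ_apply', evo_D, ih,
        Function.iterate_succ_apply']
  rw [ha, ha, map_add, map_add, map_sum, evoV_C_mul, evoV_C_mul, evo_D]
  simp only [evoV_C_mul, hit, sum_add_distrib]
  ring

/-- independence of the jets -/
theorem Jt.eq_zero {Φ : F → F[X]} {a0 a1 : F[X]} (h1 : J.Jt Φ a0 a1) (h : ∀ c, Φ c = 0) :
    a0 = 0 ∧ a1 = 0 := by
  obtain ⟨n, a, ha⟩ := h1
  -- the sequence of all coefficients
  have key : ∀ (m : ℕ) (b : ℕ → F[X]), (∀ c, ∑ j ∈ range m, C (J.D^[j] c) * b j = 0) →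
      ∀ j, j < m → b j = 0 := by
    intro m
    induction m with
    | zero => intro b _ j hj; omega
    | succ m ih =>
      intro b hb
      have htop : b m = 0 := by
        refine Polynomial.ext fun i => ?_
        -- a bound for the coefficients
        obtain ⟨M, hM⟩ : ∃ M, ∀ j ∈ range (m + 1), J.Bd ((b j).coeff i) M := by
          choose g hg using fun j => J.exists_bd ((b j).coeff i)
          exact ⟨(range (m + 1)).sup g, fun j hj => J.bd_mono (hg j) (Finset.le_sup hj)⟩
        have h2 := congrArg (fun U : F[X] => U.coeff i) (hb (J.u 0 (M + 1)))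
        simp only [finsetSum_coeff, coeff_C_mul, coeff_zero] at h2
        have h3 : ∀ k l : ℕ, M + 1 + k < l → J.Gu 0 l (J.D^[k] (J.u 0 (M + 1))) = 0 := by
          intro k
          induction k with
          | zero =>
            intro l hl
            rw [Function.iterate_zero, id_eq, Gu_u, if_neg (by omega), if_neg (by omega), add_zero]
          | succ k ihk =>
            intro l hl
            obtain ⟨l, rfl⟩ : ∃ l', l = l' + 1 := ⟨l - 1, by omega⟩
            rw [Function.iterate_succ_apply', Gu_D, ihk _ (by omega)]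
            simp only [Gum, map_zero]
            rw [Gu_symm, ihk _ (by omega)]; ring
        have h4 : ∀ k : ℕ, J.Gu 0 (M + 1 + k) (J.D^[k] (J.u 0 (M + 1))) = 1 := by
          intro k
          induction k with
          | zero =>
            rw [Function.iterate_zero, id_eq, Gu_u, if_pos ⟨rfl, rfl⟩, if_neg (by omega), add_zero]
          | succ k ihk =>
            rw [Function.iterate_succ_apply', ← add_assoc, Gu_D, h3 k _ (by omega)]
            simp only [Gum, map_zero]
            rw [Gu_symm, ihk]; ring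
        have h5 := congrArg (J.Gu 0 (M + 1 + m)) h2
        rw [map_sum, map_zero, sum_range_succ] at h5
        have h6 : ∑ x ∈ range m, J.Gu 0 (M + 1 + m) (J.D^[x] (J.u 0 (M + 1)) * (b x).coeff i)
            = 0 := by
          refine sum_eq_zero fun x hx => ?_
          rw [mem_range] at hx
          rw [der_mul, h3 x _ (by omega), J.Gu_eq_zero_of_bd (hM x (by simp; omega))
            (Or.inr (by omega))]
          ring
        rw [h6, der_mul, h4, J.Gu_eq_zero_of_bd (hM m (by simp)) (Or.inr (by omega))] at h5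
        rw [coeff_zero]
        linear_combination h5
      intro j hj
      rcases Nat.lt_or_ge j m with h7 | h7
      · refine ih b (fun c => ?_) j h7
        have h8 := hb c
        rw [sum_range_succ, htop, mul_zero, add_zero] at h8
        exact h8
      · obtain rfl : j = m := by omega
        exact htop
  have h3 := key (n + 2) (consSeq a0 (consSeq a1 a)) (fun c => by
    have h4 := ha c
    rw [h] at h4
    rw [sum_range_succ', sum_range_succ']
    simp only [Function.iterate_zero, id_eq, Function.iterate_one, zero_add, consSeq]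
    linear_combination -h4)
  exact ⟨h3 0 (by omega), h3 1 (by omega)⟩

variable (J)

/-- the coefficient of `c'` in `∑ (-D)^k c grad_k` -/
noncomputable def del1 (h : F) (N : ℕ) : F[X] :=
  ∑ k ∈ range N, (-1) ^ k * ((k : F[X]) * J.DM^[k - 1] (J.grad k h))

theorem jt_iter (k : ℕ) (U : F[X]) : J.Jt (fun c => J.DM^[k] (C c * U)) (J.DM^[k] U)
    ((k : F[X]) * J.DM^[k - 1] U) := by
  induction k with
  | zero => simpa using Jt.base (J := J) U
  | succ k ih =>
    have h := ih.DM
    simp only [← Function.iterate_succ_apply'] at h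
    refine h.congr rfl ?_
    have hn : ∀ (n : ℕ) (V : F[X]), J.DM ((n : F[X]) * V) = (n : F[X]) * J.DM V := by
      intro n V
      have : (n : F[X]) = C (n : F) := by simp
      rw [this, DM_C_mul, Derivation.map_natCast]
      simp
    rw [hn]
    cases k with
    | zero => simp
    | succ k =>
      simp only [Nat.add_sub_cancel]
      rw [← Function.iterate_succ_apply' (f := J.DM)]
      push_cast
      ring

theorem jt_del (h : F) (N : ℕ) : J.Jt (fun c => J.del c h N) (J.del 1 h N) (J.del1 h N) := by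
  have h1 : ∀ k ∈ range N, J.Jt (fun c => (-1) ^ k * J.DM^[k] (C c * J.grad k h))
      ((-1) ^ k * J.DM^[k] (J.grad k h)) ((-1) ^ k * ((k : F[X]) * J.DM^[k - 1] (J.grad k h))) := by
    intro k _
    have h2 := (J.jt_iter k (J.grad k h)).mul_right ((-1) ^ k)
    simp only [mul_comm _ ((-1 : F[X]) ^ k)] at h2
    exact h2
  have h3 := Jt.sum (range N) h1
  refine h3.congr ?_ rfl
  rw [del]
  simp

/-! ### the density of order two -/

/-- `c' `-coefficients -/
noncomputable def v0 (f : F) : F[X] := J.grad 0 f - J.DM (J.grad 1 f) + J.DM (J.DM (J.grad 2 f))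
noncomputable def v1 (f : F) : F[X] := 2 * J.DM (J.grad 2 f) - J.grad 1 f
noncomputable def v2 (f : F) : F[X] := J.grad 2 f
/-- `δ_g f` for `f` of order two -/
noncomputable def Ef (f g : F) : F[X] :=
  C g * J.v0 f + C (J.D g) * J.v1 f + C (J.D (J.D g)) * J.v2 f

theorem eul_Ef {f : F} (hf : J.Bd f 3) (g : F) : J.Eul g f (J.Ef f g) := by
  have h := J.eul_del g hf
  have e : J.del g f 3 = J.Ef f g := by
    rw [del, sum_range_succ, sum_range_succ, sum_range_one, Ef, v0, v1, v2]
    simp only [Function.iterate_succ, Function.iterate_zero, Function.comp_apply, id_eq, DM_C_mul,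
      map_add]
    ring
  rw [← e]; exact h

theorem del_f {f : F} : J.del 1 f 3 = J.v0 f ∧ J.del1 f 3 = J.v1 f := by
  constructor
  · rw [del, sum_range_succ, sum_range_succ, sum_range_one, v0]
    simp only [Function.iterate_succ, Function.iterate_zero, Function.comp_apply, id_eq, C_1,
      one_mul]
    ring
  · rw [del1, sum_range_succ, sum_range_succ, sum_range_one, v1]
    simp only [Function.iterate_succ, Function.iterate_zero, Function.comp_apply, id_eq,
      Nat.cast_zero, Nat.cast_one, Nat.sub_self, zero_mul]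
    norm_num
    ring

/-- the left-hand side of the equation for `c` -/
noncomputable def cosL (f : F) (b0 : F[X]) : F[X] :=
  J.evoV (K3 f) b0 - J.DM (J.DM (J.DM b0)) - J.DM (C f * b0) + J.Ef f (J.ip b0 X)

/-- the left-hand side of the equation for `c'` -/
noncomputable def cosL1 (f : F) (b0 b1 : F[X]) : F[X] :=
  J.evoV (K3 f) b1 - 3 * J.DM (J.DM b0) - J.DM (J.DM (J.DM b1)) - C f * b0 - J.DM (C f * b1)
    + C (J.ip b1 X) * J.v0 f + C (J.ip b0 X + J.D (J.ip b1 X)) * J.v1 f
    + C (2 * J.D (J.ip b0 X) + J.D (J.D (J.ip b1 X))) * J.v2 f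

/-- the equations for a conserved density `h`, `h_t = s'` -/
theorem cos_main {f h s : F} (hf : J.Bd f 3) {N M : ℕ} (hh : J.Bd h N) (hs : J.Bd s M)
    (hts : J.evo (K3 f) h = J.D s) :
    J.cosL f (J.del 1 h N) = 0 ∧
      J.del 1 s M = - J.cosL1 f (J.del 1 h N) (J.del1 h N) := by
  have hΦ := J.jt_del h N
  have h1 := hΦ.evo (K3 f)
  have h2 := hΦ.DM.DM.DM
  have h3 := (hΦ.C_mul f).DM
  have hg := hΦ.ip X
  have hg0 := hg.mul_right (J.v0 f)
  have hg1 := hg.cm.mul_right (J.v1 f)
  have hg2 := hg.cm.cm.mul_right (J.v2 f)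
  have hsh := (J.jt_del s M).shift
  have htot := ((((h1.sub h2).sub h3).add hg0).add (hg1.add hg2)).add hsh
  have hz := htot.eq_zero (fun c => by
    have e1 := J.eul_evo (J.eul_del c hh) (J.eul_del (J.evo (K3 f) c) hh)
      (J.eul_Ef hf (J.ip (J.del c h N) X))
    have e2 := J.eul_D c s (J.eul_del (J.D c) hs)
    rw [hts] at e1
    have e3 := e1.unique e2
    simp only [cm_C]
    rw [Ef] at e3
    linear_combination e3)
  simp only [cm_C] at hz
  obtain ⟨z0, z1⟩ := hz
  refine ⟨?_, ?_⟩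
  · rw [cosL, Ef]
    linear_combination z0
  · rw [cosL1]
    simp only [map_add, C_mul, DM_C_mul, cm_C] at z1 ⊢
    have h2' : (C (2 : F) : F[X]) = 2 := map_ofNat C 2
    rw [h2']
    linear_combination z1

end Jet

end Pool.Agent.Lib.MP_4d1bc1_mp.Kv
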