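import Pool.Agent.Lib.MP_4d1bc1_mp.Kv.Calc4

set_option autoImplicit false
set_option linter.unusedSimpArgs false

/-! The equations for `f` itself: `f_t` is a total derivative. -/

namespace Pool.Agent.Lib.MP_4d1bc1_mp.Kv

open Finset Polynomial

universe u

variable {F : Type u} [Field F] [Algebra ℝ F]

namespace Jet

variable (J : Jet F)

/-- `A = 2 f_z - (f_q)' - 2 f_p` -/
noncomputable def cA (f : F) : F := 2 * J.pd 1 1 f - J.D (J.pd 1 2 f) - 2 * J.pd 0 2 f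
/-- `B = 2 f_x - (f_y)' + (f_p)''` -/
noncomputable def cB (f : F) : F :=
  2 * J.pd 0 0 f - J.D (J.pd 0 1 f) + J.D (J.D (J.pd 0 2 f))
/-- `Γ = 2 (f_p)' - f_y` -/
noncomputable def cG (f : F) : F := 2 * J.D (J.pd 0 2 f) - J.pd 0 1 f
/-- `κ = ⟨f_2, u_1⟩` -/
noncomputable def cK (f : F) : F :=
  J.u 0 1 * J.pd 0 2 f + J.u 1 1 * J.pd 1 2 f + 2 * J.u 1 2 * J.pd 2 2 f
/-- `e = ⟨v0, u_1⟩` -/
noncomputable def cE (f : F) : F :=
  J.u 0 1 * J.cB f - J.u 1 1 * J.D (J.cA f) - J.u 1 2 * J.cA f + 2 * J.pd 2 2 f * J.u 1 4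
/-- `μ = ⟨v1, u_1⟩` -/
noncomputable def cM (f : F) : F :=
  J.u 0 1 * J.cG f + J.u 1 1 * (J.D (J.pd 1 2 f) - J.cA f) + J.u 1 2 * J.pd 1 2 f
    + 4 * J.pd 2 2 f * J.u 1 3
/-- `e = (cJ f)'` -/
noncomputable def cJ (f : F) : F :=
  f - (J.u 0 1 * J.pd 0 1 f + 2 * J.u 1 1 * J.pd 1 1 f + J.u 1 2 * J.pd 1 2 f)
    + J.D (J.cK f)
    - 2 * (J.u 0 2 * J.pd 0 2 f + J.u 1 2 * J.pd 1 2 f + 2 * J.u 2 2 * J.pd 2 2 f)

variable {J}

theorem Six.pd_eq_zero {f : F} (hf : J.Six f) {i j : ℕ} (h : 2 < i ∨ 2 < j) :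
    J.pd i j f = 0 := by
  apply hf
  have h1 : i ≤ (mk2 i j).1.2 := le_max_left i j
  have h2 : j ≤ (mk2 i j).1.2 := le_max_right i j
  omega

theorem Six.grad0 {f : F} (hf : J.Six f) : J.grad 0 f
    = C (2 * J.pd 0 0 f) + C (J.pd 0 1 f) * X + C (J.pd 0 2 f) * X ^ 2 := by
  refine Polynomial.ext fun j => ?_
  simp only [coeff_grad, coeff_add, coeff_C_mul, coeff_X_pow, coeff_C, coeff_X]
  rcases j with _ | _ | _ | j
  · simp [Gu_eq_two]
  · rw [J.Gu_eq_pd (by norm_num), J.pd_symm]; simp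
  · rw [J.Gu_eq_pd (by norm_num), J.pd_symm]; simp
  · rw [J.Gu_eq_pd (by omega), hf.pd_eq_zero (by omega)]; simp

theorem Six.grad1 {f : F} (hf : J.Six f) : J.grad 1 f
    = C (J.pd 0 1 f) + C (2 * J.pd 1 1 f) * X + C (J.pd 1 2 f) * X ^ 2 := by
  refine Polynomial.ext fun j => ?_
  simp only [coeff_grad, coeff_add, coeff_C_mul, coeff_X_pow, coeff_C, coeff_X]
  rcases j with _ | _ | _ | j
  · rw [J.Gu_eq_pd (by norm_num)]; simp
  · simp [Gu_eq_two]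
  · rw [J.Gu_eq_pd (by norm_num), J.pd_symm]; simp
  · rw [J.Gu_eq_pd (by omega), hf.pd_eq_zero (by omega)]; simp

theorem Six.grad2 {f : F} (hf : J.Six f) : J.grad 2 f
    = C (J.pd 0 2 f) + C (J.pd 1 2 f) * X + C (2 * J.pd 2 2 f) * X ^ 2 := by
  refine Polynomial.ext fun j => ?_
  simp only [coeff_grad, coeff_add, coeff_C_mul, coeff_X_pow, coeff_C, coeff_X]
  rcases j with _ | _ | _ | j
  · rw [J.Gu_eq_pd (by norm_num)]; simp
  · rw [J.Gu_eq_pd (by norm_num)]; simp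
  · simp [Gu_eq_two]
  · rw [J.Gu_eq_pd (by omega), hf.pd_eq_zero (by omega)]; simp

theorem Six.v0_gen {f : F} (hf : J.Six f) : J.v0 f = C (J.cB f) + C (-J.D (J.cA f)) * X
    + C (2 * J.D (J.D (J.pd 2 2 f)) - J.cA f) * X ^ 2 + C (4 * J.D (J.pd 2 2 f)) * X ^ 3
    + C (2 * J.pd 2 2 f) * X ^ 4 := by
  rw [v0, hf.grad0, hf.grad1, hf.grad2]
  simp only [mul_add, map_add, map_sub, DM_C_mul, DM_X_pow, DM_C, DM_X, cA, cB, der_mul, dnum,
    zero_mul, zero_add, C_0, map_zero]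
  simp only [C_sub, C_neg, C_mul, C_add, map_ofNat C, map_sub, map_add, der_mul, dnum, C_0,
    map_zero, zero_mul, zero_add]
  ring

/-- `f_r` is constant -/
theorem isC_pd22 {f : F} (hf : J.Six f) (h0 : J.cosL f (J.v0 f) = 0) : J.IsC (J.pd 2 2 f) := by
  have := J.charZero
  have hd : ∀ i, 4 < i → (J.v0 f).coeff i = 0 := by
    intro i hi
    rw [hf.v0_gen]
    simp only [coeff_add, coeff_C_mul, coeff_X_pow, coeff_C, coeff_X]
    rw [if_neg (by omega), if_neg (by omega), if_neg (by omega), if_neg (by omega),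
      if_neg (by omega)]
    ring
  have hd1 : (J.v1 f).coeff 6 = 0 := by
    rw [v1, hf.grad1, hf.grad2]
    simp only [map_add, DM_C_mul, DM_X_pow, DM_C, DM_X]
    rw [← map_ofNat (C : F →+* F[X]) 2]
    simp only [mul_add, ← mul_assoc, ← C_mul, coeff_add, coeff_sub, coeff_C_mul, coeff_X_pow,
      coeff_C, coeff_X]
    norm_num
  have hd2 : (J.v2 f).coeff 6 = 0 := by
    rw [v2, hf.grad2]
    simp only [coeff_add, coeff_C_mul, coeff_X_pow, coeff_C, coeff_X]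
    norm_num
  have h1 := congrArg (fun U : F[X] => U.coeff 6) h0
  simp only [J.coeff_cosL_6 f (fun i hi => hd i (by omega)), coeff_Ef, coeff_zero, hd1, hd2,
    hd 6 (by omega), hd 5 (by omega)] at h1
  have h4 : (J.v0 f).coeff 4 = 2 * J.pd 2 2 f := by
    rw [hf.v0_gen]
    simp only [coeff_add, coeff_C_mul, coeff_X_pow, coeff_C, coeff_X]
    norm_num
  rw [h4] at h1
  simp only [map_zero, mul_zero, zero_mul, der_mul, dnum] at h1
  apply isC_of_D_zero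
  linear_combination (-1 / 6) * h1

theorem Six.v0_eq {f : F} (hf : J.Six f) (hα : J.IsC (J.pd 2 2 f)) : J.v0 f
    = C (J.cB f) + C (-J.D (J.cA f)) * X + C (-J.cA f) * X ^ 2 + C (2 * J.pd 2 2 f) * X ^ 4 := by
  rw [hf.v0_gen, hα.D]
  simp only [map_zero, mul_zero, C_0, zero_mul, add_zero, zero_sub]

theorem Six.v1_eq {f : F} (hf : J.Six f) (hα : J.IsC (J.pd 2 2 f)) : J.v1 f
    = C (J.cG f) + C (J.D (J.pd 1 2 f) - J.cA f) * X + C (J.pd 1 2 f) * X ^ 2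
      + C (4 * J.pd 2 2 f) * X ^ 3 := by
  rw [v1, hf.grad1, hf.grad2]
  simp only [mul_add, map_add, map_sub, DM_C_mul, DM_X_pow, DM_C, DM_X, cA, cG, der_mul, dnum, hα.D]
  simp only [C_sub, C_neg, C_mul, C_add, map_ofNat C, map_sub, map_add, der_mul, dnum, C_0]
  ring

theorem Six.v2_eq {f : F} (hf : J.Six f) : J.v2 f
    = C (J.pd 0 2 f) + C (J.pd 1 2 f) * X + C (2 * J.pd 2 2 f) * X ^ 2 := by
  rw [v2, hf.grad2]

theorem Six.ip_v0 {f : F} (hf : J.Six f) (hα : J.IsC (J.pd 2 2 f)) :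
    J.ip (J.v0 f) X = J.cE f := by
  rw [hf.v0_eq hα, cE]
  simp only [J.unr, pow_zero]
  ring

theorem Six.ip_v1 {f : F} (hf : J.Six f) (hα : J.IsC (J.pd 2 2 f)) :
    J.ip (J.v1 f) X = J.cM f := by
  rw [hf.v1_eq hα, cM]
  simp only [J.unr, pow_zero]
  ring

theorem Six.ip_v2 {f : F} (hf : J.Six f) : J.ip (J.v2 f) X = J.cK f := by
  rw [hf.v2_eq, cK]
  simp only [J.unr, pow_zero]
  ring

theorem Six.c0 {f : F} (hf : J.Six f) (hα : J.IsC (J.pd 2 2 f)) :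
    (J.v0 f).coeff 0 = J.cB f ∧ (J.v0 f).coeff 1 = -J.D (J.cA f) ∧ (J.v0 f).coeff 2 = -J.cA f
      ∧ (J.v0 f).coeff 3 = 0 ∧ (J.v0 f).coeff 4 = 2 * J.pd 2 2 f
      ∧ ∀ i, 4 < i → (J.v0 f).coeff i = 0 := by
  rw [hf.v0_eq hα]
  simp only [coeff_add, coeff_C_mul, coeff_X_pow, coeff_C, coeff_X]
  refine ⟨by norm_num, by norm_num, by norm_num, by norm_num, by norm_num, fun i hi => ?_⟩
  rw [if_neg (by omega), if_neg (by omega), if_neg (by omega), if_neg (by omega)]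
  ring

theorem Six.c1 {f : F} (hf : J.Six f) (hα : J.IsC (J.pd 2 2 f)) :
    (J.v1 f).coeff 0 = J.cG f ∧ (J.v1 f).coeff 1 = J.D (J.pd 1 2 f) - J.cA f
      ∧ (J.v1 f).coeff 2 = J.pd 1 2 f
      ∧ (J.v1 f).coeff 3 = 4 * J.pd 2 2 f
      ∧ ∀ i, 3 < i → (J.v1 f).coeff i = 0 := by
  rw [hf.v1_eq hα]
  simp only [coeff_add, coeff_C_mul, coeff_X_pow, coeff_C, coeff_X]
  refine ⟨by norm_num, by norm_num, by norm_num, by norm_num, fun i hi => ?_⟩
  rw [if_neg (by omega), if_neg (by omega), if_neg (by omega), if_neg (by omega)]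
  ring

theorem Six.c2 {f : F} (hf : J.Six f) :
    (J.v2 f).coeff 0 = J.pd 0 2 f ∧ (J.v2 f).coeff 1 = J.pd 1 2 f
      ∧ (J.v2 f).coeff 2 = 2 * J.pd 2 2 f ∧ ∀ i, 2 < i → (J.v2 f).coeff i = 0 := by
  rw [hf.v2_eq]
  simp only [coeff_add, coeff_C_mul, coeff_X_pow, coeff_C, coeff_X]
  refine ⟨by norm_num, by norm_num, by norm_num, fun i hi => ?_⟩
  rw [if_neg (by omega), if_neg (by omega), if_neg (by omega)]
  ring

/-- equation (I) -/
theorem eq_I {f : F} (hf : J.Six f) (hα : J.IsC (J.pd 2 2 f)) (h0 : J.cosL f (J.v0 f) = 0) :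
    3 * J.D (J.cA f) + 6 * J.pd 2 2 f * J.D f + 2 * J.pd 2 2 f * J.cE f = 0 := by
  obtain ⟨a0, a1, a2, a3, a4, a5⟩ := hf.c0 hα
  obtain ⟨b0, b1, b2, b3, b5⟩ := hf.c1 hα
  obtain ⟨c0, c1, c2, c5⟩ := hf.c2
  have h1 := congrArg (fun U : F[X] => U.coeff 4) h0
  simp only [J.coeff_cosL_4 f (fun i hi => a5 i (by omega)), coeff_Ef, coeff_zero,
    hf.ip_v0 hα, a2, a3, a4, a5 5 (by omega), a5 6 (by omega), b5 4 (by omega),
    c5 4 (by omega), map_zero, der_mul, dnum, hα.D, hα.evo, map_neg, zero_mul, mul_zero,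
    add_zero, zero_add] at h1
  linear_combination h1

/-- equation (II) -/
theorem eq_II {f : F} (hf : J.Six f) (hα : J.IsC (J.pd 2 2 f)) (h0 : J.cosL f (J.v0 f) = 0) :
    -J.evo (K3 f) (J.cA f) + J.D (J.D (J.D (J.cA f))) - 3 * J.D (J.cB f) - J.cA f * J.D f
      + f * J.D (J.cA f) + 2 * J.pd 2 2 f * J.D (J.D (J.D f)) - J.cE f * J.cA f
      + J.D (J.cE f) * J.pd 1 2 f = 0 := by
  have hI := congrArg (fun a => J.D (J.D a)) (eq_I hf hα h0)
  simp only [map_add, der_mul, dnum, hα.D, map_zero, zero_mul, zero_add, mul_zero, add_zero] at hI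
  obtain ⟨a0, a1, a2, a3, a4, a5⟩ := hf.c0 hα
  obtain ⟨b0, b1, b2, b3, b5⟩ := hf.c1 hα
  obtain ⟨c0, c1, c2, c5⟩ := hf.c2
  have h1 := congrArg (fun U : F[X] => U.coeff 2) h0
  simp only [J.coeff_cosL_2 f (fun i hi => a5 i (by omega)), coeff_Ef, coeff_zero,
    hf.ip_v0 hα, a0, a1, a2, a3, a4, a5 5 (by omega), a5 6 (by omega), b2,
    c2, map_zero, der_mul, dnum, hα.D, hα.evo, map_neg, zero_mul, mul_zero,
    add_zero, zero_add] at h1
  linear_combination h1 - hI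

/-- `e` is a total derivative -/
theorem cE_eq {f : F} (hf : J.Six f) (hα : J.IsC (J.pd 2 2 f)) : J.cE f = J.D (J.cJ f) := by
  have h1 : J.ip (J.v0 f) X = J.D (J.cJ f) := by
    have hD : J.D f = J.ip (J.grad 0 f) X + J.ip (J.grad 1 f) (X ^ 2)
        + J.ip (J.grad 2 f) (X ^ 3) := by
      rw [hf.grad0, hf.grad1, hf.grad2, hf.D]
      simp only [J.unr, pow_zero]
      ring
    have h2 : J.cJ f = f - J.ip (J.grad 1 f) X + J.D (J.ip (J.grad 2 f) X)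
        - 2 * J.ip (J.grad 2 f) (X ^ 2) := by
      rw [cJ, cK, hf.grad1, hf.grad2]
      simp only [J.unr, pow_zero]
      ring
    rw [h2, v0, map_sub, map_add, map_sub, der_mul, dnum, D_ip, D_ip, D_ip, map_add, D_ip, D_ip,
      DM_X, DM_X_pow, hD]
    simp only [ip_add_left, ip_sub_left]
    ring
  rw [← h1, hf.ip_v0 hα]

end Jet

end Pool.Agent.Lib.MP_4d1bc1_mp.Kv
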