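import Pool.Agent.Lib.MP_4d1bc1_mp.Kv.Base

set_option autoImplicit false

/-! Exactness, variational derivatives, and the two equations for a conserved density. -/

namespace Pool.Agent.Lib.MP_4d1bc1_mp.Kv

open Finset Polynomial

universe u

variable {F : Type u} [Field F] [Algebra ℝ F]

namespace Jet

variable (J : Jet F)

/-- a total derivative -/
def Ex (g : F) : Prop := ∃ s, J.D s = g

/-- no dependence on `u_k`, `k ≥ N` -/
def Bd (h : F) (N : ℕ) : Prop := ∀ k, N ≤ k → J.grad k h = 0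

/-- `c δh = V`: for every flow `W`, `c h_τ ≡ ⟨V, W⟩` modulo total derivatives -/
def Eul (c h : F) (V : F[X]) : Prop := ∀ W : F[X], J.Ex (c * J.evo W h - J.ip V W)

/-- the right-hand side of the equation -/
noncomputable def K3 (f : F) : F[X] := X ^ 3 + C f * X

variable {J}

theorem Ex.zero : J.Ex 0 := ⟨0, map_zero _⟩

theorem Ex.add {a b : F} (ha : J.Ex a) (hb : J.Ex b) : J.Ex (a + b) := by
  obtain ⟨s, rfl⟩ := ha
  obtain ⟨t, rfl⟩ := hb
  exact ⟨s + t, map_add _ _ _⟩

theorem Ex.sub {a b : F} (ha : J.Ex a) (hb : J.Ex b) : J.Ex (a - b) := by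
  obtain ⟨s, rfl⟩ := ha
  obtain ⟨t, rfl⟩ := hb
  exact ⟨s - t, map_sub _ _ _⟩

theorem Ex.neg {a : F} (ha : J.Ex a) : J.Ex (-a) := by
  obtain ⟨s, rfl⟩ := ha
  exact ⟨-s, map_neg _ _⟩

theorem Ex.congr {a b : F} (ha : J.Ex a) (h : a = b) : J.Ex b := h ▸ ha

theorem Ex.D (s : F) : J.Ex (J.D s) := ⟨s, rfl⟩

theorem Ex.evo {a : F} (W : F[X]) (ha : J.Ex a) : J.Ex (J.evo W a) := by
  obtain ⟨s, rfl⟩ := ha
  exact ⟨J.evo W s, (J.evo_D W s).symm⟩

theorem Ex.sum {ι : Type} (s : Finset ι) {a : ι → F} (h : ∀ i ∈ s, J.Ex (a i)) :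
    J.Ex (∑ i ∈ s, a i) := by
  classical
  induction s using Finset.induction_on with
  | empty => exact Ex.zero
  | insert i s hi ih =>
    rw [sum_insert hi]
    exact (h i (mem_insert_self _ _)).add (ih fun j hj => h j (mem_insert_of_mem hj))

variable (J)

theorem ip_neg_left (U W : F[X]) : J.ip (-U) W = -J.ip U W := by
  have h := J.ip_add_left (-U) U W
  rw [neg_add_cancel, ip_zero_left] at h
  exact eq_neg_of_add_eq_zero_left h.symm

theorem ip_neg_right (U W : F[X]) : J.ip U (-W) = -J.ip U W := by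
  rw [J.ip_symm, ip_neg_left, J.ip_symm]

theorem ex_ip (U W : F[X]) : J.Ex (J.ip (J.DM U) W + J.ip U (J.DM W)) :=
  ⟨J.ip U W, J.D_ip U W⟩

/-- integration by parts -/
theorem ex_ip_iter (k : ℕ) (U W : F[X]) :
    J.Ex (J.ip U (J.DM^[k] W) - J.ip ((-1) ^ k * J.DM^[k] U) W) := by
  induction k generalizing U with
  | zero =>
    refine Ex.zero.congr ?_
    simp
  | succ k ih =>
    have h1 := J.ex_ip U (J.DM^[k] W)
    have h2 := ih (J.DM U)
    refine (h1.sub h2).congr ?_
    rw [Function.iterate_succ_apply' J.DM k W, Function.iterate_succ_apply J.DM k U, pow_succ]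
    have : (-1 : F[X]) ^ k * -1 * J.DM^[k] (J.DM U) = -((-1) ^ k * J.DM^[k] (J.DM U)) := by ring
    rw [this, ip_neg_left]
    ring

theorem bd_mono {h : F} {N M : ℕ} (hN : J.Bd h N) (hNM : N ≤ M) : J.Bd h M :=
  fun k hk => hN k (hNM.trans hk)

theorem exists_bd (h : F) : ∃ N, J.Bd h N := by
  classical
  refine ⟨(J.T.fin h).toFinset.sup (fun a => a.1.2) + 1, fun k hk => ?_⟩
  refine Polynomial.ext fun j => ?_
  rw [coeff_grad, coeff_zero, Gu_apply, J.T.P_notMem h, mul_zero]
  intro hs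
  have h1 : (mk2 j k).1.2 ≤ (J.T.fin h).toFinset.sup (fun a => a.1.2) :=
    Finset.le_sup (f := fun a : Idx2 => a.1.2) hs
  have h2 : k ≤ (mk2 j k).1.2 := le_max_right j k
  omega

theorem P_eq_zero_of_bd {h : F} {N : ℕ} (hN : J.Bd h N) {a : Idx2} (ha : N ≤ a.1.2) :
    J.T.P a h = 0 := by
  have := J.charZero
  have h1 : (J.grad a.1.2 h).coeff a.1.1 = 0 := by rw [hN _ ha, coeff_zero]
  rw [coeff_grad, Gu_apply, mk2_val] at h1
  rcases mul_eq_zero.1 h1 with h2 | h2
  · split_ifs at h2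
    · exact absurd h2 two_ne_zero
    · exact absurd h2 one_ne_zero
  · exact h2

theorem grad_zero (k : ℕ) : J.grad k 0 = 0 := by
  refine Polynomial.ext fun j => ?_; simp

theorem grad_neg (k : ℕ) (h : F) : J.grad k (-h) = - J.grad k h := by
  refine Polynomial.ext fun j => ?_; simp

theorem grad_sub (k : ℕ) (g h : F) : J.grad k (g - h) = J.grad k g - J.grad k h := by
  refine Polynomial.ext fun j => ?_; simp

theorem grad_sum {ι : Type} (k : ℕ) (s : Finset ι) (h : ι → F) :
    J.grad k (∑ i ∈ s, h i) = ∑ i ∈ s, J.grad k (h i) := by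
  refine Polynomial.ext fun j => ?_; simp

theorem Gu_eq_zero_of_bd {h : F} {N : ℕ} (hN : J.Bd h N) {j k : ℕ} (hjk : N ≤ j ∨ N ≤ k) :
    J.Gu j k h = 0 := by
  rcases hjk with h1 | h1
  · have h2 : (J.grad j h).coeff k = 0 := by rw [hN j h1, coeff_zero]
    rw [coeff_grad] at h2
    rw [Gu_symm, h2]
  · have h2 : (J.grad k h).coeff j = 0 := by rw [hN k h1, coeff_zero]
    rwa [coeff_grad] at h2

theorem fld_eq_sum (e : ℕ → ℕ → F) {h : F} {N : ℕ} (hN : J.Bd h N) :
    J.fld (fun i j => e i j + e j i) h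
      = ∑ k ∈ range N, ∑ j ∈ range N, e j k * J.Gu j k h := by
  have h1 : J.T.IsVF (fun g => ∑ k ∈ range N, ∑ j ∈ range N, e j k * J.Gu j k g) :=
    Frame.IsVF.sum _ fun k _ => Frame.IsVF.sum _ fun j _ => (J.isVF_Gu j k).mul (e j k)
  obtain ⟨d, hd⟩ := (J.isVF_fld (fun i j => e i j + e j i)).sub h1
  have h2 : ∀ a : Idx2, a.1.2 < N → d a = 0 := by
    intro a ha
    have ha1 : a.1.1 < N := lt_of_le_of_lt a.2 ha
    have h3 := hd (J.U a)
    rw [J.vf_U] at h3
    rw [← h3]
    have h4 : J.U a = J.u a.1.1 a.1.2 := by rw [u, mk2_val]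
    rw [h4]
    change J.fld (fun i j => e i j + e j i) (J.u a.1.1 a.1.2)
      - ∑ k ∈ range N, ∑ j ∈ range N, e j k * J.Gu j k (J.u a.1.1 a.1.2) = 0
    rw [J.fld_u _ (fun i j => add_comm _ _), sub_eq_zero]
    simp only [Gu_u, mul_add, sum_add_distrib]
    congr 1
    · rw [Finset.sum_eq_single_of_mem a.1.2 (mem_range.2 ha),
        Finset.sum_eq_single_of_mem a.1.1 (mem_range.2 ha1)]
      · simp
      · intro j _ hj; simp [hj]
      · intro k _ hk
        refine sum_eq_zero fun j _ => ?_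
        simp [hk]
    · rw [Finset.sum_eq_single_of_mem a.1.1 (mem_range.2 ha1),
        Finset.sum_eq_single_of_mem a.1.2 (mem_range.2 ha)]
      · simp
      · intro j _ hj; simp [hj]
      · intro k _ hk
        refine sum_eq_zero fun j _ => ?_
        simp [hk]
  have h5 := hd h
  have h6 : J.T.vf d h = 0 := by
    rw [J.T.vf_apply]
    refine finsum_eq_zero_of_forall_eq_zero fun a => ?_
    rcases lt_or_ge a.1.2 N with h7 | h7
    · rw [h2 a h7, zero_mul]
    · rw [J.P_eq_zero_of_bd hN h7, mul_zero]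
  rw [h6] at h5
  exact sub_eq_zero.1 h5

theorem ip_grad_eq_sum (V : F[X]) {h : F} {N : ℕ} (hN : J.Bd h N) (k : ℕ) :
    J.ip (J.grad k h) V = ∑ j ∈ range N, J.ip (X ^ j) V * J.Gu j k h := by
  have h1 : J.grad k h = ∑ j ∈ range N, C (J.Gu j k h) * X ^ j := by
    refine Polynomial.ext fun j => ?_
    rw [finsetSum_coeff]
    simp only [coeff_C_mul, coeff_X_pow, mul_ite, mul_one, mul_zero, coeff_grad]
    rw [Finset.sum_ite_eq (range N) j (fun i => J.Gu i k h)]
    split_ifs with h2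
    · rfl
    · exact J.Gu_eq_zero_of_bd hN (Or.inl (by simpa using h2))
  rw [h1, ip_sum_left]
  exact sum_congr rfl fun j _ => by rw [ip_C_mul_left]; ring

/-- the flow through gradients -/
theorem evo_eq_sum (W : F[X]) {h : F} {N : ℕ} (hN : J.Bd h N) :
    J.evo W h = ∑ k ∈ range N, J.ip (J.grad k h) (J.DM^[k] W) := by
  have h1 : J.evo W = J.fld (fun i j => J.ip (X ^ i) (J.DM^[j] W)
      + J.ip (X ^ j) (J.DM^[i] W)) := by
    rw [evo]
    congr 1
    funext i j
    rw [J.ip_symm (J.DM^[i] W)]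
    ring
  rw [h1, J.fld_eq_sum (fun i j => J.ip (X ^ i) (J.DM^[j] W)) hN]
  exact sum_congr rfl fun k _ => (J.ip_grad_eq_sum _ hN k).symm

/-- the operator `∑ (-D)^k c grad_k` -/
noncomputable def del (c h : F) (N : ℕ) : F[X] :=
  ∑ k ∈ range N, (-1) ^ k * J.DM^[k] (C c * J.grad k h)

theorem eul_del (c : F) {h : F} {N : ℕ} (hN : J.Bd h N) : J.Eul c h (J.del c h N) := by
  intro W
  rw [J.evo_eq_sum W hN, del, ip_sum_left, mul_sum, ← sum_sub_distrib]
  refine Ex.sum _ fun k _ => ?_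
  rw [← ip_C_mul_left]
  exact J.ex_ip_iter k _ W

theorem DM_neg (U : F[X]) : J.DM (-U) = -J.DM U := map_neg _ _

theorem iter_add (k : ℕ) (U V : F[X]) : J.DM^[k] (U + V) = J.DM^[k] U + J.DM^[k] V := by
  induction k generalizing U V with
  | zero => rfl
  | succ k ih => rw [Function.iterate_succ_apply, map_add, ih, ← Function.iterate_succ_apply,
      ← Function.iterate_succ_apply]

theorem iter_zero' (k : ℕ) : J.DM^[k] 0 = 0 := by
  induction k with
  | zero => rfl
  | succ k ih => rw [Function.iterate_succ_apply, map_zero, ih]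

/-- the variational derivative of a total derivative vanishes -/
theorem del_D {s : F} {N : ℕ} (hN : J.Bd s N) : J.del 1 (J.D s) (N + 1) = 0 := by
  have key : ∀ n : ℕ, J.del 1 (J.D s) (n + 1) = (-1) ^ n * J.DM^[n + 1] (J.grad n s) := by
    intro n
    induction n with
    | zero =>
      rw [del, sum_range_one, J.grad_zero_D]
      simp
    | succ n ih =>
      rw [del, sum_range_succ]
      rw [del] at ih
      rw [ih, C_1, one_mul, J.grad_succ_D, iter_add, ← Function.iterate_succ_apply, pow_succ]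
      ring
  rw [key N, hN N le_rfl, iter_zero', mul_zero]

/-- degree at most `n` -/
def Dg (U : F[X]) (n : ℕ) : Prop := ∀ i, n < i → U.coeff i = 0

theorem dg_iter {U : F[X]} {n : ℕ} (hU : Dg U n) (k : ℕ) :
    Dg (J.DM^[k] U) (n + k) ∧ (J.DM^[k] U).coeff (n + k) = U.coeff n := by
  induction k with
  | zero => exact ⟨hU, rfl⟩
  | succ k ih =>
    rw [Function.iterate_succ_apply']
    refine ⟨fun i hi => ?_, ?_⟩
    · obtain ⟨i, rfl⟩ : ∃ i', i = i' + 1 := ⟨i - 1, by omega⟩
      rw [coeff_DM_succ, ih.1 _ (by omega), ih.1 _ (by omega), map_zero, add_zero]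
    · rw [show n + (k + 1) = (n + k) + 1 by ring, coeff_DM_succ, ih.1 _ (by omega), map_zero,
        zero_add, ih.2]

omit [Algebra ℝ F] in
theorem dg_mono {U : F[X]} {n m : ℕ} (hU : Dg U n) (h : n ≤ m) : Dg U m :=
  fun i hi => hU i (by omega)

/-- nondegeneracy -/
theorem eq_zero_of_ex {Y : F[X]} (hY : ∀ W : F[X], J.Ex (J.ip Y W)) : Y = 0 := by
  classical
  have := J.charZero
  by_contra hne
  have htop : Y.coeff Y.natDegree ≠ 0 := fun h => hne (leadingCoeff_eq_zero.1 h)
  set d := Y.natDegree with hd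
  have hdg : Dg Y d := fun i hi => coeff_eq_zero_of_natDegree_lt hi
  -- a bound for the coefficients
  obtain ⟨M, hM⟩ : ∃ M, ∀ j ∈ range (d + 1), J.Bd (Y.coeff j) M := by
    choose g hg using fun j => J.exists_bd (Y.coeff j)
    exact ⟨(range (d + 1)).sup g, fun j hj => J.bd_mono (hg j) (Finset.le_sup hj)⟩
  set N := 2 * (M + d + 1) + d with hN
  obtain ⟨s, hs⟩ := hY (X ^ N)
  obtain ⟨B, hB⟩ := J.exists_bd s
  set B' := B + N + 1 with hB'
  have h0 := J.del_D (J.bd_mono hB (show B ≤ B' by omega))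
  rw [hs] at h0
  have hip : J.ip Y (X ^ N) = ∑ j ∈ range (d + 1), Y.coeff j * J.u j N := by
    conv_lhs => rw [Y.as_sum_range_C_mul_X_pow' (show Y.natDegree < d + 1 by omega)]
    rw [ip_sum_left]
    exact sum_congr rfl fun j _ => by rw [ip_C_mul_left, ip_X_pow]
  have hgrad : ∀ k, J.grad k (J.ip Y (X ^ N)) = (if k = N then Y else 0)
      + C (Y.coeff k) * X ^ N
      + ∑ j ∈ range (d + 1), C (J.u j N) * J.grad k (Y.coeff j) := by
    intro k
    rw [hip, grad_sum]
    simp only [grad_mul, sum_add_distrib]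
    congr 1
    simp only [grad_u, mul_add, sum_add_distrib]
    congr 1
    · split_ifs with h1
      · exact (Y.as_sum_range_C_mul_X_pow' (show Y.natDegree < d + 1 by omega)).symm
      · simp
    · simp only [mul_ite, mul_zero]
      rw [Finset.sum_ite_eq (range (d + 1)) k (fun j => C (Y.coeff j) * X ^ N)]
      split_ifs with h1
      · rfl
      · rw [hdg k (by simpa using h1)]; simp
  have hc := congrArg (fun U : F[X] => U.coeff (N + d)) h0
  simp only [coeff_zero, del, finsetSum_coeff, C_1, one_mul] at hc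
  have hm1 : ∀ (k : ℕ) (U : F[X]) (i : ℕ), ((-1) ^ k * U).coeff i = (-1) ^ k * U.coeff i := by
    intro k U i
    have : ((-1 : F[X]) ^ k) = C ((-1) ^ k) := by simp
    rw [this, coeff_C_mul]
  simp only [hm1] at hc
  have hterm : ∀ k ∈ range (B' + 1), k ≠ N → k ≠ d →
      (-1 : F) ^ k * (J.DM^[k] (J.grad k (J.ip Y (X ^ N)))).coeff (N + d) = 0 := by
    intro k _ hkN hkd
    rw [hgrad k, if_neg hkN, zero_add]
    rcases Nat.lt_or_ge k M with hk | hk
    · -- small k
      have h1 : Dg (∑ j ∈ range (d + 1), C (J.u j N) * J.grad k (Y.coeff j)) M := by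
        intro i hi
        rw [finsetSum_coeff]
        refine sum_eq_zero fun j hj => ?_
        rw [coeff_C_mul, coeff_grad, J.Gu_eq_zero_of_bd (hM j hj) (Or.inl hi.le), mul_zero]
      have h2 : Dg (C (Y.coeff k) * X ^ N : F[X]) N := by
        intro i hi
        rw [coeff_C_mul, coeff_X_pow, if_neg (by omega), mul_zero]
      rw [iter_add, coeff_add, (J.dg_iter h1 k).1 _ (by omega), add_zero]
      rcases Nat.lt_or_ge k d with hkd' | hkd'
      · rw [(J.dg_iter h2 k).1 _ (by omega), mul_zero]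
      · rw [hdg k (by omega), C_0, zero_mul, iter_zero', coeff_zero, mul_zero]
    · have h1 : ∑ j ∈ range (d + 1), C (J.u j N) * J.grad k (Y.coeff j) = 0 :=
        sum_eq_zero fun j hj => by rw [hM j hj k hk, mul_zero]
      have h2 : Dg (C (Y.coeff k) * X ^ N : F[X]) N := by
        intro i hi
        rw [coeff_C_mul, coeff_X_pow, if_neg (by omega), mul_zero]
      rw [h1, add_zero]
      rcases Nat.lt_or_ge k d with hkd' | hkd'
      · rw [(J.dg_iter h2 k).1 _ (by omega), mul_zero]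
      · rw [hdg k (by omega), C_0, zero_mul, iter_zero', coeff_zero, mul_zero]
  have hNd : N ≠ d := by omega
  have hsplit : ∑ k ∈ range (B' + 1), (-1 : F) ^ k *
      (J.DM^[k] (J.grad k (J.ip Y (X ^ N)))).coeff (N + d)
      = ∑ k ∈ ({N, d} : Finset ℕ), (-1 : F) ^ k *
      (J.DM^[k] (J.grad k (J.ip Y (X ^ N)))).coeff (N + d) := by
    symm
    apply sum_subset
    · intro k hk
      simp only [mem_insert, mem_singleton] at hk
      rw [mem_range]
      rcases hk with rfl | rfl <;> omega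
    · intro k hk hk'
      simp only [mem_insert, mem_singleton, not_or] at hk'
      exact hterm k hk hk'.1 hk'.2
  rw [hsplit, Finset.sum_pair hNd] at hc
  -- the two main terms
  have e1 : (J.DM^[N] (J.grad N (J.ip Y (X ^ N)))).coeff (N + d) = Y.coeff d := by
    rw [hgrad N, if_pos rfl]
    have h1 : ∑ j ∈ range (d + 1), C (J.u j N) * J.grad N (Y.coeff j) = 0 :=
      sum_eq_zero fun j hj => by rw [hM j hj N (by omega), mul_zero]
    rw [h1, add_zero, hdg N (by omega), C_0, zero_mul, add_zero, add_comm N d]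
    exact (J.dg_iter hdg N).2
  have e2 : (J.DM^[d] (J.grad d (J.ip Y (X ^ N)))).coeff (N + d) = Y.coeff d := by
    rw [hgrad d, if_neg (Ne.symm hNd), zero_add, iter_add, coeff_add]
    have h1 : Dg (∑ j ∈ range (d + 1), C (J.u j N) * J.grad d (Y.coeff j)) M := by
      intro i hi
      rw [finsetSum_coeff]
      refine sum_eq_zero fun j hj => ?_
      rw [coeff_C_mul, coeff_grad, J.Gu_eq_zero_of_bd (hM j hj) (Or.inl hi.le), mul_zero]
    have h2 : Dg (C (Y.coeff d) * X ^ N : F[X]) N := by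
      intro i hi
      rw [coeff_C_mul, coeff_X_pow, if_neg (by omega), mul_zero]
    rw [(J.dg_iter h1 d).1 _ (by omega), add_zero, (J.dg_iter h2 d).2, coeff_C_mul, coeff_X_pow,
      if_pos rfl, mul_one]
  have hpow : (-1 : F) ^ N = (-1) ^ d := by
    rw [hN, pow_add, pow_mul]; simp
  rw [e1, e2, hpow] at hc
  have h3 : (2 * (-1 : F) ^ d) * Y.coeff d = 0 := by linear_combination hc
  rcases mul_eq_zero.1 h3 with h4 | h4
  · exact absurd h4 (mul_ne_zero two_ne_zero (pow_ne_zero _ (by norm_num)))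
  · exact htop h4

theorem Eul.unique {J : Jet F} {c h : F} {V V' : F[X]} (h1 : J.Eul c h V) (h2 : J.Eul c h V') :
    V = V' := by
  have h3 : V - V' = 0 := J.eq_zero_of_ex fun W => by
    refine ((h2 W).sub (h1 W)).congr ?_
    rw [ip_sub_left]; ring
  exact sub_eq_zero.1 h3

theorem eul_D (c s : F) {V : F[X]} (h : J.Eul (J.D c) s V) : J.Eul c (J.D s) (-V) := by
  intro W
  rw [J.evo_D, ip_neg_left]
  refine ((Ex.D (J := J) (c * J.evo W s)).sub (h W)).congr ?_
  rw [der_mul]; ring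

/-- the commutator of two flows -/
theorem evo_comm (V W : F[X]) (h : F) :
    J.evo V (J.evo W h) - J.evo W (J.evo V h) = J.evo (J.evoV V W - J.evoV W V) h := by
  have h1 : J.T.IsVF (fun f => J.evo V (J.evo W f) - J.evo W (J.evo V f)) :=
    Frame.IsVF.comm (J.isVF_fld _) (J.isVF_fld _)
  have hit : ∀ (U V : F[X]) (k : ℕ), J.evoV U (J.DM^[k] V) = J.DM^[k] (J.evoV U V) := by
    intro U V k
    induction k with
    | zero => rfl
    | succ k ih => rw [Function.iterate_succ_apply', evoV_DM, ih, Function.iterate_succ_apply']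
  have hsub : ∀ (k : ℕ) (U V : F[X]), J.DM^[k] (U - V) = J.DM^[k] U - J.DM^[k] V := by
    intro k U V
    rw [sub_eq_add_neg, iter_add, sub_eq_add_neg]
    congr 1
    induction k generalizing V with
    | zero => rfl
    | succ k ih => rw [Function.iterate_succ_apply, map_neg, ih, ← Function.iterate_succ_apply]
  exact J.vf_ext h1 (J.isVF_fld _) (fun i j => by
    have e0 : (J.fld fun i j =>
        J.ip (J.DM^[i] (J.evoV V W - J.evoV W V)) (X ^ j) +
          J.ip (X ^ i) (J.DM^[j] (J.evoV V W - J.evoV W V))) (J.u i j)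
        = J.evo (J.evoV V W - J.evoV W V) (J.u i j) := rfl
    rw [e0, evo_u, evo_u, evo_u, map_add, map_add, evo_ip, evo_ip, evo_ip, evo_ip, evoV_X_pow,
      evoV_X_pow, evoV_X_pow, evoV_X_pow, hit, hit, hit, hit, hsub, hsub, ip_sub_left,
      ip_sub_right]
    ring) h

theorem evoV_K3 (W : F[X]) (f : F) : J.evoV W (K3 f)
    = J.DM (J.DM (J.DM W)) + C (J.evo W f) * X + C f * J.DM W := by
  have h3 := J.evoV_X_pow W 3
  have h1 := J.evoV_X_pow W 1
  rw [pow_one] at h1
  rw [K3, map_add, h3, evoV_C_mul, h1]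
  simp only [Function.iterate_succ, Function.iterate_zero, Function.comp_apply, id_eq]
  ring

/-- the variational derivative of a time derivative -/
theorem eul_evo {f c h : F} {V V' Ef : F[X]} (hV : J.Eul c h V)
    (hV' : J.Eul (J.evo (K3 f) c) h V')
    (hE : J.Eul (J.ip V X) f Ef) :
    J.Eul c (J.evo (K3 f) h) (J.evoV (K3 f) V - V' - J.DM (J.DM (J.DM V))
      - J.DM (C f * V) + Ef) := by
  intro W
  have h1 := (hV W).evo (K3 f)
  have h2 := hV' W
  have h3 := hV (J.evoV W (K3 f) - J.evoV (K3 f) W)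
  have h4 := hE W
  have h5 := J.ex_ip_iter 3 V W
  have h6 := J.ex_ip_iter 1 (C f * V) W
  rw [← evo_comm] at h3
  have e1 : J.evo (K3 f) (c * J.evo W h - J.ip V W)
      = J.evo (K3 f) c * J.evo W h + c * J.evo (K3 f) (J.evo W h)
        - J.ip (J.evoV (K3 f) V) W - J.ip V (J.evoV (K3 f) W) := by
    rw [map_sub, der_mul, evo_ip]; ring
  have e2 : J.ip V (J.evoV W (K3 f) - J.evoV (K3 f) W)
      = J.ip V (J.DM^[3] W) + J.evo W f * J.ip V X + f * J.ip V (J.DM W)
        - J.ip V (J.evoV (K3 f) W) := by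
    rw [ip_sub_right, evoV_K3, ip_add_right, ip_add_right, ip_C_mul_right, ip_C_mul_right]
    simp only [Function.iterate_succ, Function.iterate_zero, Function.comp_apply, id_eq]
  have e3 : J.ip ((-1) ^ 3 * J.DM^[3] V) W = - J.ip (J.DM (J.DM (J.DM V))) W := by
    rw [show ((-1 : F[X]) ^ 3 * J.DM^[3] V) = - (J.DM (J.DM (J.DM V))) by
      simp only [Function.iterate_succ, Function.iterate_zero, Function.comp_apply, id_eq]; ring,
      ip_neg_left]
  have e4 : J.ip (C f * V) (J.DM^[1] W) = f * J.ip V (J.DM W) := by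
    rw [ip_C_mul_left]; rfl
  have e5 : J.ip ((-1) ^ 1 * J.DM^[1] (C f * V)) W = - J.ip (J.DM (C f * V)) W := by
    rw [show ((-1 : F[X]) ^ 1 * J.DM^[1] (C f * V)) = - (J.DM (C f * V)) by
      simp only [Function.iterate_succ, Function.iterate_zero, Function.comp_apply, id_eq]; ring,
      ip_neg_left]
  rw [e3] at h5
  rw [e4, e5] at h6
  rw [e1] at h1
  rw [e2] at h3
  refine ((((h1.sub h2).add h3).add h4).add (h5.add h6)).congr ?_
  rw [ip_add_left, ip_sub_left, ip_sub_left, ip_sub_left]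
  ring

end Jet

end Pool.Agent.Lib.MP_4d1bc1_mp.Kv
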