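import Pool.Agent.Lib.MP_4d1bc1_mp.Kv.Theta

set_option autoImplicit false
set_option linter.unusedSimpArgs false

/-! Reduced variables for the equations with a fifth-order symmetry. -/

namespace Pool.Agent.Lib.MP_4d1bc1_mp.Kv

open Finset Polynomial

universe u

variable {F : Type u} [Field F] [Algebra ℝ F]

/-- `Z = 1 + a u_[1,1]` -/
noncomputable def rZ (J : Jet F) (a : F) : F := 1 + a * J.u 1 1

/-- `a`, `κ` are constants, `w = 0` or `w = 1/(u_[0,0] + κ - a u_[0,1]²/Z)` -/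
structure Red (J : Jet F) (a κ w : F) : Prop where
  ca : J.IsC a
  a0 : a ≠ 0
  cκ : J.IsC κ
  hw : w = 0 ∨ w * (J.u 0 0 + κ - a * J.u 0 1 ^ 2 * (rZ J a)⁻¹) = 1

variable (J : Jet F) (a w : F)

/-- `β_i` -/
noncomputable def rb (i : ℕ) : F :=
  J.u 0 i - (if i = 2 then a⁻¹ else 0) - a * J.u 0 1 * J.u 1 i * (rZ J a)⁻¹
/-- `π_i` -/
noncomputable def rp (i : ℕ) : F := w * rb J a i
/-- `ω_i` -/
noncomputable def ro (i : ℕ) : F := a * (rZ J a)⁻¹ * (J.u 1 i - J.u 0 1 * rp J a w i)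
/-- `h_[i,j]` -/
noncomputable def rh (i j : ℕ) : F :=
  J.u i j - a * (rZ J a)⁻¹ * J.u 1 i * J.u 1 j - w * rb J a i * rb J a j
/-- `E` -/
noncomputable def rE : F := a * (rZ J a)⁻¹ * (1 + a * J.u 0 1 ^ 2 * (rZ J a)⁻¹ * w)
/-- `M` -/
noncomputable def rM : F := a * J.u 0 1 * (rZ J a)⁻¹ * w

/-- the vector `u_j^⊥` -/
noncomputable def rv (j : ℕ) : F[X] := X ^ j - C (ro J a w j) * X - C (rp J a w j)
/-- the vector `u^0` -/
noncomputable def r0 : F[X] := C w - C (rM J a w) * X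
/-- the vector `u^1` -/
noncomputable def r1 : F[X] := - C (rM J a w) + C (rE J a w) * X

/-- the function `f = -(3/2) a h_[2,2]` -/
noncomputable def rf : F := -(3 / 2) * a * rh J a w 2 2

/-- the potential `θ`, `f_t = θ'` -/
noncomputable def rth : F :=
  a * (-3 * rh J a w 2 4 + 3 / 2 * rh J a w 3 3 - 3 / 2 * rE J a w * rh J a w 2 2 ^ 2
    - 9 * ro J a w 2 ^ 2 * rh J a w 2 2 - 3 * ro J a w 3 * rh J a w 2 2
    - 3 * rp J a w 2 * rh J a w 2 2 + 9 * ro J a w 2 * rh J a w 2 3)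
    + 45 / 8 * a ^ 2 * rh J a w 2 2 ^ 2

/-- the symmetry of order five -/
noncomputable def G5 (J : Jet F) (f θ : F) : F[X] :=
  X ^ 5 + C (5 / 3 * f) * X ^ 3 + C (5 / 3 * J.D f) * X ^ 2
    + C (5 / 9 * (θ + 2 * J.D (J.D f) + f ^ 2)) * X

end Pool.Agent.Lib.MP_4d1bc1_mp.Kv
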