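import Pool.Agent.Lib.MP_4d1bc1_mp.Kv.NecA
import Pool.Agent.Lib.MP_4d1bc1_mp.Kv.Rows.RowCoef
import Pool.Agent.Lib.MP_4d1bc1_mp.Kv.Rows.RowS5
import Pool.Agent.Lib.MP_4d1bc1_mp.Kv.Rows.RowSym5
import Pool.Agent.Lib.MP_4d1bc1_mp.Kv.Rows.RowZ1
import Pool.Agent.Lib.MP_4d1bc1_mp.Kv.Rows.RowZ2
import Pool.Agent.Lib.MP_4d1bc1_mp.Kv.Rows.RowZ3
import Pool.Agent.Lib.MP_4d1bc1_mp.Kv.Rows.RowZ4
import Pool.Agent.Lib.MP_4d1bc1_mp.Kv.Rows.RowZ5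
import Pool.Agent.Lib.MP_4d1bc1_mp.Kv.Rows.RowZ6
import Pool.Agent.Lib.MP_4d1bc1_mp.Kv.Rows.RowY1
import Pool.Agent.Lib.MP_4d1bc1_mp.Kv.Rows.RowY2
import Pool.Agent.Lib.MP_4d1bc1_mp.Kv.Rows.RowN1
import Pool.Agent.Lib.MP_4d1bc1_mp.Kv.Rows.RowN3
import Pool.Agent.Lib.MP_4d1bc1_mp.Kv.Rows.RowN4
import Pool.Agent.Lib.MP_4d1bc1_mp.Kv.Rows.RowN5
import Pool.Agent.Lib.MP_4d1bc1_mp.Kv.Rows.RowN6
import Pool.Agent.Lib.MP_4d1bc1_mp.Kv.Rows.RowN7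

set_option autoImplicit false
set_option linter.unusedSimpArgs false

/-! The classification. -/

namespace Pool.Agent.Lib.MP_4d1bc1_mp.Kv

open Finset Polynomial

universe u

variable {F : Type u} [Field F] [Algebra ℝ F]

/-- the three families -/
def InList (J : Jet F) (f : F) : Prop :=
  (∃ c1 c0, J.IsC c1 ∧ J.IsC c0 ∧ f = c1 * J.u 0 0 + c0)
  ∨ (∃ a κ w c0, Red J a κ w ∧ J.IsC c0 ∧ f = rf J a w + c0)

variable {J : Jet F}

/-- the case `f_r = 0` -/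
theorem zero_case {f θ σ ψ : F} (hf : J.Six f) (hr : J.pd 2 2 f = 0)
    (hT : J.evo (Jet.K3 f) f = J.D θ) (hS : J.evo (Jet.K3 f) θ = J.D σ)
    (hP : J.evo (Jet.K3 f) (σ + f * θ - f ^ 3 / 3 + J.D f ^ 2) = J.D ψ) :
    ∃ c1 c0, J.IsC c1 ∧ J.IsC c0 ∧ f = c1 * J.u 0 0 + c0 := by
  have := J.charZero
  obtain ⟨h0, hθ⟩ := Jet.cos_mth hf hT hS
  obtain ⟨hA, hq⟩ := Z1 hf hr h0 hθ
  obtain ⟨g, η, hg, hη, hform⟩ := Z2 hf hr h0 hA hq
  obtain ⟨hε, hgx⟩ := Z3 hg hη hq hA hform hθ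
  rw [hε] at hform
  obtain ⟨c, S, hc, hSx, hkg, hkc, hSc, hηe⟩ := Z4 hgx hη hA hform h0 hθ
  generalize J.cA f = k at hA hform hkg hkc hSc hηe
  by_cases hk0 : k = 0
  · -- `A = 0`
    subst hk0
    have hS1 : J.IsC (J.pd 0 0 S) := by
      have h1 : J.pd 0 0 S = (3 * J.pd 0 0 S + 0 * S) / 3 := by ring
      rw [h1]
      exact hSc.div (Jet.isC_ofNat 3)
    have hc0 : J.IsC (S - J.pd 0 0 S * J.u 0 0) := by
      apply Jet.isC_of_D_zero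
      rw [map_sub, hS1.D_mul, hSx.D, J.D_u, J.u_symm 1 0]
      ring
    have hgD : J.D (g * J.u 0 1) = 2 * J.pd 0 0 g * J.u 0 1 ^ 2
        + g * (J.u 0 2 + J.u 1 1) := by
      rw [der_mul, hgx.D, J.D_u]
      ring
    have hform2 : f = J.D (g * J.u 0 1) - c * J.u 0 1 + J.pd 0 0 S * J.u 0 0
        + (S - J.pd 0 0 S * J.u 0 0) := by
      rw [hgD, hform, hηe]
      ring
    obtain ⟨hcz, h1 | h1⟩ := Z5 hgx hc hS1 hc0 hform2 hθ
    · refine ⟨_, _, hS1, hc0, ?_⟩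
      rw [hform2, hcz, h1]
      simp
    · have hform3 : f = J.D (g * J.u 0 1) + (S - J.pd 0 0 S * J.u 0 0) := by
        rw [hform2, hcz, h1]; ring
      have hg0 := Y2 hgx hc0 hform3 hT hS hP
      refine ⟨_, _, hS1, hc0, ?_⟩
      rw [hform2, hcz, hg0]
      simp
  · exfalso
    have hg0 : J.pd 0 0 g = 0 := (mul_eq_zero.1 hkg).resolve_left hk0
    have hcz : c = 0 := (mul_eq_zero.1 hkc).resolve_left hk0
    have hgc : J.IsC g := by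
      apply Jet.isC_of_D_zero
      rw [hgx.D, hg0, mul_zero]
    have hS2 : 3 * J.pd 0 0 (J.pd 0 0 S) + k * J.pd 0 0 S = 0 := by
      have h1 := hSc.pd 0 0
      rw [map_add, (Jet.isC_ofNat 3).pd_mul, hA.pd_mul] at h1
      exact h1
    have hform2 : f = g * (J.u 0 2 + J.u 1 1) + k / 2 * J.u 1 1
        + k * g / 6 * J.u 0 1 ^ 2 + S := by
      rw [hform, hηe, hg0, hcz]
      ring
    obtain ⟨hgz, hSz⟩ := Z6 hgc hSx hA hk0 hS2 hform2 hθ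
    refine Y1 (a := k / 2) (hA.div (Jet.isC_ofNat 2)) (div_ne_zero hk0 two_ne_zero) hSz ?_
      hT hS hP
    rw [hform2, hgz]
    ring

/-- the case `f_r ≠ 0` -/
theorem nonzero_case {f θ σ : F} (hf : J.Six f) (hr : J.pd 2 2 f ≠ 0)
    (hT : J.evo (Jet.K3 f) f = J.D θ) (hS : J.evo (Jet.K3 f) θ = J.D σ) :
    ∃ a κ w c0, Red J a κ w ∧ J.IsC c0 ∧ f = rf J a w + c0 := by
  have := J.charZero
  obtain ⟨h0, hθ⟩ := Jet.cos_mth hf hT hS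
  have hα := Jet.isC_pd22 hf h0
  obtain ⟨a, ha⟩ : ∃ a, a = -(2 / 3) * J.pd 2 2 f := ⟨_, rfl⟩
  have hac : J.IsC a := by
    rw [ha]
    exact ((Jet.isC_ofNat 2).div (Jet.isC_ofNat 3)).neg.mul hα
  have ha0 : a ≠ 0 := by
    rw [ha]
    exact mul_ne_zero (by norm_num) hr
  have hra : J.pd 2 2 f = -(3 / 2) * a := by rw [ha]; ring
  obtain ⟨k, hk, hA, P1, P2⟩ := N1 hf hac ha0 hra h0
  obtain ⟨R1, R0⟩ := N3 hf hac ha0 hra h0 hk hA P1 P2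
  obtain ⟨b, hb, -, hp, b0, b1, b2⟩ := N4 hf hac ha0 hra hk P1 P2 R1 R0
  obtain ⟨κ, w, d, R, hd, hform, hdd⟩ := N5 hf hac ha0 hra hk P1 P2 hb hp b0 b1 b2
  have hW := N6 hf hac ha0 hra h0 hk hA P1 hθ hT
  have hc0 : J.IsC (-(k / (4 * a))) := (hk.div ((Jet.isC_ofNat 4).mul hac)).neg
  have hk' : k = -(4 * a * -(k / (4 * a))) := by field_simp
  rw [hk'] at hW
  have hd0 := N7 R hd hc0 (by rw [hform]; ring) hdd hT hW
  refine ⟨a, κ, w, -(k / (4 * a)), R, hc0, ?_⟩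
  rw [hform, hd0]
  ring

/-- necessary condition -/
theorem necessary {f : F} (hf : J.Six f) {m : ℕ} (hm : 8 ≤ m) {G : F[X]}
    (hG : G.natDegree = m) (h : J.evoV (Jet.K3 f) G = J.evoV G (Jet.K3 f)) : InList J f := by
  have hbig : ∀ i, m < i → G.coeff i = 0 := fun i hi =>
    coeff_eq_zero_of_natDegree_lt (by rw [hG]; exact hi)
  have hlead : G.coeff m ≠ 0 := by
    intro h1
    have h2 : G = 0 := by
      rw [← hG] at h1
      exact leadingCoeff_eq_zero.1 h1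
    rw [h2, natDegree_zero] at hG
    omega
  obtain ⟨e2, e1, he⟩ := coef_top J h hbig hm
  obtain ⟨θ, σ, ψ, hT, hS, hP⟩ := Nec.nec_alg J (c := fun s => G.coeff (m - s)) hm
    (by simpa using hlead) (by simpa using e2) (by simpa using e1) (by simpa using he)
  by_cases hr : J.pd 2 2 f = 0
  · exact Or.inl (zero_case hf hr hT hS hP)
  · exact Or.inr (nonzero_case hf hr hT hS)

/-- sufficient condition -/
theorem sufficient {f : F} (h : InList J f) :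
    ∃ G : F[X], G.natDegree = 5 ∧ J.evoV (Jet.K3 f) G = J.evoV G (Jet.K3 f) := by
  rcases h with ⟨c1, c0, h1, h0, rfl⟩ | ⟨a, κ, w, c0, R, hc, rfl⟩
  · exact sym_mkdv J h1 h0
  · exact ⟨_, G5_natDegree J _ _, sym_shift J hc (sym5 J R.evo_f R.s5)⟩

end Pool.Agent.Lib.MP_4d1bc1_mp.Kv
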