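import Pool.Agent.Lib.MP_4d1bc1_mp.Kv.NecU

set_option autoImplicit false
set_option linter.unusedSimpArgs false

/-! The necessary conditions for a symmetry of order at least eight. -/

namespace Pool.Agent.Lib.MP_4d1bc1_mp.Kv

open Finset Polynomial

universe u

variable {F : Type u} [Field F] [Algebra ℝ F]

namespace Nec

variable (J : Jet F)

theorem U2' {f n : F} (hn : J.IsC n) :
    J.evo (Jet.K3 f) (h2 n f) - 3 * J.D (h4 J n f 0) - 3 * J.D (J.D (h3 J n f)) - J.D (J.D (J.D (h2 n f))) - f * J.D (h2 n f) + (n * (n - 1) * (n - 2) / 6) * J.D (J.D (J.D (f))) + (n - 2) * (h2 n f * J.D (f)) = 1 / 3 * n * J.evo (Jet.K3 f) f := by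
  have := J.charZero
  have hD := hn.D
  have hTn := hn.evo (Jet.K3 f)
  have hp : ∀ k, J.D (n ^ k) = 0 := fun k => (hn.pow k).D
  have hq : ∀ k, J.evo (Jet.K3 f) (n ^ k) = 0 := fun k => (hn.pow k).evo _
  simp only [h2, h3, h4, map_add, map_sub, map_neg, map_zero, der_mul, der_divn, dnum,
    Derivation.map_one_eq_zero, hD, hTn, hp, hq, zero_div, neg_zero, mul_zero, zero_mul, zero_add,
    add_zero, sub_zero, zero_sub, Jet.evo_D, der_sq, der_cube]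
  ring

theorem U4' {f θ n : F} (hn : J.IsC n) (hT : J.evo (Jet.K3 f) f = J.D θ) :
    J.evo (Jet.K3 f) (h4 J n f θ) - 3 * J.D (h6 J n f θ 0) - 3 * J.D (J.D (h5 J n f θ)) - J.D (J.D (J.D (h4 J n f θ))) - f * J.D (h4 J n f θ) + (n * (n - 1) * (n - 2) * (n - 3) * (n - 4) / 120) * J.D (J.D (J.D (J.D (J.D (f))))) + ((n - 2) * ((n - 2) - 1) * ((n - 2) - 2) / 6) * (h2 n f * J.D (J.D (J.D (f)))) + ((n - 3) * ((n - 3) - 1) / 2) * (h3 J n f * J.D (J.D (f))) + (n - 4) * (h4 J n f θ * J.D (f)) = 1 / 9 * n * J.evo (Jet.K3 f) θ := by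
  have := J.charZero
  have hD := hn.D
  have hTn := hn.evo (Jet.K3 f)
  have hp : ∀ k, J.D (n ^ k) = 0 := fun k => (hn.pow k).D
  have hq : ∀ k, J.evo (Jet.K3 f) (n ^ k) = 0 := fun k => (hn.pow k).evo _
  simp only [h2, h3, h4, h5, h6, map_add, map_sub, map_neg, map_zero, der_mul, der_divn, dnum,
    Derivation.map_one_eq_zero, hD, hTn, hp, hq, zero_div, neg_zero, mul_zero, zero_mul, zero_add,
    add_zero, sub_zero, zero_sub, Jet.evo_D, der_sq, der_cube, hT]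
  ring

omit [Algebra ℝ F] in
theorem choose_succ_cast [CharZero F] (N k : ℕ) : ((N.choose (k + 1) : ℕ) : F)
    = (N.choose k : F) * ((N : F) - k) / (k + 1) := by
  have h1 : ((k : F) + 1) ≠ 0 := by exact_mod_cast Nat.succ_ne_zero k
  rw [eq_div_iff h1]
  rcases Nat.lt_or_ge N k with h | h
  · rw [Nat.choose_eq_zero_of_lt h, Nat.choose_eq_zero_of_lt (by omega)]; simp
  · have h2 := Nat.choose_succ_right_eq N k
    have h3 : (((N - k : ℕ)) : F) = (N : F) - k := by rw [Nat.cast_sub h]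
    have h4 : ((N.choose (k + 1) * (k + 1) : ℕ) : F) = ((N.choose k * (N - k) : ℕ) : F) := by
      rw [h2]
    push_cast at h4
    rw [h3] at h4
    exact h4

omit [Algebra ℝ F] in
theorem ch1 [CharZero F] (N : ℕ) : ((N.choose 1 : ℕ) : F) = (N : F) / 1 := by
  simp

omit [Algebra ℝ F] in
theorem ch2 [CharZero F] (N : ℕ) : ((N.choose 2 : ℕ) : F) = (N : F) * ((N : F) - 1) / 2 := by
  rw [choose_succ_cast, ch1]
  push_cast
  ring

omit [Algebra ℝ F] in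
theorem ch3 [CharZero F] (N : ℕ) : ((N.choose 3 : ℕ) : F) = (N : F) * ((N : F) - 1) * ((N : F) - 2) / 6 := by
  rw [choose_succ_cast, ch2]
  push_cast
  ring

omit [Algebra ℝ F] in
theorem ch4 [CharZero F] (N : ℕ) : ((N.choose 4 : ℕ) : F) = (N : F) * ((N : F) - 1) * ((N : F) - 2) * ((N : F) - 3) / 24 := by
  rw [choose_succ_cast, ch3]
  push_cast
  ring

omit [Algebra ℝ F] in
theorem ch5 [CharZero F] (N : ℕ) : ((N.choose 5 : ℕ) : F) = (N : F) * ((N : F) - 1) * ((N : F) - 2) * ((N : F) - 3) * ((N : F) - 4) / 120 := by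
  rw [choose_succ_cast, ch4]
  push_cast
  ring

omit [Algebra ℝ F] in
theorem ch6 [CharZero F] (N : ℕ) : ((N.choose 6 : ℕ) : F) = (N : F) * ((N : F) - 1) * ((N : F) - 2) * ((N : F) - 3) * ((N : F) - 4) * ((N : F) - 5) / 720 := by
  rw [choose_succ_cast, ch5]
  push_cast
  ring

omit [Algebra ℝ F] in
theorem ch7 [CharZero F] (N : ℕ) : ((N.choose 7 : ℕ) : F) = (N : F) * ((N : F) - 1) * ((N : F) - 2) * ((N : F) - 3) * ((N : F) - 4) * ((N : F) - 5) * ((N : F) - 6) / 5040 := by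
  rw [choose_succ_cast, ch6]
  push_cast
  ring

theorem nec_alg {f : F} {c : ℕ → F} {m : ℕ} (hm : 8 ≤ m) (hc : c 0 ≠ 0)
    (e2 : J.D (c 0) = 0) (e1 : J.D (c 1) + J.D (J.D (c 0)) = 0)
    (he : ∀ s, s ≤ 6 → J.evo (Jet.K3 f) (c s) - J.D (J.D (J.D (c s)))
      - 3 * J.D (J.D (c (s + 1))) - 3 * J.D (c (s + 2)) - f * J.D (c s)
      + ∑ a ∈ range (s + 1), (((m - a).choose (s - a + 1) : ℕ) : F)
          * (c a * J.D^[s - a + 1] f) = 0) :
    ∃ θ σ ψ : F, J.evo (Jet.K3 f) f = J.D θ ∧ J.evo (Jet.K3 f) θ = J.D σ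
      ∧ J.evo (Jet.K3 f) (σ + f * θ - f ^ 3 / 3 + J.D f ^ 2) = J.D ψ := by
  have := J.charZero
  have hm0 : (m : F) ≠ 0 := by
    have : m ≠ 0 := by omega
    exact_mod_cast this
  have g0 : J.IsC (c 0) := Jet.isC_of_D_zero e2
  have g1 : J.IsC (c 1) := by
    apply Jet.isC_of_D_zero
    rw [e2, map_zero, add_zero] at e1
    exact e1
  have cn : ∀ j : ℕ, J.IsC ((m : F) - j) := fun j => (Jet.isC_natCast m).sub (Jet.isC_natCast j)
  have cn0 : J.IsC (m : F) := Jet.isC_natCast m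
  have cn1 : J.IsC ((m : F) - 1) := by simpa using cn 1
  have cn2 : J.IsC ((m : F) - 2) := by simpa using cn 2
  have cn3 : J.IsC ((m : F) - 3) := by simpa using cn 3
  have cn4 : J.IsC ((m : F) - 4) := by simpa using cn 4
  have cn5 : J.IsC ((m : F) - 5) := by simpa using cn 5
  have cn6 : J.IsC ((m : F) - 6) := by simpa using cn 6
  have s0 : ((m - 0 : ℕ) : F) = (m : F) := by simp
  have s1 : ((m - 1 : ℕ) : F) = (m : F) - 1 := by
    rw [Nat.cast_sub (by omega)]; norm_num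
  have s2 : ((m - 2 : ℕ) : F) = (m : F) - 2 := by
    rw [Nat.cast_sub (by omega)]; norm_num
  have s3 : ((m - 3 : ℕ) : F) = (m : F) - 3 := by
    rw [Nat.cast_sub (by omega)]; norm_num
  have s4 : ((m - 4 : ℕ) : F) = (m : F) - 4 := by
    rw [Nat.cast_sub (by omega)]; norm_num
  have s5 : ((m - 5 : ℕ) : F) = (m : F) - 5 := by
    rw [Nat.cast_sub (by omega)]; norm_num
  have s6 : ((m - 6 : ℕ) : F) = (m : F) - 6 := by
    rw [Nat.cast_sub (by omega)]; norm_num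
  have s7 : ((m - 7 : ℕ) : F) = (m : F) - 7 := by
    rw [Nat.cast_sub (by omega)]; norm_num
  have D0 : ∀ x, J.D (c 0 * x) = c 0 * J.D x := fun x => g0.D_mul x
  have T0 : ∀ x, J.evo (Jet.K3 f) (c 0 * x) = c 0 * J.evo (Jet.K3 f) x := fun x => g0.evo_mul _ x
  have D1 : ∀ x, J.D (c 1 * x) = c 1 * J.D x := fun x => g1.D_mul x
  have T1 : ∀ x, J.evo (Jet.K3 f) (c 1 * x) = c 1 * J.evo (Jet.K3 f) x := fun x => g1.evo_mul _ x
  have z0 := g0.D
  have z0' := g0.evo (Jet.K3 f)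
  have z1 := g1.D
  have z1' := g1.evo (Jet.K3 f)
  have E0 := he 0 (by norm_num)
  simp only [sum_range_succ, sum_range_zero, Nat.sub_self, Nat.reduceSub, Nat.reduceAdd, Nat.sub_zero, zero_add, add_zero, ch1, ch2, ch3, ch4, ch5, ch6, ch7, s0, s1, s2, s3, s4, s5, s6,
    Function.iterate_succ, Function.iterate_zero, Function.comp_apply, id_eq, map_add, map_zero, mul_zero, zero_mul, sub_zero, zero_sub, D0, T0, D1, T1, z0, z0', z1, z1'] at E0
  have u0_0 := U0 J (f := f) cn0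
  have k2 : J.IsC (c 2 - (c 0 * h2 (m : F) f)) := by
    apply Jet.isC_of_D_zero
    simp only [map_sub, map_add, D0, D1]
    linear_combination (-1 / 3) * E0 + 1 / 3 * c 0 * u0_0
  obtain ⟨γ2, hγ2⟩ : ∃ γ, γ = c 2 - (c 0 * h2 (m : F) f) := ⟨_, rfl⟩
  rw [← hγ2] at k2
  have hc2 : c 2 = c 0 * h2 (m : F) f + γ2 := by rw [hγ2]; ring
  have D2 : ∀ x, J.D (γ2 * x) = γ2 * J.D x := fun x => k2.D_mul x
  have T2 : ∀ x, J.evo (Jet.K3 f) (γ2 * x) = γ2 * J.evo (Jet.K3 f) x := fun x => k2.evo_mul _ x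
  have z2 := k2.D
  have z2' := k2.evo (Jet.K3 f)
  have E1 := he 1 (by norm_num)
  simp only [sum_range_succ, sum_range_zero, Nat.sub_self, Nat.reduceSub, Nat.reduceAdd, Nat.sub_zero, zero_add, add_zero, ch1, ch2, ch3, ch4, ch5, ch6, ch7, s0, s1, s2, s3, s4, s5, s6,
    Function.iterate_succ, Function.iterate_zero, Function.comp_apply, id_eq, map_add, map_zero, mul_zero, zero_mul, sub_zero, zero_sub, D0, T0, D1, T1, z0, z0', z1, z1', hc2, D2, T2, z2, z2'] at E1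
  have u1_0 := U1 J (f := f) cn0
  have u1_1 := U0 J (f := f) cn1
  have k3 : J.IsC (c 3 - (c 0 * h3 J (m : F) f + c 1 * h2 ((m : F) - 1) f)) := by
    apply Jet.isC_of_D_zero
    simp only [map_sub, map_add, D0, D1, D2]
    linear_combination (-1 / 3) * E1 + 1 / 3 * c 0 * u1_0 + 1 / 3 * c 1 * u1_1
  obtain ⟨γ3, hγ3⟩ : ∃ γ, γ = c 3 - (c 0 * h3 J (m : F) f + c 1 * h2 ((m : F) - 1) f) := ⟨_, rfl⟩
  rw [← hγ3] at k3
  have hc3 : c 3 = c 0 * h3 J (m : F) f + c 1 * h2 ((m : F) - 1) f + γ3 := by rw [hγ3]; ring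
  have D3 : ∀ x, J.D (γ3 * x) = γ3 * J.D x := fun x => k3.D_mul x
  have T3 : ∀ x, J.evo (Jet.K3 f) (γ3 * x) = γ3 * J.evo (Jet.K3 f) x := fun x => k3.evo_mul _ x
  have z3 := k3.D
  have z3' := k3.evo (Jet.K3 f)
  have E2 := he 2 (by norm_num)
  simp only [sum_range_succ, sum_range_zero, Nat.sub_self, Nat.reduceSub, Nat.reduceAdd, Nat.sub_zero, zero_add, add_zero, ch1, ch2, ch3, ch4, ch5, ch6, ch7, s0, s1, s2, s3, s4, s5, s6,
    Function.iterate_succ, Function.iterate_zero, Function.comp_apply, id_eq, map_add, map_zero, mul_zero, zero_mul, sub_zero, zero_sub, D0, T0, D1, T1, z0, z0', z1, z1', hc2, hc3, D2, T2, z2, z2', D3, T3, z3, z3'] at E2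
  have u2_0 := U2' J (f := f) cn0
  have u2_1 := U1 J (f := f) cn1
  have u2_2 := U0 J (f := f) cn2
  obtain ⟨θ, hθ⟩ : ∃ θ, θ = 9 / ((m : F) * c 0) * (c 4 - (c 0 * h4 J (m : F) f 0 + c 1 * h3 J ((m : F) - 1) f + γ2 * h2 ((m : F) - 2) f)) := ⟨_, rfl⟩
  have hT : J.evo (Jet.K3 f) f = J.D θ := by
    have hcst : J.IsC (9 / ((m : F) * c 0)) := (Jet.isC_ofNat 9).div (cn0.mul g0)
    rw [hθ, hcst.D_mul]
    simp only [map_sub, map_add, D0, D1, D2, z2]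
    field_simp
    linear_combination 3 * E2 - 3 * c 0 * u2_0 - 3 * c 1 * u2_1 - 3 * γ2 * u2_2
  have hc4 : c 4 = c 0 * h4 J (m : F) f θ + c 1 * h3 J ((m : F) - 1) f + γ2 * h2 ((m : F) - 2) f := by
    have h4e : h4 J (m : F) f θ = h4 J (m : F) f 0 + 1 / 9 * (m : F) * θ := by
      simp only [h4]; ring
    rw [h4e, hθ]
    field_simp
    ring
  have E3 := he 3 (by norm_num)
  simp only [sum_range_succ, sum_range_zero, Nat.sub_self, Nat.reduceSub, Nat.reduceAdd, Nat.sub_zero, zero_add, add_zero, ch1, ch2, ch3, ch4, ch5, ch6, ch7, s0, s1, s2, s3, s4, s5, s6,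
    Function.iterate_succ, Function.iterate_zero, Function.comp_apply, id_eq, map_add, map_zero, mul_zero, zero_mul, sub_zero, zero_sub, D0, T0, D1, T1, z0, z0', z1, z1', hc2, hc3, hc4, D2, T2, z2, z2', D3, T3, z3, z3'] at E3
  have u3_0 := U3 J cn0 hT
  have u3_1 := U2 J cn1 hT
  have u3_2 := U1 J (f := f) cn2
  have u3_3 := U0 J (f := f) cn3
  have k5 : J.IsC (c 5 - (c 0 * h5 J (m : F) f θ + c 1 * h4 J ((m : F) - 1) f θ + γ2 * h3 J ((m : F) - 2) f + γ3 * h2 ((m : F) - 3) f)) := by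
    apply Jet.isC_of_D_zero
    simp only [map_sub, map_add, D0, D1, D2, D3]
    linear_combination (-1 / 3) * E3 + 1 / 3 * c 0 * u3_0 + 1 / 3 * c 1 * u3_1 + 1 / 3 * γ2 * u3_2 + 1 / 3 * γ3 * u3_3
  obtain ⟨γ5, hγ5⟩ : ∃ γ, γ = c 5 - (c 0 * h5 J (m : F) f θ + c 1 * h4 J ((m : F) - 1) f θ + γ2 * h3 J ((m : F) - 2) f + γ3 * h2 ((m : F) - 3) f) := ⟨_, rfl⟩
  rw [← hγ5] at k5
  have hc5 : c 5 = c 0 * h5 J (m : F) f θ + c 1 * h4 J ((m : F) - 1) f θ + γ2 * h3 J ((m : F) - 2) f + γ3 * h2 ((m : F) - 3) f + γ5 := by rw [hγ5]; ring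
  have D5 : ∀ x, J.D (γ5 * x) = γ5 * J.D x := fun x => k5.D_mul x
  have T5 : ∀ x, J.evo (Jet.K3 f) (γ5 * x) = γ5 * J.evo (Jet.K3 f) x := fun x => k5.evo_mul _ x
  have z5 := k5.D
  have z5' := k5.evo (Jet.K3 f)
  have E4 := he 4 (by norm_num)
  simp only [sum_range_succ, sum_range_zero, Nat.sub_self, Nat.reduceSub, Nat.reduceAdd, Nat.sub_zero, zero_add, add_zero, ch1, ch2, ch3, ch4, ch5, ch6, ch7, s0, s1, s2, s3, s4, s5, s6,
    Function.iterate_succ, Function.iterate_zero, Function.comp_apply, id_eq, map_add, map_zero, mul_zero, zero_mul, sub_zero, zero_sub, D0, T0, D1, T1, z0, z0', z1, z1', hc2, hc3, hc4, hc5, D2, T2, z2, z2', D3, T3, z3, z3', D5, T5, z5, z5'] at E4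
  have u4_0 := U4' J cn0 hT
  have u4_1 := U3 J cn1 hT
  have u4_2 := U2 J cn2 hT
  have u4_3 := U1 J (f := f) cn3
  obtain ⟨σ, hσ⟩ : ∃ σ, σ = 27 / ((m : F) * c 0) * (c 6 - (c 0 * h6 J (m : F) f θ 0 + c 1 * h5 J ((m : F) - 1) f θ + γ2 * h4 J ((m : F) - 2) f θ + γ3 * h3 J ((m : F) - 3) f)) := ⟨_, rfl⟩
  have hS : J.evo (Jet.K3 f) θ = J.D σ := by
    have hcst : J.IsC (27 / ((m : F) * c 0)) := (Jet.isC_ofNat 27).div (cn0.mul g0)
    rw [hσ, hcst.D_mul]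
    simp only [map_sub, map_add, D0, D1, D2, D3, z2, z3]
    field_simp
    linear_combination 9 * E4 - 9 * c 0 * u4_0 - 9 * c 1 * u4_1 - 9 * γ2 * u4_2 - 9 * γ3 * u4_3
  have hc6 : c 6 = c 0 * h6 J (m : F) f θ σ + c 1 * h5 J ((m : F) - 1) f θ + γ2 * h4 J ((m : F) - 2) f θ + γ3 * h3 J ((m : F) - 3) f := by
    have h6e : h6 J (m : F) f θ σ = h6 J (m : F) f θ 0 + 1 / 27 * (m : F) * σ := by
      simp only [h6]; ring
    rw [h6e, hσ]
    field_simp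
    ring
  have E5 := he 5 (by norm_num)
  simp only [sum_range_succ, sum_range_zero, Nat.sub_self, Nat.reduceSub, Nat.reduceAdd, Nat.sub_zero, zero_add, add_zero, ch1, ch2, ch3, ch4, ch5, ch6, ch7, s0, s1, s2, s3, s4, s5, s6,
    Function.iterate_succ, Function.iterate_zero, Function.comp_apply, id_eq, map_add, map_zero, mul_zero, zero_mul, sub_zero, zero_sub, D0, T0, D1, T1, z0, z0', z1, z1', hc2, hc3, hc4, hc5, hc6, D2, T2, z2, z2', D3, T3, z3, z3', D5, T5, z5, z5'] at E5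
  have u5_0 := U5 J cn0 hT hS
  have u5_1 := U4 J cn1 hT hS
  have u5_2 := U3 J cn2 hT
  have u5_3 := U2 J cn3 hT
  have u5_5 := U0 J (f := f) cn5
  have k7 : J.IsC (c 7 - (c 0 * h7 J (m : F) f θ σ + c 1 * h6 J ((m : F) - 1) f θ σ + γ2 * h5 J ((m : F) - 2) f θ + γ3 * h4 J ((m : F) - 3) f θ + γ5 * h2 ((m : F) - 5) f)) := by
    apply Jet.isC_of_D_zero
    simp only [map_sub, map_add, D0, D1, D2, D3, D5]
    linear_combination (-1 / 3) * E5 + 1 / 3 * c 0 * u5_0 + 1 / 3 * c 1 * u5_1 + 1 / 3 * γ2 * u5_2 + 1 / 3 * γ3 * u5_3 + 1 / 3 * γ5 * u5_5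
  obtain ⟨γ7, hγ7⟩ : ∃ γ, γ = c 7 - (c 0 * h7 J (m : F) f θ σ + c 1 * h6 J ((m : F) - 1) f θ σ + γ2 * h5 J ((m : F) - 2) f θ + γ3 * h4 J ((m : F) - 3) f θ + γ5 * h2 ((m : F) - 5) f) := ⟨_, rfl⟩
  rw [← hγ7] at k7
  have hc7 : c 7 = c 0 * h7 J (m : F) f θ σ + c 1 * h6 J ((m : F) - 1) f θ σ + γ2 * h5 J ((m : F) - 2) f θ + γ3 * h4 J ((m : F) - 3) f θ + γ5 * h2 ((m : F) - 5) f + γ7 := by rw [hγ7]; ring
  have D7 : ∀ x, J.D (γ7 * x) = γ7 * J.D x := fun x => k7.D_mul x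
  have T7 : ∀ x, J.evo (Jet.K3 f) (γ7 * x) = γ7 * J.evo (Jet.K3 f) x := fun x => k7.evo_mul _ x
  have z7 := k7.D
  have z7' := k7.evo (Jet.K3 f)
  have E6 := he 6 (by norm_num)
  simp only [sum_range_succ, sum_range_zero, Nat.sub_self, Nat.reduceSub, Nat.reduceAdd, Nat.sub_zero, zero_add, add_zero, ch1, ch2, ch3, ch4, ch5, ch6, ch7, s0, s1, s2, s3, s4, s5, s6,
    Function.iterate_succ, Function.iterate_zero, Function.comp_apply, id_eq, map_add, map_zero, mul_zero, zero_mul, sub_zero, zero_sub, D0, T0, D1, T1, z0, z0', z1, z1', hc2, hc3, hc4, hc5, hc6, hc7, D2, T2, z2, z2', D3, T3, z3, z3', D5, T5, z5, z5', D7, T7, z7, z7'] at E6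
  have u6_0 := U6 J cn0 hT hS
  have u6_1 := U5 J cn1 hT hS
  have u6_2 := U4 J cn2 hT hS
  have u6_3 := U3 J cn3 hT
  have u6_5 := U1 J (f := f) cn5
  refine ⟨θ, σ, 27 / ((m : F) * c 0) * (3 * c 8 - c 0 * h8 J (m : F) f θ σ - 3 * (c 1 * h7 J ((m : F) - 1) f θ σ + γ2 * h6 J ((m : F) - 2) f θ σ + γ3 * h5 J ((m : F) - 3) f θ + γ5 * h3 J ((m : F) - 5) f)), hT, hS, ?_⟩
  have hcst : J.IsC (27 / ((m : F) * c 0)) := (Jet.isC_ofNat 27).div (cn0.mul g0)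
  have D3' : ∀ x, J.D (3 * x) = 3 * J.D x := fun x => (Jet.isC_ofNat 3).D_mul x
  generalize J.evo (Jet.K3 f) (σ + f * θ - f ^ 3 / 3 + J.D f ^ 2) = R at u6_0 ⊢
  rw [hcst.D_mul]
  simp only [map_sub, map_add, D0, D1, D2, D3, D5, D3']
  field_simp
  linear_combination 27 * E6 - 27 * c 0 * u6_0 - 27 * c 1 * u6_1 - 27 * γ2 * u6_2 - 27 * γ3 * u6_3 - 27 * γ5 * u6_5

end Nec

end Pool.Agent.Lib.MP_4d1bc1_mp.Kv
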