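import Pool.Agent.Lib.MP_4d1bc1_mp.Kv.Theta

set_option autoImplicit false
set_option linter.unusedSimpArgs false

/-! The necessary conditions for a symmetry of order at least eight. -/

namespace Pool.Agent.Lib.MP_4d1bc1_mp.Kv

open Finset Polynomial

universe u

variable {F : Type u} [Field F] [Algebra ℝ F]

theorem der_divn (δ : Derivation ℝ F F) (a : F) (n : ℕ) [n.AtLeastTwo] :
    δ (a / ofNat(n)) = δ a / ofNat(n) := by
  rw [div_eq_mul_inv, der_mul, der_inv_zero δ (dnum δ n), mul_zero, add_zero, div_eq_mul_inv]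

theorem der_sq (δ : Derivation ℝ F F) (a : F) : δ (a ^ 2) = 2 * a * δ a := by
  rw [pow_two, der_mul]; ring

theorem der_cube (δ : Derivation ℝ F F) (a : F) : δ (a ^ 3) = 3 * a ^ 2 * δ a := by
  rw [pow_succ, der_mul, der_sq]; ring

namespace Nec

variable (J : Jet F)

/-- universal coefficient of weight 2 -/
noncomputable def h2 (n f : F) : F :=
  ((1/3) * n) * (f)

/-- universal coefficient of weight 3 -/
noncomputable def h3 (n f : F) : F :=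
  ((-1/2) * n + (1/6) * n ^ 2) * ((J.D f))

/-- universal coefficient of weight 4 -/
noncomputable def h4 (n f θ : F) : F :=
  ((-1/6) * n + (1/18) * n ^ 2) * (f * f)
      + ((1/2) * n + (-1/3) * n ^ 2 + (1/18) * n ^ 3) * ((J.D (J.D f)))
      + ((1/9) * n) * (θ)

/-- universal coefficient of weight 5 -/
noncomputable def h5 (n f θ : F) : F :=
  ((5/6) * n + (-4/9) * n ^ 2 + (1/18) * n ^ 3) * (f * (J.D f))
      + ((-5/12) * n + (31/72) * n ^ 2 + (-5/36) * n ^ 3 + (1/72) * n ^ 4) * ((J.D (J.D (J.D f))))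
      + ((-5/18) * n + (1/18) * n ^ 2) * ((J.D θ))

/-- universal coefficient of weight 6 -/
noncomputable def h6 (n f θ σ : F) : F :=
  ((1/9) * n + (-1/18) * n ^ 2 + (1/162) * n ^ 3) * (f * f * f)
      + ((-4/3) * n + 1 * n ^ 2 + (-13/54) * n ^ 3 + (1/54) * n ^ 4) * (f * (J.D (J.D f)))
      + ((-4/27) * n + (1/27) * n ^ 2) * (f * θ)
      + ((-5/4) * n + (7/8) * n ^ 2 + (-7/36) * n ^ 3 + (1/72) * n ^ 4) * ((J.D f) * (J.D f))
      + ((19/60) * n + (-11/24) * n ^ 2 + (47/216) * n ^ 3 + (-1/24) * n ^ 4 + (1/360) * n ^ 5) * ((J.D (J.D (J.D (J.D f)))))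
      + ((1/27) * n) * (σ)
      + ((11/27) * n + (-1/6) * n ^ 2 + (1/54) * n ^ 3) * ((J.D (J.D θ)))

/-- universal coefficient of weight 7 -/
noncomputable def h7 (n f θ σ : F) : F :=
  ((-7/6) * n + (3/4) * n ^ 2 + (-4/27) * n ^ 3 + (1/108) * n ^ 4) * (f * f * (J.D f))
      + ((7/4) * n + (-41/24) * n ^ 2 + (43/72) * n ^ 3 + (-19/216) * n ^ 4 + (1/216) * n ^ 5) * (f * (J.D (J.D (J.D f))))
      + ((14/27) * n + (-11/54) * n ^ 2 + (1/54) * n ^ 3) * (f * (J.D θ))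
      + ((14/3) * n + (-25/6) * n ^ 2 + (145/108) * n ^ 3 + (-5/27) * n ^ 4 + (1/108) * n ^ 5) * ((J.D f) * (J.D (J.D f)))
      + ((14/27) * n + (-11/54) * n ^ 2 + (1/54) * n ^ 3) * ((J.D f) * θ)
      + ((-7/30) * n + (53/120) * n ^ 2 + (-119/432) * n ^ 3 + (11/144) * n ^ 4 + (-7/720) * n ^ 5 + (1/2160) * n ^ 6) * ((J.D (J.D (J.D (J.D (J.D f))))))
      + ((-7/54) * n + (1/54) * n ^ 2) * ((J.D σ))
      + ((-49/108) * n + (7/24) * n ^ 2 + (-7/108) * n ^ 3 + (1/216) * n ^ 4) * ((J.D (J.D (J.D θ))))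

/-- universal coefficient of weight 8 -/
noncomputable def h8 (n f θ σ : F) : F :=
  ((-1/4) * n + (11/72) * n ^ 2 + (-1/36) * n ^ 3 + (1/648) * n ^ 4) * (f * f * f * f)
      + ((47/6) * n + (-25/4) * n ^ 2 + (191/108) * n ^ 3 + (-23/108) * n ^ 4 + (1/108) * n ^ 5) * (f * f * (J.D (J.D f)))
      + ((14/27) * n + (-11/54) * n ^ 2 + (1/54) * n ^ 3) * (f * f * θ)
      + ((83/6) * n + (-32/3) * n ^ 2 + (625/216) * n ^ 3 + (-1/3) * n ^ 4 + (1/72) * n ^ 5) * (f * (J.D f) * (J.D f))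
      + ((-187/30) * n + (449/60) * n ^ 2 + (-365/108) * n ^ 3 + (155/216) * n ^ 4 + (-13/180) * n ^ 5 + (1/360) * n ^ 6) * (f * (J.D (J.D (J.D (J.D f)))))
      + ((-2/9) * n + (1/27) * n ^ 2) * (f * σ)
      + ((-85/27) * n + (47/27) * n ^ 2 + (-17/54) * n ^ 3 + (1/54) * n ^ 4) * (f * (J.D (J.D θ)))
      + ((-127/6) * n + (557/24) * n ^ 2 + (-4207/432) * n ^ 3 + (281/144) * n ^ 4 + (-3/16) * n ^ 5 + (1/144) * n ^ 6) * ((J.D f) * (J.D (J.D (J.D f))))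
      + ((-329/54) * n + (113/36) * n ^ 2 + (-14/27) * n ^ 3 + (1/36) * n ^ 4) * ((J.D f) * (J.D θ))
      + ((-59/4) * n + (127/8) * n ^ 2 + (-473/72) * n ^ 3 + (47/36) * n ^ 4 + (-1/8) * n ^ 5 + (1/216) * n ^ 6) * ((J.D (J.D f)) * (J.D (J.D f)))
      + ((-98/27) * n + (35/18) * n ^ 2 + (-1/3) * n ^ 3 + (1/54) * n ^ 4) * ((J.D (J.D f)) * θ)
      + ((221/420) * n + (-73/60) * n ^ 2 + (2011/2160) * n ^ 3 + (-1/3) * n ^ 4 + (11/180) * n ^ 5 + (-1/180) * n ^ 6 + (1/5040) * n ^ 7) * ((J.D (J.D (J.D (J.D (J.D (J.D f)))))))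
      + ((41/54) * n + (-2/9) * n ^ 2 + (1/54) * n ^ 3) * ((J.D (J.D σ)))
      + ((-5/54) * n + (1/54) * n ^ 2) * (θ * θ)
      + ((343/270) * n + (-7/6) * n ^ 2 + (85/216) * n ^ 3 + (-1/18) * n ^ 4 + (1/360) * n ^ 5) * ((J.D (J.D (J.D (J.D θ)))))

theorem U0 {f n : F} (hn : J.IsC n) :
    -3 * J.D (h2 n f) + n * J.D (f) = 0 := by
  have := J.charZero
  have hD := hn.D
  have hTn := hn.evo (Jet.K3 f)
  have hp : ∀ k, J.D (n ^ k) = 0 := fun k => (hn.pow k).D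
  have hq : ∀ k, J.evo (Jet.K3 f) (n ^ k) = 0 := fun k => (hn.pow k).evo _
  simp only [h2, map_add, map_sub, map_neg, der_mul, der_divn, dnum,
    Derivation.map_one_eq_zero, hD, hTn, hp, hq, zero_div, neg_zero, mul_zero, zero_mul, zero_add,
    add_zero, sub_zero, zero_sub, Jet.evo_D, der_sq, der_cube]
  ring

theorem U1 {f n : F} (hn : J.IsC n) :
    -3 * J.D (h3 J n f) - 3 * J.D (J.D (h2 n f)) + (n * (n - 1) / 2) * J.D (J.D (f)) = 0 := by
  have := J.charZero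
  have hD := hn.D
  have hTn := hn.evo (Jet.K3 f)
  have hp : ∀ k, J.D (n ^ k) = 0 := fun k => (hn.pow k).D
  have hq : ∀ k, J.evo (Jet.K3 f) (n ^ k) = 0 := fun k => (hn.pow k).evo _
  simp only [h2, h3, map_add, map_sub, map_neg, der_mul, der_divn, dnum,
    Derivation.map_one_eq_zero, hD, hTn, hp, hq, zero_div, neg_zero, mul_zero, zero_mul, zero_add,
    add_zero, sub_zero, zero_sub, Jet.evo_D, der_sq, der_cube]
  ring

theorem U2 {f θ n : F} (hn : J.IsC n) (hT : J.evo (Jet.K3 f) f = J.D θ) :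
    J.evo (Jet.K3 f) (h2 n f) - 3 * J.D (h4 J n f θ) - 3 * J.D (J.D (h3 J n f)) - J.D (J.D (J.D (h2 n f))) - f * J.D (h2 n f) + (n * (n - 1) * (n - 2) / 6) * J.D (J.D (J.D (f))) + (n - 2) * (h2 n f * J.D (f)) = 0 := by
  have := J.charZero
  have hD := hn.D
  have hTn := hn.evo (Jet.K3 f)
  have hp : ∀ k, J.D (n ^ k) = 0 := fun k => (hn.pow k).D
  have hq : ∀ k, J.evo (Jet.K3 f) (n ^ k) = 0 := fun k => (hn.pow k).evo _
  simp only [h2, h3, h4, map_add, map_sub, map_neg, der_mul, der_divn, dnum,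
    Derivation.map_one_eq_zero, hD, hTn, hp, hq, zero_div, neg_zero, mul_zero, zero_mul, zero_add,
    add_zero, sub_zero, zero_sub, Jet.evo_D, der_sq, der_cube, hT]
  ring

theorem U3 {f θ n : F} (hn : J.IsC n) (hT : J.evo (Jet.K3 f) f = J.D θ) :
    J.evo (Jet.K3 f) (h3 J n f) - 3 * J.D (h5 J n f θ) - 3 * J.D (J.D (h4 J n f θ)) - J.D (J.D (J.D (h3 J n f))) - f * J.D (h3 J n f) + (n * (n - 1) * (n - 2) * (n - 3) / 24) * J.D (J.D (J.D (J.D (f)))) + ((n - 2) * ((n - 2) - 1) / 2) * (h2 n f * J.D (J.D (f))) + (n - 3) * (h3 J n f * J.D (f)) = 0 := by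
  have := J.charZero
  have hD := hn.D
  have hTn := hn.evo (Jet.K3 f)
  have hp : ∀ k, J.D (n ^ k) = 0 := fun k => (hn.pow k).D
  have hq : ∀ k, J.evo (Jet.K3 f) (n ^ k) = 0 := fun k => (hn.pow k).evo _
  simp only [h2, h3, h4, h5, map_add, map_sub, map_neg, der_mul, der_divn, dnum,
    Derivation.map_one_eq_zero, hD, hTn, hp, hq, zero_div, neg_zero, mul_zero, zero_mul, zero_add,
    add_zero, sub_zero, zero_sub, Jet.evo_D, der_sq, der_cube, hT]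
  ring

theorem U4 {f θ σ n : F} (hn : J.IsC n) (hT : J.evo (Jet.K3 f) f = J.D θ) (hS : J.evo (Jet.K3 f) θ = J.D σ) :
    J.evo (Jet.K3 f) (h4 J n f θ) - 3 * J.D (h6 J n f θ σ) - 3 * J.D (J.D (h5 J n f θ)) - J.D (J.D (J.D (h4 J n f θ))) - f * J.D (h4 J n f θ) + (n * (n - 1) * (n - 2) * (n - 3) * (n - 4) / 120) * J.D (J.D (J.D (J.D (J.D (f))))) + ((n - 2) * ((n - 2) - 1) * ((n - 2) - 2) / 6) * (h2 n f * J.D (J.D (J.D (f)))) + ((n - 3) * ((n - 3) - 1) / 2) * (h3 J n f * J.D (J.D (f))) + (n - 4) * (h4 J n f θ * J.D (f)) = 0 := by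
  have := J.charZero
  have hD := hn.D
  have hTn := hn.evo (Jet.K3 f)
  have hp : ∀ k, J.D (n ^ k) = 0 := fun k => (hn.pow k).D
  have hq : ∀ k, J.evo (Jet.K3 f) (n ^ k) = 0 := fun k => (hn.pow k).evo _
  simp only [h2, h3, h4, h5, h6, map_add, map_sub, map_neg, der_mul, der_divn, dnum,
    Derivation.map_one_eq_zero, hD, hTn, hp, hq, zero_div, neg_zero, mul_zero, zero_mul, zero_add,
    add_zero, sub_zero, zero_sub, Jet.evo_D, der_sq, der_cube, hT, hS]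
  ring

theorem U5 {f θ σ n : F} (hn : J.IsC n) (hT : J.evo (Jet.K3 f) f = J.D θ) (hS : J.evo (Jet.K3 f) θ = J.D σ) :
    J.evo (Jet.K3 f) (h5 J n f θ) - 3 * J.D (h7 J n f θ σ) - 3 * J.D (J.D (h6 J n f θ σ)) - J.D (J.D (J.D (h5 J n f θ))) - f * J.D (h5 J n f θ) + (n * (n - 1) * (n - 2) * (n - 3) * (n - 4) * (n - 5) / 720) * J.D (J.D (J.D (J.D (J.D (J.D (f)))))) + ((n - 2) * ((n - 2) - 1) * ((n - 2) - 2) * ((n - 2) - 3) / 24) * (h2 n f * J.D (J.D (J.D (J.D (f))))) + ((n - 3) * ((n - 3) - 1) * ((n - 3) - 2) / 6) * (h3 J n f * J.D (J.D (J.D (f)))) + ((n - 4) * ((n - 4) - 1) / 2) * (h4 J n f θ * J.D (J.D (f))) + (n - 5) * (h5 J n f θ * J.D (f)) = 0 := by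
  have := J.charZero
  have hD := hn.D
  have hTn := hn.evo (Jet.K3 f)
  have hp : ∀ k, J.D (n ^ k) = 0 := fun k => (hn.pow k).D
  have hq : ∀ k, J.evo (Jet.K3 f) (n ^ k) = 0 := fun k => (hn.pow k).evo _
  simp only [h2, h3, h4, h5, h6, h7, map_add, map_sub, map_neg, der_mul, der_divn, dnum,
    Derivation.map_one_eq_zero, hD, hTn, hp, hq, zero_div, neg_zero, mul_zero, zero_mul, zero_add,
    add_zero, sub_zero, zero_sub, Jet.evo_D, der_sq, der_cube, hT, hS]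
  ring

theorem U6 {f θ σ n : F} (hn : J.IsC n) (hT : J.evo (Jet.K3 f) f = J.D θ) (hS : J.evo (Jet.K3 f) θ = J.D σ) :
    J.evo (Jet.K3 f) (h6 J n f θ σ) - 3 * J.D (J.D (h7 J n f θ σ)) - J.D (J.D (J.D (h6 J n f θ σ))) - f * J.D (h6 J n f θ σ) + (n * (n - 1) * (n - 2) * (n - 3) * (n - 4) * (n - 5) * (n - 6) / 5040) * J.D (J.D (J.D (J.D (J.D (J.D (J.D (f))))))) + ((n - 2) * ((n - 2) - 1) * ((n - 2) - 2) * ((n - 2) - 3) * ((n - 2) - 4) / 120) * (h2 n f * J.D (J.D (J.D (J.D (J.D (f)))))) + ((n - 3) * ((n - 3) - 1) * ((n - 3) - 2) * ((n - 3) - 3) / 24) * (h3 J n f * J.D (J.D (J.D (J.D (f))))) + ((n - 4) * ((n - 4) - 1) * ((n - 4) - 2) / 6) * (h4 J n f θ * J.D (J.D (J.D (f)))) + ((n - 5) * ((n - 5) - 1) / 2) * (h5 J n f θ * J.D (J.D (f))) + (n - 6) * (h6 J n f θ σ * J.D (f)) = 1 / 27 * n * J.evo (Jet.K3 f) (σ + f * θ - f ^ 3 / 3 + J.D f ^ 2) + J.D (h8 J n f θ σ) := by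
  have := J.charZero
  have hD := hn.D
  have hTn := hn.evo (Jet.K3 f)
  have hp : ∀ k, J.D (n ^ k) = 0 := fun k => (hn.pow k).D
  have hq : ∀ k, J.evo (Jet.K3 f) (n ^ k) = 0 := fun k => (hn.pow k).evo _
  simp only [h2, h3, h4, h5, h6, h7, h8, map_add, map_sub, map_neg, der_mul, der_divn, dnum,
    Derivation.map_one_eq_zero, hD, hTn, hp, hq, zero_div, neg_zero, mul_zero, zero_mul, zero_add,
    add_zero, sub_zero, zero_sub, Jet.evo_D, der_sq, der_cube, hT, hS]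
  ring

end Nec

end Pool.Agent.Lib.MP_4d1bc1_mp.Kv
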