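import Pool.Agent.Lib.MP_4d1bc1_mp.Kv.Calc5

set_option autoImplicit false
set_option linter.unusedSimpArgs false

/-! The variational derivative of `θ`, where `f_t = θ'`. -/

namespace Pool.Agent.Lib.MP_4d1bc1_mp.Kv

open Finset Polynomial

universe u

variable {F : Type u} [Field F] [Algebra ℝ F]

namespace Jet

variable (J : Jet F)

/-- `-δθ` -/
noncomputable def mth (f : F) : F[X] := J.cosL1 f (J.v0 f) (J.v1 f)

variable {J}

theorem mth_hi {f : F} (hf : J.Six f) (hα : J.IsC (J.pd 2 2 f)) :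
    (J.mth f).coeff 6 = -(6 * J.pd 2 2 f) ∧ (J.mth f).coeff 5 = 0
    ∧ (J.mth f).coeff 4 = 3 * J.cA f - 3 * J.D (J.pd 1 2 f) - 2 * J.pd 2 2 f * f
      + 2 * J.pd 2 2 f * J.cM f
    ∧ (J.mth f).coeff 3 = 8 * J.pd 2 2 f * J.D f + 12 * J.D (J.cA f)
      - 6 * J.D (J.D (J.pd 1 2 f)) + 4 * J.pd 2 2 f * (J.cE f + J.D (J.cM f)) := by
  obtain ⟨a0, a1, a2, a3, a4, a5⟩ := hf.c0 hα
  obtain ⟨b0, b1, b2, b3, b5⟩ := hf.c1 hα
  obtain ⟨c0, c1, c2, c5⟩ := hf.c2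
  refine ⟨?_, ?_, ?_, ?_⟩
  · rw [mth, J.coeff_cosL1_6 f (fun i hi => b5 i (by omega)), coeff_DM2_6, a4,
      a5 5 (by omega), a5 6 (by omega), b5 4 (by omega), b5 5 (by omega), b5 6 (by omega),
      c5 6 (by omega)]
    simp only [map_zero, mul_zero, zero_mul, add_zero, zero_add, sub_zero, zero_sub]
    ring
  · rw [mth, J.coeff_cosL1_5 f (fun i hi => b5 i (by omega)), coeff_DM2_5, a4, a3,
      a5 5 (by omega), b3, b5 4 (by omega), b5 5 (by omega), b5 6 (by omega),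
      c5 5 (by omega)]
    simp only [map_zero, mul_zero, zero_mul, add_zero, zero_add, sub_zero, zero_sub, der_mul,
      dnum, hα.D, neg_zero]
  · rw [mth, J.coeff_cosL1_4 f (fun i hi => b5 i (by omega)), coeff_DM2_4, a4, a3, a2, b3, b2,
      b5 4 (by omega), b5 5 (by omega), b5 6 (by omega), c5 4 (by omega), hf.ip_v0 hα,
      hf.ip_v1 hα]
    simp only [map_zero, mul_zero, zero_mul, add_zero, zero_add, sub_zero, zero_sub, der_mul,
      dnum, hα.D, neg_zero]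
    ring
  · rw [mth, J.coeff_cosL1_3 f (fun i hi => b5 i (by omega)), coeff_DM2_3, a3, a2, a1, b3, b2,
      b1, b5 4 (by omega), b5 5 (by omega), b5 6 (by omega), c5 3 (by omega), hf.ip_v0 hα,
      hf.ip_v1 hα]
    simp only [map_zero, mul_zero, zero_mul, add_zero, zero_add, sub_zero, zero_sub, der_mul,
      dnum, hα.D, hα.evo, neg_zero, map_sub, map_neg]
    ring

theorem mth_2 {f : F} (hf : J.Six f) (hα : J.IsC (J.pd 2 2 f)) :
    (J.mth f).coeff 2 = J.evo (K3 f) (J.pd 1 2 f) - 4 * J.D (J.D (J.D (J.pd 1 2 f)))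
      + 12 * J.D (J.D (J.cA f)) - 3 * J.D (J.cG f) + J.D f * J.pd 1 2 f
      - f * J.D (J.pd 1 2 f) + 12 * J.pd 2 2 f * J.D (J.D f) - 3 * J.cB f + f * J.cA f
      - J.cM f * J.cA f + (J.cE f + J.D (J.cM f)) * J.pd 1 2 f
      + 4 * J.pd 2 2 f * J.D (J.cE f) + 2 * J.pd 2 2 f * J.D (J.D (J.cM f)) := by
  obtain ⟨a0, a1, a2, a3, a4, a5⟩ := hf.c0 hα
  obtain ⟨b0, b1, b2, b3, b5⟩ := hf.c1 hα
  obtain ⟨c0, c1, c2, c5⟩ := hf.c2
  rw [mth, J.coeff_cosL1_2 f (fun i hi => b5 i (by omega)), coeff_DM2_2, a2, a1, a0, b3, b2,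
    b1, b0, b5 4 (by omega), b5 5 (by omega), b5 6 (by omega), c2, hf.ip_v0 hα,
    hf.ip_v1 hα]
  simp only [map_zero, mul_zero, zero_mul, add_zero, zero_add, sub_zero, zero_sub, der_mul,
    dnum, hα.D, hα.evo, neg_zero, map_sub, map_neg]
  ring

theorem mth_1 {f : F} (hf : J.Six f) (hα : J.IsC (J.pd 2 2 f)) :
    (J.mth f).coeff 1 = J.evo (K3 f) (J.D (J.pd 1 2 f) - J.cA f)
      - J.D (J.D (J.D (J.D (J.pd 1 2 f) - J.cA f))) - J.D (f * (J.D (J.pd 1 2 f) - J.cA f))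
      - 3 * J.D (J.D (J.cG f)) + (J.D (J.pd 1 2 f) - J.cA f) * J.D f
      + J.pd 1 2 f * J.D (J.D f) + 4 * J.pd 2 2 f * J.D (J.D (J.D f))
      + 3 * J.D (J.D (J.D (J.cA f))) - 6 * J.D (J.cB f) + f * J.D (J.cA f)
      - J.cM f * J.D (J.cA f) + (J.cE f + J.D (J.cM f)) * (J.D (J.pd 1 2 f) - J.cA f)
      + (2 * J.D (J.cE f) + J.D (J.D (J.cM f))) * J.pd 1 2 f := by
  obtain ⟨a0, a1, a2, a3, a4, a5⟩ := hf.c0 hα
  obtain ⟨b0, b1, b2, b3, b5⟩ := hf.c1 hα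
  obtain ⟨c0, c1, c2, c5⟩ := hf.c2
  rw [mth, J.coeff_cosL1_1 f (fun i hi => b5 i (by omega)), coeff_DM2_1, a1, a0, b3, b2,
    b1, b0, b5 4 (by omega), b5 5 (by omega), b5 6 (by omega), c1, hf.ip_v0 hα,
    hf.ip_v1 hα]
  simp only [map_zero, mul_zero, zero_mul, add_zero, zero_add, sub_zero, zero_sub, der_mul,
    dnum, hα.D, hα.evo, neg_zero, map_sub, map_neg]
  ring

theorem mth_0 {f : F} (hf : J.Six f) (hα : J.IsC (J.pd 2 2 f)) :
    (J.mth f).coeff 0 = J.evo (K3 f) (J.cG f) - J.D (J.D (J.D (J.cG f))) - J.D (f * J.cG f)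
      - 3 * J.D (J.D (J.cB f)) - f * J.cB f + J.cM f * J.cB f
      + (J.cE f + J.D (J.cM f)) * J.cG f
      + (2 * J.D (J.cE f) + J.D (J.D (J.cM f))) * J.pd 0 2 f := by
  obtain ⟨a0, a1, a2, a3, a4, a5⟩ := hf.c0 hα
  obtain ⟨b0, b1, b2, b3, b5⟩ := hf.c1 hα
  obtain ⟨c0, c1, c2, c5⟩ := hf.c2
  rw [mth, J.coeff_cosL1_0 f (fun i hi => b5 i (by omega)), coeff_DM2_0, a0, b0, c0,
    hf.ip_v0 hα, hf.ip_v1 hα]

theorem mth_big {f : F} (hf : J.Six f) (hα : J.IsC (J.pd 2 2 f)) :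
    ∀ i, 6 < i → (J.mth f).coeff i = 0 := by
  intro i hi
  obtain ⟨a0, a1, a2, a3, a4, a5⟩ := hf.c0 hα
  obtain ⟨b0, b1, b2, b3, b5⟩ := hf.c1 hα
  obtain ⟨c0, c1, c2, c5⟩ := hf.c2
  have h := J.cos_expand f ((J.v1 f).coeff 0) ((J.v1 f).coeff 1) ((J.v1 f).coeff 2)
    ((J.v1 f).coeff 3) ((J.v1 f).coeff 4) ((J.v1 f).coeff 5) ((J.v1 f).coeff 6)
  rw [← eq_expand (fun i hi => b5 i (by omega))] at h
  have h2 := congrArg (fun U : F[X] => U.coeff i) h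
  have h3 : (3 * J.DM (J.DM (J.v0 f))).coeff i = 3 * (J.DM (J.DM (J.v0 f))).coeff i := by
    rw [← map_ofNat (C : F →+* F[X]) 3, coeff_C_mul]
  obtain ⟨j, rfl⟩ : ∃ j, i = j + 7 := ⟨i - 7, by omega⟩
  have h4 : (J.DM (J.DM (J.v0 f))).coeff (j + 7) = 0 := by
    rw [coeff_DM_succ, coeff_DM_succ, coeff_DM_succ, a5 _ (by omega), a5 _ (by omega),
      a5 _ (by omega)]
    simp
  simp only [coeff_sub, coeff_add, coeff_C_mul, coeff_X_pow, coeff_C, coeff_X] at h2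
  rw [if_neg (by omega), if_neg (by omega), if_neg (by omega), if_neg (by omega),
    if_neg (by omega), if_neg (by omega), b5 4 (by omega), b5 5 (by omega),
    b5 6 (by omega)] at h2
  rw [mth, cosL1, coeff_add, coeff_add, coeff_add, coeff_sub, coeff_sub, coeff_sub, coeff_sub,
    coeff_C_mul, coeff_C_mul, coeff_C_mul, coeff_C_mul, h3, h4, a5 _ (by omega),
    b5 _ (by omega), c5 _ (by omega)]
  simp only [map_zero, mul_zero, zero_mul, add_zero, zero_add, sub_zero, zero_sub, neg_zero] at h2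
  linear_combination h2

/-- the equation for `δθ` when also `θ_t` is a total derivative -/
theorem cos_mth {f θ σ : F} (hf : J.Six f) (hT : J.evo (K3 f) f = J.D θ)
    (hS : J.evo (K3 f) θ = J.D σ) : J.cosL f (J.v0 f) = 0 ∧ J.cosL f (-J.mth f) = 0 := by
  obtain ⟨N, hN⟩ := J.exists_bd θ
  obtain ⟨M, hM⟩ := J.exists_bd σ
  have h1 := J.cos_main hf.bd hf.bd hN hT
  have h2 := J.cos_main hf.bd hN hM hS
  rw [(J.del_f (f := f)).1, (J.del_f (f := f)).2] at h1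
  refine ⟨h1.1, ?_⟩
  have h3 := h2.1
  rw [h1.2] at h3
  exact h3

end Jet

end Pool.Agent.Lib.MP_4d1bc1_mp.Kv
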